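import Mathlib

/-!
# Two-dimensional orders whose cover graphs have large chromatic number

For every `c` there are `n` and heights `y 0, ..., y (n - 1)` such that every colouring of
`0, ..., n - 1` with `c` colours has two points `i < j` of the same colour with `y i < y j` and no
point `k` with `i < k < j` and `y i < y k < y j`.  (Kříž and Nešetřil 1991; the proof below is a
counting argument.)
-/

set_option autoImplicit false

namespace Pool.Agent.X60.HasseC

/-- The points `i, j` of `L` form a cover pair. -/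
def Cov (L : Finset ℕ) (y : ℕ → ℕ) (i j : ℕ) : Prop :=
  i ∈ L ∧ j ∈ L ∧ i < j ∧ y i < y j ∧ ∀ k ∈ L, i < k → k < j → ¬ (y i < y k ∧ y k < y j)

/-- The smallest `c` elements of a finite set of numbers. -/
lemma exists_initial (L : Finset ℕ) (c : ℕ) (h : c ≤ L.card) :
    ∃ m, (L.filter (· < m)).card = c := by
  classical
  have hex : ∃ m, c ≤ (L.filter (· < m)).card := by
    refine ⟨L.sup id + 1, ?_⟩
    rw [Finset.filter_true_of_mem]
    · exact h
    · intro x hx
      exact Nat.lt_succ_of_le (Finset.le_sup (f := id) hx)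
  refine ⟨Nat.find hex, le_antisymm ?_ (Nat.find_spec hex)⟩
  rcases Nat.eq_zero_or_pos (Nat.find hex) with h0 | h0
  · rw [h0]
    simp
  · obtain ⟨m, hm⟩ := Nat.exists_eq_succ_of_ne_zero h0.ne'
    have h1 : (L.filter (· < m)).card < c := by
      have := Nat.find_min hex (m := m) (by omega)
      omega
    have h2 : L.filter (· < Nat.find hex) ⊆ insert m (L.filter (· < m)) := by
      intro x hx
      rw [Finset.mem_filter, hm] at hx
      rw [Finset.mem_insert, Finset.mem_filter]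
      rcases Nat.lt_succ_iff_lt_or_eq.1 hx.2 with h3 | h3
      · exact Or.inr ⟨hx.1, h3⟩
      · exact Or.inl h3
    have h3 := Finset.card_le_card h2
    have h4 := Finset.card_insert_le m (L.filter (· < m))
    omega

/-- One pair kills a positive proportion of the colourings. -/
lemma one_pair {ι : Type} (c : ℕ) (b : Finset ℕ) (hb : b.card = c + 1)
    (C : Finset ι) (φ : ι → ℕ → ℕ) (hφ : ∀ χ ∈ C, ∀ i ∈ b, φ χ i < c) (hC : C.Nonempty) :
    ∃ i ∈ b, ∃ j ∈ b, i < j ∧
      (C.filter (fun χ => φ χ i ≠ φ χ j)).card * (c + 1) ^ 2 ≤ C.card * ((c + 1) ^ 2 - 1) := by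
  classical
  have hpair : ∀ χ ∈ C, ∃ p : ℕ × ℕ, p ∈ b ×ˢ b ∧ p.1 < p.2 ∧ φ χ p.1 = φ χ p.2 := by
    intro χ hχ
    obtain ⟨i, hi, j, hj, hne, heq⟩ := Finset.exists_ne_map_eq_of_card_lt_of_maps_to
      (s := b) (t := Finset.range c) (f := φ χ) (by rw [hb, Finset.card_range]; omega)
      (fun i hi => Finset.mem_coe.2 (Finset.mem_range.2 (hφ χ hχ i hi)))
    rcases lt_or_gt_of_ne hne with h | h
    · exact ⟨(i, j), Finset.mem_product.2 ⟨hi, hj⟩, h, heq⟩
    · exact ⟨(j, i), Finset.mem_product.2 ⟨hj, hi⟩, h, heq.symm⟩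
  have hK : (b ×ˢ b).card = (c + 1) ^ 2 := by
    rw [Finset.card_product, hb]
    ring
  let p : ι → ℕ × ℕ := fun χ => if h : χ ∈ C then (hpair χ h).choose else (0, 0)
  have hp : ∀ χ ∈ C, p χ ∈ b ×ˢ b ∧ (p χ).1 < (p χ).2 ∧ φ χ (p χ).1 = φ χ (p χ).2 := by
    intro χ hχ
    simp only [p, dif_pos hχ]
    exact (hpair χ hχ).choose_spec
  have hsum : C.card = ∑ q ∈ b ×ˢ b, (C.filter (fun χ => p χ = q)).card :=
    Finset.card_eq_sum_card_fiberwise (fun χ hχ => (hp χ hχ).1)
  have hbig : ∃ q ∈ b ×ˢ b, C.card ≤ (C.filter (fun χ => p χ = q)).card * (c + 1) ^ 2 := by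
    by_contra hcon
    push Not at hcon
    have hne : (b ×ˢ b).Nonempty := by
      rw [← Finset.card_pos, hK]
      positivity
    have h1 := Finset.sum_lt_sum_of_nonempty hne hcon
    rw [← Finset.sum_mul, ← hsum, Finset.sum_const, hK, smul_eq_mul, mul_comm] at h1
    exact lt_irrefl _ h1
  obtain ⟨q, hq, hle⟩ := hbig
  have hCpos : 0 < C.card := Finset.card_pos.2 hC
  have hfpos : 0 < (C.filter (fun χ => p χ = q)).card := by
    by_contra h0
    have : (C.filter (fun χ => p χ = q)).card = 0 := by omega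
    rw [this] at hle
    omega
  obtain ⟨χ0, hχ0⟩ := Finset.card_pos.1 hfpos
  rw [Finset.mem_filter] at hχ0
  have h0 := hp χ0 hχ0.1
  rw [hχ0.2] at h0
  rw [Finset.mem_product] at hq
  refine ⟨q.1, hq.1, q.2, hq.2, h0.2.1, ?_⟩
  have hsub : C.filter (fun χ => p χ = q) ⊆ C.filter (fun χ => ¬ (φ χ q.1 ≠ φ χ q.2)) := by
    intro χ hχ
    rw [Finset.mem_filter] at hχ ⊢
    have h1 := (hp χ hχ.1).2.2
    rw [hχ.2] at h1
    exact ⟨hχ.1, fun h => h h1⟩
  have h1 := Finset.card_le_card hsub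
  have h2 := Finset.card_filter_add_card_filter_not (s := C) (fun χ => φ χ q.1 ≠ φ χ q.2)
  obtain ⟨K, hKe⟩ : ∃ K, (c + 1) ^ 2 = K + 1 := ⟨(c + 1) ^ 2 - 1, by
    have : 0 < (c + 1) ^ 2 := by positivity
    omega⟩
  rw [hKe] at hle ⊢
  simp only [Nat.add_sub_cancel]
  nlinarith

/-- One round: many pairs in consecutive blocks. -/
lemma round {ι : Type} (c : ℕ) (hc : 0 < c) (φ : ι → ℕ → ℕ) : ∀ (N : ℕ) (L : Finset ℕ) (C : Finset ι),
    L.card ≤ N → (∀ χ ∈ C, ∀ i ∈ L, φ χ i < c) →
    ∃ g : ℕ → ℕ, (∀ k, g k < 3) ∧ ∃ C' ⊆ C,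
      (∀ χ ∈ C, χ ∉ C' → ∃ i ∈ L, ∃ j ∈ L, i < j ∧ g i = 1 ∧ g j = 2 ∧
        (∀ k ∈ L, i < k → k < j → g k = 0) ∧ φ χ i = φ χ j) ∧
      ∃ B, C'.card * ((c + 1) ^ 2) ^ B ≤ C.card * ((c + 1) ^ 2 - 1) ^ B ∧
        L.card ≤ (c + 1) * (B + 1) := by
  classical
  intro N
  induction N with
  | zero =>
    intro L C hL _
    refine ⟨fun _ => 0, fun _ => by norm_num, C, Finset.Subset.refl C,
      fun χ h h' => absurd h h', 0, by simp, by omega⟩
  | succ N ih =>
    intro L C hL hφ
    by_cases hsmall : L.card < c + 1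
    · exact ⟨fun _ => 0, fun _ => by norm_num, C, Finset.Subset.refl C,
        fun χ h h' => absurd h h', 0, by simp, by omega⟩
    · push Not at hsmall
      rcases Finset.eq_empty_or_nonempty C with hCe | hCne
      · refine ⟨fun _ => 0, fun _ => by norm_num, ∅, Finset.empty_subset _, ?_, L.card, by simp, ?_⟩
        · intro χ hχ
          rw [hCe] at hχ
          exact absurd hχ (Finset.notMem_empty χ)
        · nlinarith
      obtain ⟨m, hm⟩ := exists_initial L (c + 1) hsmall
      obtain ⟨i, hi, j, hj, hij, hkill⟩ := one_pair c (L.filter (· < m)) hm C φ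
        (fun χ hχ k hk => hφ χ hχ k (Finset.mem_filter.1 hk).1) hCne
      have hcard : (L.filter (· < m)).card + (L.filter (fun k => ¬ k < m)).card = L.card :=
        Finset.card_filter_add_card_filter_not (s := L) (· < m)
      obtain ⟨g, hg, C', hC', hbad, B, hB1, hB2⟩ := ih (L.filter (fun k => ¬ k < m))
        (C.filter (fun χ => φ χ i ≠ φ χ j)) (by omega)
        (fun χ hχ k hk => hφ χ (Finset.mem_filter.1 hχ).1 k (Finset.mem_filter.1 hk).1)
      rw [Finset.mem_filter] at hi hj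
      refine ⟨fun k => if k < m then (if k = i then 1 else if k = j then 2 else 0) else g k,
        ?_, C', hC'.trans (Finset.filter_subset _ _), ?_, B + 1, ?_, ?_⟩
      · intro k
        simp only
        split_ifs
        · norm_num
        · norm_num
        · norm_num
        · exact hg k
      · intro χ hχ hχ'
        by_cases heq : φ χ i = φ χ j
        · refine ⟨i, hi.1, j, hj.1, hij, ?_, ?_, ?_, heq⟩
          · show (if i < m then (if i = i then 1 else if i = j then 2 else 0) else g i) = 1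
            rw [if_pos hi.2, if_pos rfl]
          · show (if j < m then (if j = i then 1 else if j = j then 2 else 0) else g j) = 2
            rw [if_pos hj.2, if_neg hij.ne', if_pos rfl]
          · intro k _ h1 h2
            simp only
            rw [if_pos (h2.trans hj.2), if_neg h1.ne', if_neg h2.ne]
        · obtain ⟨i', hi', j', hj', hij', h1, h2, h3, h4⟩ := hbad χ
            (Finset.mem_filter.2 ⟨hχ, heq⟩) hχ'
          rw [Finset.mem_filter] at hi' hj'
          refine ⟨i', hi'.1, j', hj'.1, hij', ?_, ?_, ?_, h4⟩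
          · simp only
            rw [if_neg hi'.2]
            exact h1
          · simp only
            rw [if_neg hj'.2]
            exact h2
          · intro k hk h5 h6
            have hkm : ¬ k < m := by
              have := hi'.2
              omega
            simp only
            rw [if_neg hkm]
            exact h3 k (Finset.mem_filter.2 ⟨hk, hkm⟩) h5 h6
      · calc C'.card * ((c + 1) ^ 2) ^ (B + 1)
            = (C'.card * ((c + 1) ^ 2) ^ B) * (c + 1) ^ 2 := by ring
          _ ≤ ((C.filter (fun χ => φ χ i ≠ φ χ j)).card * ((c + 1) ^ 2 - 1) ^ B) * (c + 1) ^ 2 :=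
              Nat.mul_le_mul_right _ hB1
          _ = ((C.filter (fun χ => φ χ i ≠ φ χ j)).card * (c + 1) ^ 2) * ((c + 1) ^ 2 - 1) ^ B := by
              ring
          _ ≤ (C.card * ((c + 1) ^ 2 - 1)) * ((c + 1) ^ 2 - 1) ^ B := Nat.mul_le_mul_right _ hkill
          _ = C.card * ((c + 1) ^ 2 - 1) ^ (B + 1) := by ring
      · have : (c + 1) * (B + 1 + 1) = (c + 1) * (B + 1) + (c + 1) := by ring
        omega

/-- The recursive construction. -/
lemma rec_constr {ι : Type} (c : ℕ) (hc : 0 < c) (φ : ι → ℕ → ℕ) : ∀ t : ℕ, ∃ κ : ℕ,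
    ∀ (L : Finset ℕ) (C : Finset ι), (∀ χ ∈ C, ∀ i ∈ L, φ χ i < c) →
    ∃ y : ℕ → ℕ, (∀ k, y k < 3 ^ t) ∧ ∃ C' ⊆ C,
      (∀ χ ∈ C, χ ∉ C' → ∃ i j, Cov L y i j ∧ φ χ i = φ χ j) ∧
      ∃ b, C'.card * ((c + 1) ^ 2) ^ b ≤ C.card * ((c + 1) ^ 2 - 1) ^ b ∧
        t * L.card ≤ (c + 1) * (b + κ) := by
  classical
  intro t
  induction t with
  | zero =>
    refine ⟨0, fun L C _ => ⟨fun _ => 0, fun _ => by norm_num, C, Finset.Subset.refl C,
      fun χ h h' => absurd h h', 0, by simp, by simp⟩⟩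
  | succ t ih =>
    obtain ⟨κ, hκ⟩ := ih
    refine ⟨3 * κ + 1, fun L C hφ => ?_⟩
    obtain ⟨g, hg, C0, hC0, hbad, B, hB1, hB2⟩ := round c hc φ L.card L C le_rfl hφ
    obtain ⟨y0, hy0, C1, hC1, hbad0, b0, hb0, hb0'⟩ := hκ (L.filter (fun k => g k = 0)) C0
      (fun χ hχ i hi => hφ χ (hC0 hχ) i (Finset.mem_filter.1 hi).1)
    obtain ⟨y1, hy1, C2, hC2, hbad1, b1, hb1, hb1'⟩ := hκ (L.filter (fun k => g k = 1)) C1
      (fun χ hχ i hi => hφ χ (hC0 (hC1 hχ)) i (Finset.mem_filter.1 hi).1)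
    obtain ⟨y2, hy2, C3, hC3, hbad2, b2, hb2, hb2'⟩ := hκ (L.filter (fun k => g k = 2)) C2
      (fun χ hχ i hi => hφ χ (hC0 (hC1 (hC2 hχ))) i (Finset.mem_filter.1 hi).1)
    -- the new heights
    let yy : ℕ → ℕ → ℕ := fun d => if d = 0 then y0 else if d = 1 then y1 else y2
    have hyy : ∀ d k, yy d k < 3 ^ t := by
      intro d k
      simp only [yy]
      split_ifs
      · exact hy0 k
      · exact hy1 k
      · exact hy2 k
    let y : ℕ → ℕ := fun k => g k * 3 ^ t + yy (g k) k
    have hylt : ∀ k l, y k < y l → g k ≤ g l := by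
      intro k l hkl
      by_contra hcon
      push Not at hcon
      have h1 := hyy (g l) l
      have h2 : (g l + 1) * 3 ^ t ≤ g k * 3 ^ t := Nat.mul_le_mul_right _ hcon
      have h3 : y k = g k * 3 ^ t + yy (g k) k := rfl
      have h4 : y l = g l * 3 ^ t + yy (g l) l := rfl
      have h5 : (g l + 1) * 3 ^ t = g l * 3 ^ t + 3 ^ t := by ring
      omega
    have hlift : ∀ d i j, Cov (L.filter (fun k => g k = d)) (yy d) i j → Cov L y i j := by
      intro d i j h
      obtain ⟨hi, hj, hij, hyij, hno⟩ := h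
      rw [Finset.mem_filter] at hi hj
      have e1 : y i = d * 3 ^ t + yy d i := by simp only [y, hi.2]
      have e2 : y j = d * 3 ^ t + yy d j := by simp only [y, hj.2]
      refine ⟨hi.1, hj.1, hij, by omega, fun k hk h1 h2 => ?_⟩
      rintro ⟨h3, h4⟩
      have h5 := hylt i k h3
      have h6 := hylt k j h4
      have h7 : g k = d := by
        rw [hi.2] at h5
        rw [hj.2] at h6
        omega
      have e3 : y k = d * 3 ^ t + yy d k := by simp only [y, h7]
      exact hno k (Finset.mem_filter.2 ⟨hk, h7⟩) h1 h2 ⟨by omega, by omega⟩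
    refine ⟨y, ?_, C3, ((hC3.trans hC2).trans hC1).trans hC0, ?_, B + b0 + b1 + b2, ?_, ?_⟩
    · intro k
      have h1 := hyy (g k) k
      have h2 : g k * 3 ^ t ≤ 2 * 3 ^ t := Nat.mul_le_mul_right _ (by have := hg k; omega)
      have h3 : y k = g k * 3 ^ t + yy (g k) k := rfl
      have h4 : 3 ^ (t + 1) = 2 * 3 ^ t + 3 ^ t := by ring
      omega
    · intro χ hχ hχ3
      by_cases h0 : χ ∈ C0
      · by_cases h1 : χ ∈ C1
        · by_cases h2 : χ ∈ C2
          · obtain ⟨i, j, hc', heq⟩ := hbad2 χ h2 hχ3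
            exact ⟨i, j, hlift 2 i j hc', heq⟩
          · obtain ⟨i, j, hc', heq⟩ := hbad1 χ h1 h2
            exact ⟨i, j, hlift 1 i j hc', heq⟩
        · obtain ⟨i, j, hc', heq⟩ := hbad0 χ h0 h1
          exact ⟨i, j, hlift 0 i j hc', heq⟩
      · obtain ⟨i, hi, j, hj, hij, g1, g2, hbet, heq⟩ := hbad χ hχ h0
        refine ⟨i, j, ⟨hi, hj, hij, ?_, ?_⟩, heq⟩
        · have h1 := hyy (g i) i
          have e1 : y i = g i * 3 ^ t + yy (g i) i := rfl
          have e2 : y j = g j * 3 ^ t + yy (g j) j := rfl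
          rw [g1] at e1 h1
          rw [g2] at e2
          omega
        · intro k hk h1 h2
          rintro ⟨h3, _⟩
          have h4 := hylt i k h3
          rw [hbet k hk h1 h2, g1] at h4
          omega
    · calc C3.card * ((c + 1) ^ 2) ^ (B + b0 + b1 + b2)
          = (C3.card * ((c + 1) ^ 2) ^ b2) * ((c + 1) ^ 2) ^ (B + b0 + b1) := by ring
        _ ≤ (C2.card * ((c + 1) ^ 2 - 1) ^ b2) * ((c + 1) ^ 2) ^ (B + b0 + b1) :=
            Nat.mul_le_mul_right _ hb2
        _ = (C2.card * ((c + 1) ^ 2) ^ b1) *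
              (((c + 1) ^ 2 - 1) ^ b2 * ((c + 1) ^ 2) ^ (B + b0)) := by ring
        _ ≤ (C1.card * ((c + 1) ^ 2 - 1) ^ b1) *
              (((c + 1) ^ 2 - 1) ^ b2 * ((c + 1) ^ 2) ^ (B + b0)) := Nat.mul_le_mul_right _ hb1
        _ = (C1.card * ((c + 1) ^ 2) ^ b0) *
              (((c + 1) ^ 2 - 1) ^ (b1 + b2) * ((c + 1) ^ 2) ^ B) := by ring
        _ ≤ (C0.card * ((c + 1) ^ 2 - 1) ^ b0) *
              (((c + 1) ^ 2 - 1) ^ (b1 + b2) * ((c + 1) ^ 2) ^ B) := Nat.mul_le_mul_right _ hb0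
        _ = (C0.card * ((c + 1) ^ 2) ^ B) * ((c + 1) ^ 2 - 1) ^ (b0 + b1 + b2) := by ring
        _ ≤ (C.card * ((c + 1) ^ 2 - 1) ^ B) * ((c + 1) ^ 2 - 1) ^ (b0 + b1 + b2) :=
            Nat.mul_le_mul_right _ hB1
        _ = C.card * ((c + 1) ^ 2 - 1) ^ (B + b0 + b1 + b2) := by ring
    · have hsplit : L.card ≤ (L.filter (fun k => g k = 0)).card +
          (L.filter (fun k => g k = 1)).card + (L.filter (fun k => g k = 2)).card := by
        have hsub : L ⊆ (L.filter (fun k => g k = 0) ∪ L.filter (fun k => g k = 1)) ∪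
            L.filter (fun k => g k = 2) := by
          intro k hk
          have := hg k
          simp only [Finset.mem_union, Finset.mem_filter, hk, true_and]
          omega
        exact (Finset.card_le_card hsub).trans ((Finset.card_union_le _ _).trans
          (Nat.add_le_add_right (Finset.card_union_le _ _) _))
      have h1 := Nat.mul_le_mul_left t hsplit
      have h2 : (t + 1) * L.card = t * L.card + L.card := by ring
      rw [h2]
      calc t * L.card + L.card ≤ ((c + 1) * (b0 + κ) + (c + 1) * (b1 + κ) + (c + 1) * (b2 + κ)) +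
            (c + 1) * (B + 1) := by
            refine Nat.add_le_add (h1.trans ?_) hB2
            rw [mul_add, mul_add]
            exact Nat.add_le_add (Nat.add_le_add hb0' hb1') hb2'
        _ = (c + 1) * (B + b0 + b1 + b2 + (3 * κ + 1)) := by ring

/-- **Two-dimensional orders with highly chromatic cover graphs.** -/
theorem exists_heights (c : ℕ) (hc : 0 < c) : ∃ (n : ℕ) (y : Fin n → ℕ), ∀ χ : Fin n → Fin c,
    ∃ i j : Fin n, i < j ∧ y i < y j ∧ (∀ k, i < k → k < j → ¬ (y i < y k ∧ y k < y j)) ∧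
      χ i = χ j := by
  classical
  set K : ℕ := (c + 1) ^ 2 with hK
  have hK2 : 2 ≤ K := by
    rw [hK]
    nlinarith
  obtain ⟨a, ha⟩ : ∃ a : ℕ, c * (K - 1) ^ a < K ^ a := by
    have h1 : (1 : ℝ) < (K : ℝ) / ((K - 1 : ℕ) : ℝ) := by
      have h2 : (0 : ℝ) < ((K - 1 : ℕ) : ℝ) := by
        have : 0 < K - 1 := by omega
        exact_mod_cast this
      rw [lt_div_iff₀ h2, one_mul]
      have : K - 1 < K := by omega
      exact_mod_cast this
    obtain ⟨a, ha⟩ := pow_unbounded_of_one_lt (c : ℝ) h1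
    refine ⟨a, ?_⟩
    have h2 : (0 : ℝ) < ((K - 1 : ℕ) : ℝ) ^ a := by
      have : 0 < K - 1 := by omega
      have h3 : (0 : ℝ) < ((K - 1 : ℕ) : ℝ) := by exact_mod_cast this
      positivity
    rw [div_pow, lt_div_iff₀ h2] at ha
    exact_mod_cast ha
  -- the colourings have to be indexed uniformly: use all functions from `ℕ`
  let φ : (ℕ → ℕ) → ℕ → ℕ := fun χ i => χ i
  obtain ⟨κ, hκ⟩ := rec_constr c hc φ ((c + 1) * (a + 1))
  set n := κ + 1 with hn
  -- the colourings of the first `n` numbers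
  let ext : (Fin n → Fin c) → ℕ → ℕ := fun χ i => if h : i < n then (χ ⟨i, h⟩ : ℕ) else 0
  have hext : Function.Injective ext := by
    intro χ χ' h
    funext i
    have h1 := congrFun h i
    simp only [ext, dif_pos i.2] at h1
    exact Fin.ext h1
  let C : Finset (ℕ → ℕ) := Finset.univ.image ext
  have hCcard : C.card = c ^ n := by
    rw [Finset.card_image_of_injective _ hext]
    simp
  obtain ⟨y, _, C', hC', hbad, b, hb, hb'⟩ := hκ (Finset.range n) C (by
    intro χ hχ i hi
    obtain ⟨χ', _, rfl⟩ := Finset.mem_image.1 hχ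
    rw [Finset.mem_range] at hi
    simp only [φ, ext, dif_pos hi]
    exact (χ' ⟨i, hi⟩).2)
  have hC'e : C' = ∅ := by
    by_contra hne
    have h1 : 0 < C'.card := Finset.card_pos.2 (Finset.nonempty_iff_ne_empty.2 hne)
    rw [Finset.card_range] at hb'
    have h2 : (a + 1) * n ≤ b + κ := by
      have h3 : (c + 1) * ((a + 1) * n) ≤ (c + 1) * (b + κ) := by
        calc (c + 1) * ((a + 1) * n) = (c + 1) * (a + 1) * n := by ring
          _ ≤ _ := hb'
      exact Nat.le_of_mul_le_mul_left h3 (Nat.succ_pos c)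
    have h3 : a * n ≤ b := by
      have : (a + 1) * n = a * n + n := by ring
      omega
    obtain ⟨e, rfl⟩ := Nat.exists_eq_add_of_le h3
    rw [hCcard, ← hK] at hb
    have h4 : (c * (K - 1) ^ a) ^ n < (K ^ a) ^ n := Nat.pow_lt_pow_left ha (by omega)
    have h5 : (K - 1) ^ e ≤ K ^ e := Nat.pow_le_pow_left (by omega) e
    have h6 : 0 < K ^ e := by positivity
    have h7 : c ^ n * (K - 1) ^ (a * n + e) < K ^ (a * n + e) := by
      calc c ^ n * (K - 1) ^ (a * n + e) = (c * (K - 1) ^ a) ^ n * (K - 1) ^ e := by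
            rw [mul_pow, ← pow_mul, pow_add]
            ring
        _ ≤ (c * (K - 1) ^ a) ^ n * K ^ e := Nat.mul_le_mul_left _ h5
        _ < (K ^ a) ^ n * K ^ e := Nat.mul_lt_mul_of_pos_right h4 h6
        _ = K ^ (a * n + e) := by rw [← pow_mul, pow_add]
    have h8 : K ^ (a * n + e) ≤ C'.card * K ^ (a * n + e) := Nat.le_mul_of_pos_left _ h1
    omega
  refine ⟨n, fun i => y i, fun χ => ?_⟩
  obtain ⟨i, j, ⟨hi, hj, hij, hyij, hno⟩, heq⟩ := hbad (ext χ)
    (Finset.mem_image_of_mem ext (Finset.mem_univ χ)) (by rw [hC'e]; exact Finset.notMem_empty _)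
  rw [Finset.mem_range] at hi hj
  refine ⟨⟨i, hi⟩, ⟨j, hj⟩, hij, hyij, fun k h1 h2 => hno k (Finset.mem_range.2 k.2) h1 h2, ?_⟩
  simp only [φ, ext, dif_pos hi, dif_pos hj] at heq
  exact Fin.ext heq

end Pool.Agent.X60.HasseC
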