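import Mathlib

/-!
# Super edge-magic labelings from vertex labelings with consecutive edge sums
-/

namespace Pool.Agent.X60.SEM

/-- `G` is super edge-magic: there are a bijection `f` from the vertices and edges of `G` onto
`{1, ..., p + q}` that maps the vertices onto `{1, ..., p}`, and a constant `σ` with
`f x + f y + f xy = σ` for every edge `xy`. -/
def SuperEdgeMagic {V : Type*} (G : SimpleGraph V) : Prop :=
  ∃ f : V ⊕ G.edgeSet → ℕ, Function.Injective f ∧
    Set.range f = Set.Icc 1 (Nat.card V + Nat.card G.edgeSet) ∧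
    Set.range (fun v => f (Sum.inl v)) = Set.Icc 1 (Nat.card V) ∧
    ∃ σ, ∀ (x y : V) (hxy : G.Adj x y),
      f (Sum.inl x) + f (Sum.inl y) + f (Sum.inr ⟨s(x, y), hxy⟩) = σ

variable {V ι : Type*} [Finite V] [Finite ι]

/-- sum of the end labels of a pair -/
def esum (g : V → ℕ) : Sym2 V → ℕ := Sym2.lift ⟨fun x y => g x + g y, fun _ _ => add_comm _ _⟩

omit [Finite V] in
theorem esum_mk (g : V → ℕ) (x y : V) : esum g s(x, y) = g x + g y := rfl

/-- Let the edges of `G` be the pairs `a i, b i`, and let `g` be a bijection from the vertices onto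
`{1, ..., p}` such that the sums `g (a i) + g (b i)` are distinct and lie in an interval of `q`
consecutive integers. Then `G` is super edge-magic. -/
theorem sem_of_index (G : SimpleGraph V) (a b : ι → V) (hadj : ∀ i, G.Adj (a i) (b i))
    (hsurj : ∀ x y, G.Adj x y → ∃ i, (x = a i ∧ y = b i) ∨ (x = b i ∧ y = a i))
    (g : V → ℕ) (hg : Function.Injective g) (hg1 : ∀ v, 1 ≤ g v ∧ g v ≤ Nat.card V) (s : ℕ)
    (hT : Function.Injective fun i => g (a i) + g (b i))
    (hTs : ∀ i, s ≤ g (a i) + g (b i) ∧ g (a i) + g (b i) < s + Nat.card ι) :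
    SuperEdgeMagic G := by
  classical
  have := Fintype.ofFinite V
  have := Fintype.ofFinite ι
  let e : ι → G.edgeSet := fun i => ⟨s(a i, b i), hadj i⟩
  have he : Function.Bijective e := by
    constructor
    · intro i j h
      exact hT (congrArg (fun x : G.edgeSet => esum g x.1) h)
    · rintro ⟨x, hx⟩
      induction x using Sym2.ind with
      | _ x y =>
        obtain ⟨i, ⟨rfl, rfl⟩ | ⟨rfl, rfl⟩⟩ := hsurj x y hx
        · exact ⟨i, rfl⟩
        · exact ⟨i, Subtype.ext Sym2.eq_swap⟩
  have hcard : Nat.card G.edgeSet = Nat.card ι := (Nat.card_congr (Equiv.ofBijective e he)).symm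
  let f : V ⊕ G.edgeSet → ℕ
    | Sum.inl v => g v
    | Sum.inr x => Nat.card V + Nat.card ι + s - esum g x.1
  have hfe : ∀ i, f (Sum.inr (e i)) = Nat.card V + Nat.card ι + s - (g (a i) + g (b i)) :=
    fun _ => rfl
  have hinj : Function.Injective f := by
    rintro (x | x) (y | y) h
    · exact congrArg _ (hg h)
    · exfalso
      obtain ⟨i, rfl⟩ := he.2 y
      rw [hfe] at h
      have h' : g x = Nat.card V + Nat.card ι + s - (g (a i) + g (b i)) := h
      have := hTs i
      have := hg1 x
      omega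
    · exfalso
      obtain ⟨i, rfl⟩ := he.2 x
      rw [hfe] at h
      have h' : Nat.card V + Nat.card ι + s - (g (a i) + g (b i)) = g y := h
      have := hTs i
      have := hg1 y
      omega
    · obtain ⟨i, rfl⟩ := he.2 x
      obtain ⟨j, rfl⟩ := he.2 y
      rw [hfe, hfe] at h
      have := hTs i
      have := hTs j
      have : i = j := hT (by dsimp only; omega)
      rw [this]
  have hmem : ∀ x, f x ∈ Finset.Icc 1 (Nat.card V + Nat.card G.edgeSet) := by
    rw [hcard]
    rintro (x | x)
    · have := hg1 x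
      rw [Finset.mem_Icc]
      show 1 ≤ g x ∧ g x ≤ _
      omega
    · obtain ⟨i, rfl⟩ := he.2 x
      rw [hfe, Finset.mem_Icc]
      have := hTs i
      have : 1 ≤ Nat.card V := by
        rw [Nat.one_le_iff_ne_zero, Nat.card_ne_zero]
        exact ⟨⟨a i⟩, inferInstance⟩
      omega
  refine ⟨f, hinj, ?_, ?_, Nat.card V + Nat.card ι + s, ?_⟩
  · have h1 : Set.range f ⊆ (Finset.Icc 1 (Nat.card V + Nat.card G.edgeSet) : Finset ℕ) := by
      rintro _ ⟨x, rfl⟩
      exact hmem x
    rw [← Finset.coe_Icc]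
    apply Set.eq_of_subset_of_ncard_le h1 _ (Finset.finite_toSet _)
    rw [Set.ncard_coe_finset, Nat.card_Icc, ← Set.image_univ,
      Set.ncard_image_of_injective _ hinj, Set.ncard_univ, Nat.card_sum]
    omega
  · have h1 : Set.range g ⊆ (Finset.Icc 1 (Nat.card V) : Finset ℕ) := by
      rintro _ ⟨x, rfl⟩
      exact Finset.mem_coe.2 (Finset.mem_Icc.2 (hg1 x))
    show Set.range g = _
    rw [← Finset.coe_Icc]
    apply Set.eq_of_subset_of_ncard_le h1 _ (Finset.finite_toSet _)
    rw [Set.ncard_coe_finset, Nat.card_Icc, ← Set.image_univ,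
      Set.ncard_image_of_injective _ hg, Set.ncard_univ]
    omega
  · intro x y hxy
    have h1 : f (Sum.inr ⟨s(x, y), hxy⟩) = Nat.card V + Nat.card ι + s - (g x + g y) := rfl
    have h2 : g x + g y < s + Nat.card ι := by
      obtain ⟨i, ⟨rfl, rfl⟩ | ⟨rfl, rfl⟩⟩ := hsurj x y hxy
      · exact (hTs i).2
      · rw [add_comm]; exact (hTs i).2
    rw [h1]
    show g x + g y + _ = _
    omega

end Pool.Agent.X60.SEM
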