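import Mathlib
import Pool.Agent.H238R2.HY.Struct
import Pool.Agent.Results.MP_633d19_co.SmallDegree

/-! Perfect matching covers from partial edge colourings. -/

set_option autoImplicit false

namespace Pool.Agent.X60.PMC

open Finset

/-- The multigraph with vertex set `X` and edge set `D` (edges with all ends in `X`) has `k * r`
perfect matchings which cover every edge exactly `k` times. -/
def HasCover {V E : Type} (k r : ℕ) (ends : E → Sym2 V) (X : Set V) (D : Set E) : Prop :=
  ∃ F : Fin (k * r) → Set E,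
    (∀ i, F i ⊆ D ∧ ∀ v ∈ X, ∃! e, e ∈ F i ∧ v ∈ ends e) ∧
    ∀ e ∈ D, Nat.card {i // e ∈ F i} = k

open Classical in
/-- the colours missing at the cell `h` -/
noncomputable def miss {V E H : Type} (ends : E → Sym2 V) (κ : V → H) {t : ℕ}
    (c : E → Option (Fin t)) (h : H) : Finset (Fin t) :=
  univ.filter fun a => ∀ v, κ v = h → ∀ e, c e = some a → v ∉ ends e

theorem mem_miss {V E H : Type} {ends : E → Sym2 V} {κ : V → H} {t : ℕ}
    {c : E → Option (Fin t)} {h : H} {a : Fin t} :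
    a ∈ miss ends κ c h ↔ ∀ v, κ v = h → ∀ e, c e = some a → v ∉ ends e := by
  classical
  simp [miss]

theorem cover_of_partial {V E H : Type} (ends : E → Sym2 V) (κ : V → H) (k t : ℕ)
    (c : E → Option (Fin t))
    (hp : ∀ e f v a, v ∈ ends e → v ∈ ends f → c e = some a → c f = some a → e = f)
    (hin : ∀ e, c e = none → ∀ u ∈ ends e, ∀ v ∈ ends e, κ u = κ v)
    (hm : ∀ a u v, κ u = κ v → (∃ e, c e = some a ∧ u ∈ ends e) → ∃ e, c e = some a ∧ v ∈ ends e)
    (hcov : ∀ h, HasCover k (miss ends κ c h).card ends {v | κ v = h}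
      {e | c e = none ∧ ∀ v ∈ ends e, κ v = h}) :
    HasCover k t ends Set.univ Set.univ := by
  classical
  choose F hF1 hF2 using hcov
  have hφ : ∀ h, Nonempty ({a // a ∈ miss ends κ c h} × Fin k ≃
      Fin (k * (miss ends κ c h).card)) := by
    intro h
    refine ⟨Fintype.equivFinOfCardEq ?_⟩
    rw [Fintype.card_prod, Fintype.card_coe, Fintype.card_fin, mul_comm]
  have φ : ∀ h, ({a // a ∈ miss ends κ c h} × Fin k ≃ Fin (k * (miss ends κ c h).card)) :=
    fun h => Classical.choice (hφ h)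
  obtain ⟨ψ⟩ : Nonempty (Fin t × Fin k ≃ Fin (k * t)) := by
    refine ⟨Fintype.equivFinOfCardEq ?_⟩
    rw [Fintype.card_prod, Fintype.card_fin, Fintype.card_fin, mul_comm]
  let G : Fin t × Fin k → Set E := fun x => {e | c e = some x.1 ∨
    ∃ (h : H) (ha : x.1 ∈ miss ends κ c h), e ∈ F h (φ h (⟨x.1, ha⟩, x.2))}
  have hFn : ∀ h i e, e ∈ F h i → c e = none ∧ ∀ v ∈ ends e, κ v = h :=
    fun h i e he => (hF1 h i).1 he
  refine ⟨fun i => G (ψ.symm i), ?_, ?_⟩
  · intro i
    obtain ⟨⟨a, j⟩, hx⟩ : ∃ x, x = ψ.symm i := ⟨_, rfl⟩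
    simp only [← hx]
    refine ⟨Set.subset_univ _, fun v _ => ?_⟩
    by_cases ha : a ∈ miss ends κ c (κ v)
    · obtain ⟨e, ⟨he1, he2⟩, he3⟩ := (hF1 (κ v) (φ (κ v) (⟨a, ha⟩, j))).2 v rfl
      refine ⟨e, ⟨Or.inr ⟨κ v, ha, he1⟩, he2⟩, ?_⟩
      rintro e' ⟨he' | ⟨h', ha', he'⟩, hv⟩
      · exact absurd hv (mem_miss.1 ha v rfl e' he')
      · have h1 := (hFn _ _ _ he').2 v hv
        subst h1
        exact he3 e' ⟨he', hv⟩
    · have h1 : ∃ e, c e = some a ∧ v ∈ ends e := by
        rw [mem_miss] at ha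
        push Not at ha
        obtain ⟨v', hv', e, he, hve⟩ := ha
        exact hm a v' v hv' ⟨e, he, hve⟩
      obtain ⟨e, he1, he2⟩ := h1
      refine ⟨e, ⟨Or.inl he1, he2⟩, ?_⟩
      rintro e' ⟨he' | ⟨h', ha', he'⟩, hv⟩
      · exact hp e' e v a hv he2 he' he1
      · have h1 := (hFn _ _ _ he').2 v hv
        subst h1
        exact absurd ha' ha
  · intro e _
    have e1 : Nat.card {i // e ∈ G (ψ.symm i)} = Nat.card {x // e ∈ G x} :=
      Nat.card_congr (ψ.symm.subtypeEquiv fun i => Iff.rfl)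
    rw [e1]
    rcases hc : c e with _ | b
    · obtain ⟨u, hu⟩ : ∃ u, u ∈ ends e := by
        induction h : ends e using Sym2.ind with
        | _ x y => exact ⟨x, by simp⟩
      have he : e ∈ {e | c e = none ∧ ∀ v ∈ ends e, κ v = κ u} :=
        ⟨hc, fun v hv => hin e hc v hv u hu⟩
      refine Eq.trans ?_ (hF2 (κ u) e he)
      symm
      refine Nat.card_congr ?_
      refine Equiv.ofBijective (fun i => ⟨(((φ (κ u)).symm i.1).1.1, ((φ (κ u)).symm i.1).2), ?_⟩)
        ⟨?_, ?_⟩
      · refine Or.inr ⟨κ u, ((φ (κ u)).symm i.1).1.2, ?_⟩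
        have h1 := i.2
        have h2 : φ (κ u) ((φ (κ u)).symm i.1) = i.1 := (φ (κ u)).apply_symm_apply _
        simpa [h2] using h1
      · intro i j hij
        have h1 := congrArg Subtype.val hij
        simp only [Prod.mk.injEq] at h1
        apply Subtype.ext
        apply (φ (κ u)).symm.injective
        exact Prod.ext (Subtype.ext h1.1) h1.2
      · rintro ⟨⟨a, j⟩, hx⟩
        rcases hx with hx | ⟨h, ha, hx⟩
        · rw [hc] at hx
          exact absurd hx (by simp)
        · have h1 := (hFn _ _ _ hx).2 u hu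
          subst h1
          refine ⟨⟨φ (κ u) (⟨a, ha⟩, j), hx⟩, ?_⟩
          apply Subtype.ext
          simp
    · have h1 : ∀ x, e ∈ G x ↔ x.1 = b := by
        intro x
        constructor
        · rintro (h | ⟨h, ha, hx⟩)
          · rw [hc] at h
            exact (Option.some.inj h).symm
          · have := (hFn _ _ _ hx).1
            rw [hc] at this
            exact absurd this (by simp)
        · intro h
          left
          rw [hc, h]
      have h2 : Nat.card {x // e ∈ G x} = Nat.card (Fin k) := by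
        refine Nat.card_congr ?_
        refine Equiv.ofBijective (fun x => x.1.2) ⟨?_, ?_⟩
        · intro x y hxy
          apply Subtype.ext
          exact Prod.ext (((h1 x.1).1 x.2).trans ((h1 y.1).1 y.2).symm) hxy
        · intro j
          exact ⟨⟨(b, j), (h1 _).2 rfl⟩, rfl⟩
      rw [h2, Nat.card_eq_fintype_card, Fintype.card_fin]

/-- The edges between different cells are partitioned into the classes `q`, each of which is a
perfect matching between two different cells (the ends of `q`). -/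
structure Classes {V E H Q : Type} (ends : E → Sym2 V) (κ : V → H) (cls : E → Option Q)
    (qends : Q → Sym2 H) : Prop where
  inner : ∀ e, cls e = none → ∀ u ∈ ends e, ∀ v ∈ ends e, κ u = κ v
  cross : ∀ e q u v, cls e = some q → ends e = s(u, v) → qends q = s(κ u, κ v)
  ne : ∀ q, ¬ (qends q).IsDiag
  match_ : ∀ q v, κ v ∈ qends q → ∃! e, cls e = some q ∧ v ∈ ends e

theorem Classes.mem {V E H Q : Type} {ends : E → Sym2 V} {κ : V → H} {cls : E → Option Q}
    {qends : Q → Sym2 H} (h : Classes ends κ cls qends) {e : E} {q : Q} {u : V}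
    (he : cls e = some q) (hu : u ∈ ends e) : κ u ∈ qends q := by
  obtain ⟨v, hv⟩ := Sym2.mem_iff_exists.1 hu
  rw [h.cross e q u v he hv]
  exact Sym2.mem_mk_left _ _

theorem cover_of_classes {V E H Q : Type} [Finite Q] (ends : E → Sym2 V) (κ : V → H)
    (hsurj : Function.Surjective κ) (cls : E → Option Q) (qends : Q → Sym2 H)
    (hC : Classes ends κ cls qends) (k t : ℕ) (d : Q → Fin t)
    (hd : ∀ q q', q ≠ q' → (∃ h, h ∈ qends q ∧ h ∈ qends q') → d q ≠ d q') (r : H → ℕ)
    (hr : ∀ h, r h + Nat.card {q // h ∈ qends q} = t)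
    (hcov : ∀ h, HasCover k (r h) ends {v | κ v = h}
      {e | cls e = none ∧ ∀ v ∈ ends e, κ v = h}) :
    HasCover k t ends Set.univ Set.univ := by
  classical
  obtain ⟨c, hc⟩ : ∃ c : E → Option (Fin t), ∀ e, c e = (cls e).map d := ⟨_, fun _ => rfl⟩
  have hnone : ∀ e, c e = none ↔ cls e = none := fun e => by rw [hc, Option.map_eq_none_iff]
  have hsome : ∀ e a, c e = some a ↔ ∃ q, cls e = some q ∧ d q = a := fun e a => by
    rw [hc, Option.map_eq_some_iff]
  have hmiss : ∀ h, (miss ends κ c h).card = r h := by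
    intro h
    have := Fintype.ofFinite {q // h ∈ qends q}
    have h1 : (miss ends κ c h) = univ \ (univ.image fun q : {q // h ∈ qends q} => d q.1) := by
      ext a
      rw [mem_miss, Finset.mem_sdiff]
      simp only [mem_univ, true_and, Finset.mem_image, not_exists]
      constructor
      · rintro h2 ⟨q, hq⟩ rfl
        obtain ⟨v, rfl⟩ := hsurj h
        obtain ⟨e, ⟨he1, he2⟩, -⟩ := hC.match_ q v hq
        exact h2 v rfl e ((hsome e _).2 ⟨q, he1, rfl⟩) he2
      · intro h2 v hv e he hve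
        obtain ⟨q, hq1, hq2⟩ := (hsome e a).1 he
        exact h2 ⟨q, hv ▸ hC.mem hq1 hve⟩ hq2
    rw [h1, Finset.card_sdiff_of_subset (Finset.subset_univ _), Finset.card_image_of_injective]
    · have := hr h
      rw [Finset.card_univ, Finset.card_univ, Fintype.card_fin, ← Nat.card_eq_fintype_card]
      omega
    · intro q q' hqq
      by_contra hne
      exact hd q.1 q'.1 (fun h' => hne (Subtype.ext h')) ⟨h, q.2, q'.2⟩ hqq
  refine cover_of_partial ends κ k t c ?_ ?_ ?_ ?_
  · intro e f v a he hf h1 h2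
    obtain ⟨q, hq1, hq2⟩ := (hsome e a).1 h1
    obtain ⟨q', hq1', hq2'⟩ := (hsome f a).1 h2
    have h3 : q = q' := by
      by_contra hne
      exact hd q q' hne ⟨κ v, hC.mem hq1 he, hC.mem hq1' hf⟩ (hq2.trans hq2'.symm)
    subst h3
    exact (hC.match_ q v (hC.mem hq1 he)).unique ⟨hq1, he⟩ ⟨hq1', hf⟩
  · intro e he
    exact hC.inner e ((hnone e).1 he)
  · rintro a u v huv ⟨e, he, hu⟩
    obtain ⟨q, hq1, hq2⟩ := (hsome e a).1 he
    obtain ⟨f, ⟨hf1, hf2⟩, -⟩ := hC.match_ q v (huv ▸ hC.mem hq1 hu)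
    exact ⟨f, (hsome f a).2 ⟨q, hf1, hq2⟩, hf2⟩
  · intro h
    rw [hmiss]
    have h1 : {e | c e = none ∧ ∀ v ∈ ends e, κ v = h} =
        {e | cls e = none ∧ ∀ v ∈ ends e, κ v = h} := by
      ext e
      simp only [Set.mem_ofPred_eq, hnone]
    rw [h1]
    exact hcov h

/-- two different cells are adjacent if there is an edge between them -/
def cellGraph {V E H : Type} (ends : E → Sym2 V) (κ : V → H) : SimpleGraph H where
  Adj h h' := h ≠ h' ∧ ∃ e u v, ends e = s(u, v) ∧ κ u = h ∧ κ v = h'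
  symm := ⟨fun h h' ⟨h1, e, u, v, h2, h3, h4⟩ =>
    ⟨h1.symm, e, v, u, by rw [h2, Sym2.eq_swap], h4, h3⟩⟩
  loopless := ⟨fun _ h => h.1 rfl⟩

theorem cover_of_simple {V E H : Type} [Finite H] [Nonempty V] (ends : E → Sym2 V) (κ : V → H)
    (hsurj : Function.Surjective κ)
    (hPM : ∀ u h, (cellGraph ends κ).Adj (κ u) h → ∃! e, ∃ v, ends e = s(u, v) ∧ κ v = h)
    (k t : ℕ) (r : H → ℕ) (hr1 : ∀ h, 1 ≤ r h)
    (hr : ∀ h, r h + Nat.card {h' // (cellGraph ends κ).Adj h h'} = t)
    (hcov : ∀ h, HasCover k (r h) ends {v | κ v = h} {e | ∀ v ∈ ends e, κ v = h}) :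
    HasCover k t ends Set.univ Set.univ := by
  classical
  have := Fintype.ofFinite H
  obtain ⟨Γ, hΓ⟩ : ∃ Γ, Γ = cellGraph ends κ := ⟨_, rfl⟩
  rw [← hΓ] at hPM hr
  have hadj : ∀ e u v, ends e = s(u, v) → κ u ≠ κ v → Γ.Adj (κ u) (κ v) := by
    intro e u v he hne
    rw [hΓ]
    exact ⟨hne, e, u, v, he, rfl, rfl⟩
  have hdeg : ∀ h, Γ.degree h = Nat.card {h' // Γ.Adj h h'} := by
    intro h
    rw [← SimpleGraph.card_neighborSet_eq_degree, ← Nat.card_eq_fintype_card]
    rfl
  have ht : 1 ≤ t := by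
    obtain ⟨v⟩ := ‹Nonempty V›
    have h1 := hr1 (κ v)
    have h2 := hr (κ v)
    omega
  obtain ⟨c, hc1, hc2, hc3⟩ := Pool.Agent.H238R2.HY.vizing Γ (t - 1) (fun h => by
    rw [hdeg]
    have h1 := hr1 h
    have h2 := hr h
    omega)
  let Q := Γ.edgeSet
  let qends : Q → Sym2 H := Subtype.val
  have hm : ∀ e, ¬ (Sym2.map κ (ends e)).IsDiag → Sym2.map κ (ends e) ∈ Γ.edgeSet := by
    intro e
    induction h : ends e using Sym2.ind with
    | _ u v =>
      rw [Sym2.map_mk]
      intro h1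
      exact hadj e u v h h1
  let cls : E → Option Q := fun e =>
    if h : (Sym2.map κ (ends e)).IsDiag then none else some ⟨Sym2.map κ (ends e), hm e h⟩
  have hQ : ∀ q : Q, ¬ q.1.IsDiag := fun q => Γ.not_isDiag_of_mem_edgeSet q.2
  have hcls : ∀ e (q : Q), cls e = some q ↔ Sym2.map κ (ends e) = q.1 := by
    intro e q
    by_cases h : (Sym2.map κ (ends e)).IsDiag
    · constructor
      · intro h1
        simp only [cls] at h1
        rw [dif_pos h] at h1
        exact absurd h1 (by simp)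
      · intro h1
        rw [h1] at h
        exact absurd h (hQ q)
    · simp only [cls]
      rw [dif_neg h, Option.some_inj, Subtype.ext_iff]
  have hnone : ∀ e, cls e = none ↔ (Sym2.map κ (ends e)).IsDiag := by
    intro e
    by_cases h : (Sym2.map κ (ends e)).IsDiag
    · simp only [cls]
      rw [dif_pos h]
      exact ⟨fun _ => h, fun _ => rfl⟩
    · simp only [cls]
      rw [dif_neg h]
      exact ⟨fun h' => absurd h' (by simp), fun h' => absurd h' h⟩
  let d : Q → Fin t := fun q => ⟨Sym2.lift ⟨c, hc1⟩ q.1, by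
    obtain ⟨q, hq⟩ := q
    induction q using Sym2.ind with
    | _ x y =>
      rw [Sym2.lift_mk]
      have := hc2 x y hq
      show c x y < t
      omega⟩
  have hinner : ∀ e, cls e = none ↔ ∀ u ∈ ends e, ∀ v ∈ ends e, κ u = κ v := by
    intro e
    rw [hnone]
    induction h : ends e using Sym2.ind with
    | _ u v =>
      rw [Sym2.map_mk, Sym2.mk_isDiag_iff]
      constructor
      · intro h1 x hx y hy
        rw [Sym2.mem_iff] at hx hy
        rcases hx with rfl | rfl <;> rcases hy with rfl | rfl <;> simp [h1]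
      · intro h1
        exact h1 u (Sym2.mem_mk_left _ _) v (Sym2.mem_mk_right _ _)
  refine cover_of_classes ends κ hsurj cls qends ⟨?_, ?_, hQ, ?_⟩ k t d ?_ r ?_ ?_
  · intro e he
    exact (hinner e).1 he
  · intro e q u v h1 h2
    rw [hcls, h2, Sym2.map_mk] at h1
    exact h1.symm
  · intro q v hv
    obtain ⟨h', hh'⟩ := Sym2.mem_iff_exists.1 hv
    have hA : Γ.Adj (κ v) h' := by
      have := q.2
      change (qends q) ∈ Γ.edgeSet at this
      rw [hh'] at this
      exact this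
    obtain ⟨e, ⟨w, he, hw⟩, huniq⟩ := hPM v h' hA
    refine ⟨e, ⟨?_, ?_⟩, ?_⟩
    · rw [hcls, he, Sym2.map_mk, hw]
      exact hh'.symm
    · rw [he]
      exact Sym2.mem_mk_left _ _
    · rintro f ⟨hf1, hf2⟩
      obtain ⟨w', hw'⟩ := Sym2.mem_iff_exists.1 hf2
      refine huniq f ⟨w', hw', ?_⟩
      rw [hcls, hw', Sym2.map_mk] at hf1
      change _ = qends q at hf1
      rw [hh'] at hf1
      exact Sym2.congr_right.1 hf1
  · rintro ⟨q, hq⟩ ⟨q', hq'⟩ hne ⟨h, h1, h2⟩
    change h ∈ q at h1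
    change h ∈ q' at h2
    obtain ⟨x, rfl⟩ := Sym2.mem_iff_exists.1 h1
    obtain ⟨y, rfl⟩ := Sym2.mem_iff_exists.1 h2
    intro h3
    have h4 : c h x = c h y := congrArg Fin.val h3
    refine hc3 h x y hq hq' ?_ h4
    rintro rfl
    exact hne rfl
  · intro h
    have h1 : Nat.card {q : Q // h ∈ qends q} = Γ.degree h := by
      rw [← SimpleGraph.card_incidenceSet_eq_degree, ← Nat.card_eq_fintype_card]
      refine Nat.card_congr ⟨fun q => ⟨q.1.1, q.1.2, q.2⟩, fun q => ⟨⟨q.1, q.2.1⟩, q.2.2⟩,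
        fun _ => rfl, fun _ => rfl⟩
    rw [h1, hdeg]
    exact hr h
  · intro h
    have h1 : {e | cls e = none ∧ ∀ v ∈ ends e, κ v = h} = {e | ∀ v ∈ ends e, κ v = h} := by
      ext e
      simp only [Set.mem_ofPred_eq]
      constructor
      · exact fun h => h.2
      · intro h2
        exact ⟨(hinner e).2 fun u hu v hv => (h2 u hu).trans (h2 v hv).symm, h2⟩
    rw [h1]
    exact hcov h

open Pool.Agent.Results.MP_633d19_co.SmallDegree in
/-- Colouring of the quotient by Goldberg's theorem (`p = 1`: Shannon's bound). -/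
theorem colour_quotient {H Q : Type} [Finite H] [Finite Q] (qends : Q → Sym2 H)
    (hne : ∀ q, ¬ (qends q).IsDiag) (t r p : ℕ) (hr : 1 ≤ r) (hrt : r ≤ t)
    (hdeg : ∀ h, Nat.card {q // h ∈ qends q} + r ≤ t) (hp : t ≤ (2 * p + 1) * r + 1)
    (hcyc : ∀ l, 3 ≤ l → l % 2 = 1 → (∃ v : ℕ → H, (∀ i < l, ∀ j < l, v i = v j → i = j) ∧
      ∀ i < l, ∃ q, qends q = s(v i, v ((i + 1) % l))) → 2 * p + 1 ≤ l) :
    ∃ d : Q → Fin t, ∀ q q', q ≠ q' → (∃ h, h ∈ qends q ∧ h ∈ qends q') → d q ≠ d q' := by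
  let M : MGraph H Q := ⟨qends, hne⟩
  refine MGraph.goldberg (V := H) (Δ := t - r) (p := p) (k := t) (by omega) ?_ (Nat.card Q) Q M rfl
    (fun h => ?_) hcyc
  · have h1 : t - (t - r) = r := by omega
    rw [h1]
    have h2 : (2 * p + 1) * r = 2 * p * r + r := by ring
    omega
  · have := hdeg h
    show Nat.card {q // h ∈ qends q} ≤ t - r
    omega

end Pool.Agent.X60.PMC
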