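import Mathlib

/-!
# Parameter words: the Graham–Rothschild theorem

A parameter word over the alphabet `α` with `m` parameters is a map `U : Fin n → α ⊕ Fin m`.
It is rigid if all parameters occur and the first occurrences are in increasing order.
-/

set_option autoImplicit false

namespace Pool.Agent.X60.GRk

/-- Substitution of `y` for the parameters of `U`. -/
def sub {n m : ℕ} {α β : Type} (U : Fin n → α ⊕ Fin m) (y : Fin m → α ⊕ β) : Fin n → α ⊕ β :=
  fun p => Sum.elim Sum.inl y (U p)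

/-- All parameters occur, and the first occurrences are in increasing order. -/
def Rig {n m : ℕ} {α : Type} (U : Fin n → α ⊕ Fin m) : Prop :=
  (∀ j, ∃ p, U p = Sum.inr j) ∧
    ∀ j j' : Fin m, j < j' → ∀ p, U p = Sum.inr j' → ∃ p' < p, U p' = Sum.inr j

lemma sub_inl {n m : ℕ} {α β : Type} {U : Fin n → α ⊕ Fin m} (y : Fin m → α ⊕ β) {p : Fin n}
    {a : α} (h : U p = Sum.inl a) : sub U y p = Sum.inl a := by
  simp [sub, h]

lemma sub_inr {n m : ℕ} {α β : Type} {U : Fin n → α ⊕ Fin m} (y : Fin m → α ⊕ β) {p : Fin n}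
    {j : Fin m} (h : U p = Sum.inr j) : sub U y p = y j := by
  simp [sub, h]

lemma sub_eq_inr {n m : ℕ} {α β : Type} {U : Fin n → α ⊕ Fin m} {y : Fin m → α ⊕ β} {p : Fin n}
    {b : β} (h : sub U y p = Sum.inr b) : ∃ j, U p = Sum.inr j ∧ y j = Sum.inr b := by
  rcases hU : U p with a | j
  · rw [sub_inl y hU] at h
    exact absurd h (by simp)
  · rw [sub_inr y hU] at h
    exact ⟨j, rfl, h⟩

lemma sub_sub {n m k : ℕ} {α β : Type} (U : Fin n → α ⊕ Fin m) (V : Fin m → α ⊕ Fin k)
    (y : Fin k → α ⊕ β) : sub (sub U V) y = sub U (sub V y) := by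
  funext p
  rcases hU : U p with a | j
  · rw [sub_inl _ hU, sub_inl _ (sub_inl V hU)]
  · rw [sub_inr _ hU]
    rcases hV : V j with a | i
    · rw [sub_inl (a := a), sub_inl _ hV]
      rw [sub_inr V hU, hV]
    · rw [sub_inr (j := i), sub_inr _ hV]
      rw [sub_inr V hU, hV]

lemma Rig.sub {n m k : ℕ} {α : Type} {U : Fin n → α ⊕ Fin m} {y : Fin m → α ⊕ Fin k}
    (hU : Rig U) (hy : Rig y) : Rig (sub U y) := by
  constructor
  · intro j
    obtain ⟨q, hq⟩ := hy.1 j
    obtain ⟨p, hp⟩ := hU.1 q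
    exact ⟨p, by rw [sub_inr _ hp, hq]⟩
  · intro j j' hjj p hp
    obtain ⟨q, hq, hyq⟩ := sub_eq_inr hp
    obtain ⟨q', hq', hyq'⟩ := hy.2 j j' hjj q hyq
    obtain ⟨p', hp', hUp'⟩ := hU.2 q' q hq' p hq
    exact ⟨p', hp', by rw [sub_inr _ hUp', hyq']⟩

/-- The Hales–Jewett theorem for lines. -/
lemma hj (α κ : Type) [Finite α] [Finite κ] : ∃ n : ℕ, ∀ C : (Fin n → α) → κ,
    ∃ L : Fin n → α ⊕ Fin 1, (∃ p, L p = Sum.inr 0) ∧
      ∃ γ, ∀ a : α, C (fun p => Sum.elim id (fun _ => a) (L p)) = γ := by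
  obtain ⟨n, hn⟩ := Combinatorics.Subspace.exists_mono_in_high_dimension_fin α κ (Fin 1)
  refine ⟨n, fun C => ?_⟩
  obtain ⟨l, γ, hc⟩ := hn C
  refine ⟨l.idxFun, l.proper 0, γ, fun a => ?_⟩
  exact hc (fun _ => a)

/-- A line followed by a parameter word. -/
def app {n m M : ℕ} {α : Type} (L : Fin n → α ⊕ Fin 1) (U : Fin M → α ⊕ Fin m) :
    Fin (n + M) → α ⊕ Fin (m + 1) :=
  Fin.append (fun p => Sum.map id (fun _ => 0) (L p)) (fun q => Sum.map id Fin.succ (U q))

lemma app_rig {n m M : ℕ} {α : Type} {L : Fin n → α ⊕ Fin 1} {U : Fin M → α ⊕ Fin m}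
    (hL : ∃ p, L p = Sum.inr 0) (hU : Rig U) : Rig (app L U) := by
  obtain ⟨p0, hp0⟩ := hL
  constructor
  · intro j
    refine Fin.cases ?_ (fun j => ?_) j
    · exact ⟨Fin.castAdd M p0, by simp [app, Fin.append_left, hp0]⟩
    · obtain ⟨q, hq⟩ := hU.1 j
      exact ⟨Fin.natAdd n q, by simp [app, Fin.append_right, hq]⟩
  · intro j j' hjj p
    refine Fin.addCases (fun p => ?_) (fun q => ?_) p
    · intro hp
      exfalso
      rw [app, Fin.append_left] at hp
      rcases hL : L p with a | i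
      · rw [hL] at hp
        simp at hp
      · rw [hL] at hp
        simp at hp
        rw [← hp] at hjj
        exact absurd hjj (by simp)
    · intro hp
      rw [app, Fin.append_right] at hp
      rcases hUq : U q with a | i
      · rw [hUq] at hp
        simp at hp
      · rw [hUq] at hp
        simp only [Sum.map_inr, Sum.inr.injEq] at hp
        subst hp
        revert hjj
        refine Fin.cases ?_ (fun j => ?_) j
        · intro _
          refine ⟨Fin.castAdd M p0, ?_, by simp [app, Fin.append_left, hp0]⟩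
          rw [Fin.lt_def]
          simp only [Fin.val_castAdd, Fin.val_natAdd]
          omega
        · intro hjj
          obtain ⟨q', hq', hUq'⟩ := hU.2 j i (Fin.succ_lt_succ_iff.1 hjj) q hUq
          refine ⟨Fin.natAdd n q', ?_, by simp [app, Fin.append_right, hUq']⟩
          rw [Fin.lt_def] at hq' ⊢
          simp only [Fin.val_natAdd]
          omega

lemma sub_app {n m M : ℕ} {α β : Type} (L : Fin n → α ⊕ Fin 1) (U : Fin M → α ⊕ Fin m)
    (y : Fin (m + 1) → α ⊕ β) : sub (app L U) y =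
      Fin.append (fun p => Sum.elim Sum.inl (fun _ => y 0) (L p)) (sub U (fun j => y j.succ)) := by
  funext p
  refine Fin.addCases (fun p => ?_) (fun q => ?_) p
  · rw [Fin.append_left]
    rcases hL : L p with a | i <;> simp [sub, app, Fin.append_left, hL]
  · rw [Fin.append_right]
    rcases hUq : U q with a | i <;> simp [sub, app, Fin.append_right, hUq]

/-- The statement of the theorem for `k` parameters. -/
def GRS (k : ℕ) : Prop := ∀ (α κ : Type) [Finite α] [Nonempty α] [Finite κ] (m : ℕ), ∃ M : ℕ,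
  ∀ c : (Fin M → α ⊕ Fin k) → κ, ∃ U : Fin M → α ⊕ Fin m, Rig U ∧
    ∃ γ, ∀ y : Fin m → α ⊕ Fin k, Rig y → c (sub U y) = γ

lemma gr_zero : GRS 0 := by
  intro α κ _ _ _ m
  induction m with
  | zero =>
    refine ⟨0, fun c => ⟨fun i => i.elim0, ⟨fun j => j.elim0, fun j => j.elim0⟩,
      c (fun i => i.elim0), fun y _ => ?_⟩⟩
    congr 1
    funext i
    exact i.elim0
  | succ m ih =>
    obtain ⟨M, hM⟩ := ih
    obtain ⟨n, hn⟩ := hj α ((Fin M → α ⊕ Fin 0) → κ)
    refine ⟨n + M, fun c => ?_⟩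
    obtain ⟨L, hL, C₀, hC⟩ := hn (fun x v => c (Fin.append (fun p => Sum.inl (x p)) v))
    obtain ⟨U, hU, γ, hγ⟩ := hM C₀
    refine ⟨app L U, app_rig hL hU, γ, fun y _ => ?_⟩
    rw [sub_app]
    rcases hy0 : y 0 with a | i
    · have h1 := congrFun (hC a) (sub U (fun j => y j.succ))
      simp only at h1
      rw [← hγ (fun j => y j.succ) ⟨fun j => j.elim0, fun j => j.elim0⟩, ← h1]
      congr 1
      congr 1
      funext p
      rcases L p with b | i <;> rfl
    · exact i.elim0

section step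

variable {k : ℕ} {α : Type}

/-- From words over `α ∪ {∗}` with `k` parameters to words over `α` with `k + 1` parameters. -/
def conv : Option α ⊕ Fin k → α ⊕ Fin (k + 1) := fun o => match o with
  | Sum.inl none => Sum.inr 0
  | Sum.inl (some a) => Sum.inl a
  | Sum.inr j => Sum.inr j.succ

/-- The inverse. -/
def dec : α ⊕ Fin (k + 1) → Option α ⊕ Fin k := fun o => match o with
  | Sum.inl a => Sum.inl (some a)
  | Sum.inr j => Fin.cases (Sum.inl none) (fun j => Sum.inr j) j

lemma conv_dec (o : α ⊕ Fin (k + 1)) : conv (dec o) = o := by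
  rcases o with a | j
  · rfl
  · refine Fin.cases ?_ (fun j => ?_) j <;> rfl

/-- The colour depends on the word up to its first parameter. -/
def Sd {κ : Type} {m : ℕ} (c : (Fin m → α ⊕ Fin (k + 1)) → κ) : Prop :=
  ∀ (j : Fin m) (y y' : Fin m → α ⊕ Fin (k + 1)), Rig y → Rig y' →
    y j = Sum.inr 0 → y' j = Sum.inr 0 →
    (∀ i < j, y i = y' i ∧ ∃ a, y i = Sum.inl a) → c y = c y'

/-- Deleting a first letter. -/
lemma rig_tail {m : ℕ} {y : Fin (m + 1) → α ⊕ Fin k} {a : α} (hy : Rig y)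
    (h0 : y 0 = Sum.inl a) : Rig (fun j => y j.succ) := by
  constructor
  · intro j
    obtain ⟨p, hp⟩ := hy.1 j
    revert hp
    refine Fin.cases ?_ (fun p => ?_) p
    · intro hp
      rw [h0] at hp
      exact absurd hp (by simp)
    · intro hp
      exact ⟨p, hp⟩
  · intro j j' hjj p hp
    obtain ⟨p', hp', h'⟩ := hy.2 j j' hjj p.succ hp
    revert hp' h'
    refine Fin.cases ?_ (fun p' => ?_) p'
    · intro _ hp
      rw [h0] at hp
      exact absurd hp (by simp)
    · intro hp' h'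
      exact ⟨p', Fin.succ_lt_succ_iff.1 hp', h'⟩

lemma rig_dec {m : ℕ} {y : Fin (m + 1) → α ⊕ Fin (k + 1)} (hy : Rig y)
    (h0 : y 0 = Sum.inr 0) : Rig (fun j => dec (y j.succ)) := by
  have key : ∀ (p : Fin m) (j : Fin k), dec (y p.succ) = Sum.inr j → y p.succ = Sum.inr j.succ := by
    intro p j h
    have h1 := congrArg conv h
    rwa [conv_dec] at h1
  constructor
  · intro j
    obtain ⟨p, hp⟩ := hy.1 j.succ
    revert hp
    refine Fin.cases ?_ (fun p => ?_) p
    · intro hp
      rw [h0] at hp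
      exact absurd (Sum.inr.inj hp) (Fin.succ_ne_zero j).symm
    · intro hp
      exact ⟨p, by simp only [hp]; rfl⟩
  · intro j j' hjj p hp
    obtain ⟨p', hp', h'⟩ := hy.2 j.succ j'.succ (Fin.succ_lt_succ_iff.2 hjj) p.succ (key p j' hp)
    revert hp' h'
    refine Fin.cases ?_ (fun p' => ?_) p'
    · intro _ hp
      rw [h0] at hp
      exact absurd (Sum.inr.inj hp) (Fin.succ_ne_zero j).symm
    · intro hp' h'
      exact ⟨p', Fin.succ_lt_succ_iff.1 hp', by simp only [h']; rfl⟩

/-- Starting with the first parameter. -/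
def hd {n M : ℕ} (W : Fin n → Option α ⊕ Fin M) : Fin (n + 1) → α ⊕ Fin (M + 1) :=
  Fin.cons (Sum.inr 0) (fun p => conv (W p))

lemma hd_rig {n M : ℕ} {W : Fin n → Option α ⊕ Fin M} (hW : Rig W) : Rig (hd W) := by
  constructor
  · intro j
    refine Fin.cases ?_ (fun j => ?_) j
    · exact ⟨0, rfl⟩
    · obtain ⟨p, hp⟩ := hW.1 j
      exact ⟨p.succ, by simp [hd, hp, conv]⟩
  · intro j j' hjj p
    refine Fin.cases ?_ (fun p => ?_) p
    · intro hp
      exfalso
      have hp' : (0 : Fin (M + 1)) = j' := Sum.inr.inj hp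
      rw [← hp'] at hjj
      exact absurd hjj (by simp)
    · intro hp
      have hp1 : conv (W p) = Sum.inr j' := hp
      rcases hWp : W p with o | i
      · rcases o with _ | b
        · rw [hWp] at hp1
          have hp' : (0 : Fin (M + 1)) = j' := Sum.inr.inj hp1
          rw [← hp'] at hjj
          exact absurd hjj (by simp)
        · rw [hWp] at hp1
          exact absurd hp1 (by simp [conv])
      · rw [hWp] at hp1
        have hp' : i.succ = j' := Sum.inr.inj hp1
        subst hp'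
        revert hjj
        refine Fin.cases ?_ (fun j => ?_) j
        · intro _
          exact ⟨0, Fin.succ_pos p, rfl⟩
        · intro hjj
          obtain ⟨p', hp', h'⟩ := hW.2 j i (Fin.succ_lt_succ_iff.1 hjj) p hWp
          exact ⟨p'.succ, Fin.succ_lt_succ_iff.2 hp', by simp [hd, h', conv]⟩

lemma sub_hd {n M : ℕ} (W : Fin n → Option α ⊕ Fin M) (y : Fin (M + 1) → α ⊕ Fin (k + 1))
    (h0 : y 0 = Sum.inr 0) :
    sub (hd W) y = Fin.cons (Sum.inr 0) (fun p => conv (sub W (fun j => dec (y j.succ)) p)) := by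
  funext p
  refine Fin.cases ?_ (fun p => ?_) p
  · have h1 : hd W 0 = Sum.inr 0 := rfl
    rw [sub_inr (U := hd W) y h1, h0]
    rfl
  · rw [Fin.cons_succ]
    rcases hWp : W p with o | i
    · rcases o with _ | b
      · rw [sub_inl _ hWp, sub_inr (j := 0), h0]
        · rfl
        · simp [hd, hWp, conv]
      · rw [sub_inl _ hWp, sub_inl (a := b)]
        · rfl
        · simp [hd, hWp, conv]
    · rw [sub_inr _ hWp, sub_inr (j := i.succ), conv_dec]
      simp [hd, hWp, conv]

/-- Parameter zero, followed by a parameter word. -/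
def cs {M m : ℕ} (U : Fin M → α ⊕ Fin m) : Fin (M + 1) → α ⊕ Fin (m + 1) :=
  Fin.cons (Sum.inr 0) (fun q => Sum.map id Fin.succ (U q))

lemma cs_rig {M m : ℕ} {U : Fin M → α ⊕ Fin m} (hU : Rig U) : Rig (cs U) := by
  constructor
  · intro j
    refine Fin.cases ?_ (fun j => ?_) j
    · exact ⟨0, rfl⟩
    · obtain ⟨p, hp⟩ := hU.1 j
      exact ⟨p.succ, by simp [cs, hp]⟩
  · intro j j' hjj p
    refine Fin.cases ?_ (fun p => ?_) p
    · intro hp
      exfalso
      have hp' : (0 : Fin (m + 1)) = j' := Sum.inr.inj hp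
      rw [← hp'] at hjj
      exact absurd hjj (by simp)
    · intro hp
      have hp1 : Sum.map id Fin.succ (U p) = Sum.inr j' := hp
      rcases hUp : U p with a | i
      · rw [hUp] at hp1
        exact absurd hp1 (by simp)
      · rw [hUp] at hp1
        have hp' : i.succ = j' := Sum.inr.inj hp1
        subst hp'
        revert hjj
        refine Fin.cases ?_ (fun j => ?_) j
        · intro _
          exact ⟨0, Fin.succ_pos p, rfl⟩
        · intro hjj
          obtain ⟨p', hp', h'⟩ := hU.2 j i (Fin.succ_lt_succ_iff.1 hjj) p hUp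
          exact ⟨p'.succ, Fin.succ_lt_succ_iff.2 hp', by simp [cs, h']⟩

lemma sub_cs {M m : ℕ} {β : Type} (U : Fin M → α ⊕ Fin m) (y : Fin (m + 1) → α ⊕ β) :
    sub (cs U) y = Fin.cons (y 0) (sub U (fun j => y j.succ)) := by
  funext p
  refine Fin.cases ?_ (fun p => ?_) p
  · rfl
  · rw [Fin.cons_succ]
    rcases hUp : U p with a | i <;> simp [sub, cs, hUp]

theorem s_lem [Finite α] (ih : GRS k) : ∀ (m : ℕ) (κ : Type) [Finite κ], ∃ M : ℕ,
    ∀ c : (Fin M → α ⊕ Fin (k + 1)) → κ, ∃ U : Fin M → α ⊕ Fin m, Rig U ∧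
      Sd (fun y => c (sub U y)) := by
  intro m
  induction m with
  | zero =>
    intro κ _
    exact ⟨0, fun c => ⟨fun i => i.elim0, ⟨fun j => j.elim0, fun j => j.elim0⟩, fun j => j.elim0⟩⟩
  | succ m ihm =>
    intro κ _
    obtain ⟨M, hM⟩ := ihm (α → κ)
    obtain ⟨n, hn⟩ := ih (Option α) κ M
    refine ⟨n + 1, fun c => ?_⟩
    obtain ⟨W, hW, γ, hγ⟩ := hn (fun w => c (Fin.cons (Sum.inr 0) (fun p => conv (w p))))
    obtain ⟨U₂, hU₂, hS⟩ := hM (fun y a => c (sub (hd W) (Fin.cons (Sum.inl a) y)))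
    refine ⟨sub (hd W) (cs U₂), (hd_rig hW).sub (cs_rig hU₂), ?_⟩
    intro j y y' hy hy' hj hj' hpre
    simp only
    rw [sub_sub, sub_sub]
    revert hj hj' hpre
    refine Fin.cases ?_ (fun j => ?_) j
    · intro hj hj' _
      have key : ∀ y : Fin (m + 1) → α ⊕ Fin (k + 1), Rig y → y 0 = Sum.inr 0 →
          c (sub (hd W) (sub (cs U₂) y)) = γ := by
        intro y hy h0
        have h1 : Rig (sub (cs U₂) y) := (cs_rig hU₂).sub hy
        have h2 : sub (cs U₂) y 0 = Sum.inr 0 := by rw [sub_cs, Fin.cons_zero, h0]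
        rw [sub_hd W _ h2]
        exact hγ _ (rig_dec h1 h2)
      rw [key y hy hj, key y' hy' hj']
    · intro hj hj' hpre
      obtain ⟨h0, a, ha⟩ := hpre 0 (Fin.succ_pos j)
      have ha' : y' 0 = Sum.inl a := by rw [← h0, ha]
      rw [sub_cs, sub_cs, ha, ha']
      have h := hS j (fun i => y i.succ) (fun i => y' i.succ) (rig_tail hy ha) (rig_tail hy' ha')
        hj hj' (fun i hi => hpre i.succ (Fin.succ_lt_succ_iff.2 hi))
      exact congrFun h a

/-- The first parameter of a rigid word with at least one parameter. -/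
lemma first {m : ℕ} {y : Fin m → α ⊕ Fin (k + 1)} (hy : Rig y) :
    ∃ j, y j = Sum.inr 0 ∧ ∀ i < j, ∃ a, y i = Sum.inl a := by
  classical
  obtain ⟨p, hp⟩ := hy.1 0
  have hex : ∃ n, ∃ h : n < m, y ⟨n, h⟩ = Sum.inr 0 := ⟨p, p.2, hp⟩
  obtain ⟨hlt, hq⟩ := Nat.find_spec hex
  refine ⟨⟨Nat.find hex, hlt⟩, hq, fun i hi => ?_⟩
  rcases hyi : y i with a | j
  · exact ⟨a, rfl⟩
  · exfalso
    have hmin : ∀ i' : Fin m, i' < ⟨Nat.find hex, hlt⟩ → y i' ≠ Sum.inr 0 := by
      intro i' hi' h
      exact Nat.find_min hex (Fin.lt_def.1 hi') ⟨i'.2, h⟩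
    rcases Fin.eq_zero_or_eq_succ j with rfl | ⟨j', rfl⟩
    · exact hmin i hi hyi
    · obtain ⟨i', hi', h'⟩ := hy.2 0 j'.succ (Fin.succ_pos j') i hyi
      exact hmin i' (lt_trans hi' hi) h'

lemma rig_append {n m : ℕ} {x : Fin n → α} {v : Fin m → α ⊕ Fin k} (hv : Rig v) :
    Rig (Fin.append (fun p => (Sum.inl (x p) : α ⊕ Fin k)) v) := by
  constructor
  · intro j
    obtain ⟨q, hq⟩ := hv.1 j
    exact ⟨Fin.natAdd n q, by rw [Fin.append_right, hq]⟩
  · intro j j' hjj p
    refine Fin.addCases (fun p => ?_) (fun q => ?_) p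
    · intro hp
      rw [Fin.append_left] at hp
      exact absurd hp (by simp)
    · intro hp
      rw [Fin.append_right] at hp
      obtain ⟨q', hq', h'⟩ := hv.2 j j' hjj q hp
      refine ⟨Fin.natAdd n q', ?_, by rw [Fin.append_right, h']⟩
      rw [Fin.lt_def] at hq' ⊢
      simp only [Fin.val_natAdd]
      omega

theorem p_lem [Finite α] [Nonempty α] : ∀ (m : ℕ) (κ : Type) [Finite κ], ∃ M : ℕ,
    ∀ c : (Fin M → α ⊕ Fin (k + 1)) → κ, Sd c → ∃ U : Fin M → α ⊕ Fin m, Rig U ∧
      ∃ h : Fin m → κ, ∀ (j : Fin m) (y : Fin m → α ⊕ Fin (k + 1)), Rig y → y j = Sum.inr 0 →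
        (∀ i < j, ∃ a, y i = Sum.inl a) → c (sub U y) = h j := by
  classical
  intro m
  induction m with
  | zero =>
    intro κ _
    exact ⟨0, fun c _ => ⟨fun i => i.elim0, ⟨fun j => j.elim0, fun j => j.elim0⟩,
      fun j => j.elim0, fun j => j.elim0⟩⟩
  | succ m ih =>
    intro κ _
    obtain ⟨M, hM⟩ := ih κ
    obtain ⟨n, hn⟩ := hj α ((Fin M → α ⊕ Fin (k + 1)) → κ)
    refine ⟨n + M, fun c hc => ?_⟩
    obtain ⟨L, hL, C₀, hC⟩ := hn (fun x v => c (Fin.append (fun p => Sum.inl (x p)) v))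
    have a₀ : α := Classical.arbitrary α
    have hC' : ∀ (a : α) (v : Fin M → α ⊕ Fin (k + 1)),
        c (Fin.append (fun p => Sum.inl (Sum.elim id (fun _ => a) (L p))) v) = C₀ v :=
      fun a v => congrFun (hC a) v
    have hSd : Sd C₀ := by
      intro j v v' hv hv' hj hj' hpre
      rw [← hC' a₀ v, ← hC' a₀ v']
      refine hc (Fin.natAdd n j) _ _ (rig_append hv) (rig_append hv') ?_ ?_ ?_
      · rw [Fin.append_right, hj]
      · rw [Fin.append_right, hj']
      · intro i
        refine Fin.addCases (fun i => ?_) (fun i => ?_) i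
        · intro _
          rw [Fin.append_left, Fin.append_left]
          exact ⟨rfl, _, rfl⟩
        · intro hi
          rw [Fin.append_right, Fin.append_right]
          refine hpre i ?_
          rw [Fin.lt_def] at hi ⊢
          simp only [Fin.val_natAdd] at hi
          omega
    obtain ⟨U, hU, h, hh⟩ := hM C₀ hSd
    have hrig := app_rig hL hU
    -- the colour of the words starting with the first parameter
    have h00 : ∀ y y' : Fin (m + 1) → α ⊕ Fin (k + 1), Rig y → Rig y' → y 0 = Sum.inr 0 →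
        y' 0 = Sum.inr 0 → c (sub (app L U) y) = c (sub (app L U) y') := by
      intro y y' hy hy' h0 h0'
      obtain ⟨q, hq, hmin⟩ := first (hrig.sub hy)
      -- the position `q` lies in the line
      obtain ⟨p0, hp0⟩ := hL
      have hq' : ∀ z : Fin (m + 1) → α ⊕ Fin (k + 1), z 0 = Sum.inr 0 → ∀ p : Fin n,
          sub (app L U) z (Fin.castAdd M p) = Sum.elim Sum.inl (fun _ => Sum.inr 0) (L p) := by
        intro z hz p
        rw [sub_app, Fin.append_left, hz]
      have hle : q ≤ Fin.castAdd M p0 := by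
        by_contra hcon
        push Not at hcon
        obtain ⟨a, ha⟩ := hmin _ hcon
        rw [hq' y h0, hp0] at ha
        exact absurd ha (by simp)
      have hqn : (q : ℕ) < n := lt_of_le_of_lt (Fin.le_def.1 hle) (by simp)
      have hqe : q = Fin.castAdd M ⟨q, hqn⟩ := by
        ext
        simp
      refine hc q _ _ (hrig.sub hy) (hrig.sub hy') hq ?_ ?_
      · rw [hqe, hq' y' h0', ← hq' y h0, ← hqe, hq]
      · intro i hi
        have hin : (i : ℕ) < n := lt_trans (Fin.lt_def.1 hi) hqn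
        have hie : i = Fin.castAdd M ⟨i, hin⟩ := by
          ext
          simp
        refine ⟨?_, hmin i hi⟩
        rw [hie, hq' y' h0', hq' y h0]
    by_cases hne : ∃ y : Fin (m + 1) → α ⊕ Fin (k + 1), Rig y ∧ y 0 = Sum.inr 0
    · obtain ⟨y0, hy0, hy00⟩ := hne
      refine ⟨app L U, hrig, Fin.cons (c (sub (app L U) y0)) h, ?_⟩
      intro j y hy
      refine Fin.cases ?_ (fun j => ?_) j
      · intro hj _
        rw [Fin.cons_zero]
        exact h00 y y0 hy hy0 hj hy00
      · intro hj hpre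
        obtain ⟨a, ha⟩ := hpre 0 (Fin.succ_pos j)
        rw [Fin.cons_succ, ← hh j (fun i => y i.succ) (rig_tail hy ha) hj
          (fun i hi => hpre i.succ (Fin.succ_lt_succ_iff.2 hi)), ← hC' a, sub_app, ha]
        congr 1
        congr 1
        funext p
        rcases L p with b | i <;> rfl
    · push Not at hne
      refine ⟨app L U, hrig, Fin.cons (c (fun _ => Sum.inl a₀)) h, ?_⟩
      intro j y hy
      refine Fin.cases ?_ (fun j => ?_) j
      · intro hj _
        exact absurd hj (hne y hy)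
      · intro hj hpre
        obtain ⟨a, ha⟩ := hpre 0 (Fin.succ_pos j)
        rw [Fin.cons_succ, ← hh j (fun i => y i.succ) (rig_tail hy ha) hj
          (fun i hi => hpre i.succ (Fin.succ_lt_succ_iff.2 hi)), ← hC' a, sub_app, ha]
        congr 1
        congr 1
        funext p
        rcases L p with b | i <;> rfl

/-- Pigeonhole principle with increasing positions. -/
lemma pigeon (κ : Type) [Finite κ] (m : ℕ) : ∃ m' : ℕ, ∀ h : Fin m' → κ,
    ∃ f : Fin m ↪o Fin m', ∃ γ, ∀ j, h (f j) = γ := by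
  classical
  have := Fintype.ofFinite κ
  refine ⟨Fintype.card κ * m + 1, fun h => ?_⟩
  obtain ⟨γ, hγ⟩ := Fintype.exists_lt_card_fiber_of_mul_lt_card h (n := m) (by simp)
  obtain ⟨s, hs, hcard⟩ := Finset.exists_subset_card_eq hγ.le
  refine ⟨s.orderEmbOfFin hcard, γ, fun j => ?_⟩
  have h1 := hs (Finset.orderEmbOfFin_mem s hcard j)
  simpa using h1

/-- Restricting a word to some of its parameters. -/
noncomputable def sel {m m' : ℕ} (f : Fin m ↪o Fin m') (a₀ : α) : Fin m' → α ⊕ Fin m := by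
  classical
  exact fun p => if h : ∃ j, f j = p then Sum.inr h.choose else Sum.inl a₀

lemma sel_pos {m m' : ℕ} (f : Fin m ↪o Fin m') (a₀ : α) (j : Fin m) :
    sel f a₀ (f j) = Sum.inr j := by
  classical
  have h : ∃ j', f j' = f j := ⟨j, rfl⟩
  unfold sel
  rw [dif_pos h]
  exact congrArg Sum.inr (f.injective h.choose_spec)

lemma sel_neg {m m' : ℕ} (f : Fin m ↪o Fin m') (a₀ : α) {p : Fin m'} (h : ∀ j, f j ≠ p) :
    sel f a₀ p = Sum.inl a₀ := by
  classical
  unfold sel
  rw [dif_neg (by push Not; exact h)]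

lemma sel_rig {m m' : ℕ} (f : Fin m ↪o Fin m') (a₀ : α) : Rig (sel f a₀) := by
  constructor
  · intro j
    exact ⟨f j, sel_pos f a₀ j⟩
  · intro j j' hjj p hp
    by_cases h : ∃ i, f i = p
    · obtain ⟨i, rfl⟩ := h
      rw [sel_pos] at hp
      have := Sum.inr.inj hp
      subst this
      exact ⟨f j, f.strictMono hjj, sel_pos f a₀ j⟩
    · push Not at h
      rw [sel_neg f a₀ h] at hp
      exact absurd hp (by simp)

theorem gr_succ (ih : GRS k) : GRS (k + 1) := by
  intro α κ _ _ _ m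
  obtain ⟨m', hm'⟩ := pigeon κ m
  obtain ⟨M₁, hM₁⟩ := p_lem (k := k) (α := α) m' κ
  obtain ⟨M, hM⟩ := s_lem (α := α) ih M₁ κ
  refine ⟨M, fun c => ?_⟩
  obtain ⟨U₁, hU₁, hS⟩ := hM c
  obtain ⟨U₂, hU₂, h, hh⟩ := hM₁ _ hS
  obtain ⟨f, γ, hf⟩ := hm' h
  have a₀ : α := Classical.arbitrary α
  have hV := sel_rig f a₀
  refine ⟨sub U₁ (sub U₂ (sel f a₀)), hU₁.sub (hU₂.sub hV), γ, fun y hy => ?_⟩
  rw [sub_sub, sub_sub]
  obtain ⟨j, hj, hpre⟩ := first hy
  rw [hh (f j) (sub (sel f a₀) y) (hV.sub hy) (by rw [sub_inr _ (sel_pos f a₀ j), hj]) ?_, hf]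
  intro i hi
  by_cases h : ∃ i', f i' = i
  · obtain ⟨i', rfl⟩ := h
    rw [sub_inr _ (sel_pos f a₀ i')]
    exact hpre i' (f.lt_iff_lt.1 hi)
  · push Not at h
    rw [sub_inl _ (sel_neg f a₀ h)]
    exact ⟨a₀, rfl⟩

end step

/-- **The Graham–Rothschild theorem.** -/
theorem gr (k : ℕ) : GRS k := by
  induction k with
  | zero => exact gr_zero
  | succ k ih => exact gr_succ ih

end Pool.Agent.X60.GRk
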