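import Mathlib

/-!
# Homogeneous families of chains in three dimensions do not exist
-/

set_option autoImplicit false

namespace Pool.Agent.X60.UCcore

/-- The positions `(t, i)` and `(t', i')` of the matrix `B` are in general position: they lie in
different rows and columns, carry the entry `true`, and the two other corners of the rectangle
carry the entry `false`. -/
def Gen (B : Fin 3 → Fin 3 → Bool) (t i t' i' : Fin 3) : Prop :=
  t ≠ t' ∧ i ≠ i' ∧ B t i = true ∧ B t' i' = true ∧ B t i' = false ∧ B t' i = false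

lemma Gen.symm {B : Fin 3 → Fin 3 → Bool} {t i t' i' : Fin 3} (h : Gen B t i t' i') :
    Gen B t' i' t i :=
  ⟨h.1.symm, h.2.1.symm, h.2.2.2.1, h.2.2.1, h.2.2.2.2.2, h.2.2.2.2.1⟩

/-- The matrix of a permutation. -/
def mat (w : Fin 3 → Fin 3) : Fin 3 → Fin 3 → Bool := fun t i => decide (i = w t)

lemma gen_mat {w : Fin 3 → Fin 3} (hw : ∀ t t', t ≠ t' → w t ≠ w t') {t t' : Fin 3}
    (h : t ≠ t') : Gen (mat w) t (w t) t' (w t') := by
  refine ⟨h, hw t t' h, by simp [mat], by simp [mat], ?_, ?_⟩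
  · simp [mat, (hw t t' h).symm]
  · simp [mat, hw t t' h]

lemma tri : ∀ a b a' b' : Bool, ∃ w : Fin 3 → Fin 3, (∀ t t', t ≠ t' → w t ≠ w t') ∧
    ∃ e f g : Fin 3, e ≠ f ∧ e ≠ g ∧ f ≠ g ∧ decide (e < f) = a ∧ decide (w e < w f) = b ∧
      decide (e < g) = a' ∧ decide (w e < w g) = b' ∧ decide (f < g) = a' ∧
      decide (w f < w g) = b' := by
  decide +kernel

lemma dec_not {t t' : Fin 3} (h : t ≠ t') : decide (t' < t) = !decide (t < t') := by
  rcases lt_or_gt_of_ne h with h1 | h1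
  · simp [h1, not_lt.2 h1.le]
  · simp [h1, not_lt.2 h1.le]

lemma st_neg {p q : SignType} (hp : p ≠ 0) (h1 : p = q) (h2 : p = -q) : False := by
  revert hp h1 h2
  revert p q
  decide

section comb

variable (r : ℕ) (τ : ℕ → Fin 3 → Bool → Bool → SignType) (Up Dn : ℕ → Fin 3 → Bool → Bool → Prop)

/-- The combinatorial contradiction. -/
theorem comb (hr : 0 < r)
    (P2 : ∀ l ≤ r, ∀ c a b, τ l c (!a) (!b) = - τ l c a b)
    (P3 : ∀ l ≤ r, ∀ c a b, τ l c a b = 0 → ∀ a' b', τ l c a' b' = 0)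
    (P4 : ∀ j < r, ∀ c a b, Up j c a b → ∀ a' b', ¬ Dn j c a' b')
    (P5 : ∀ j < r, ∀ c a b, Up j c a b → τ j c a b = 1)
    (P5' : ∀ j < r, ∀ c a b, Dn j c a b → τ j c a b = -1)
    (P6 : ∀ j < r, ∀ a b, ∃ c, Up j c a b ∨ Dn j c a b)
    (P7 : ∀ j < r, ∀ c a b, (Up j c a b ∨ Dn j c a b) → ∀ a' b', τ (j + 1) c a' b' = τ j c a' b')
    (P8 : ∀ c a, τ 0 c a true = τ 0 c a false)
    (P9 : ∀ c b, τ r c true b = τ r c false b) : False := by
  -- two excluded quadrants of the same coordinate have the same sign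
  have E : ∀ j < r, ∀ c a b a' b', (Up j c a b ∨ Dn j c a b) → (Up j c a' b' ∨ Dn j c a' b') →
      τ j c a b = τ j c a' b' ∧ τ j c a b ≠ 0 := by
    intro j hj c a b a' b' h h'
    rcases h with h | h
    · rcases h' with h' | h'
      · rw [P5 j hj c a b h, P5 j hj c a' b' h']
        exact ⟨rfl, by decide⟩
      · exact absurd h' (P4 j hj c a b h a' b')
    · rcases h' with h' | h'
      · exact absurd h (P4 j hj c a' b' h' a b)
      · rw [P5' j hj c a b h, P5' j hj c a' b' h']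
        exact ⟨rfl, by decide⟩
  have ff : ∀ l ≤ r, ∀ c, τ l c false false = - τ l c true true := fun l hl c =>
    P2 l hl c true true
  have ft : ∀ l ≤ r, ∀ c, τ l c false true = - τ l c true false := fun l hl c =>
    P2 l hl c true false
  -- the two types
  let isT : ℕ → Fin 3 → Prop := fun l c => τ l c true true ≠ 0 ∧ τ l c true true = τ l c true false
  let isI : ℕ → Fin 3 → Prop := fun l c => τ l c true true ≠ 0 ∧
    τ l c true true = - τ l c true false
  have hex : ∀ l c, isT l c → isI l c → False := fun l c h1 h2 => st_neg h1.1 h1.2 h2.2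
  have hTI : ∀ l ≤ r, ∀ c a b, τ l c a b ≠ 0 → isT l c ∨ isI l c := by
    intro l hl c a b h
    have h1 : τ l c true true ≠ 0 := fun h0 => h (P3 l hl c _ _ h0 a b)
    have h2 : τ l c true false ≠ 0 := fun h0 => h (P3 l hl c _ _ h0 a b)
    have key : ∀ p q : SignType, p ≠ 0 → q ≠ 0 → p = q ∨ p = -q := by decide
    rcases key _ _ h1 h2 with h3 | h3
    · exact Or.inl ⟨h1, h3⟩
    · exact Or.inr ⟨h1, h3⟩
  -- one step
  have S : ∀ j < r, (∃ c c', c ≠ c' ∧ isT j c ∧ isT j c' ∧ isT (j + 1) c ∧ isT (j + 1) c') ∨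
      (∃ c c', c ≠ c' ∧ isI j c ∧ isI j c') := by
    intro j hj
    have hjr := hj.le
    have tr : ∀ c a b, (Up j c a b ∨ Dn j c a b) → isT j c → isT (j + 1) c := by
      intro c a b h hT
      have h1 := P7 j hj c a b h
      refine ⟨?_, ?_⟩
      · rw [h1]
        exact hT.1
      · rw [h1, h1]
        exact hT.2
    obtain ⟨c1, h1⟩ := P6 j hj true true
    obtain ⟨c2, h2⟩ := P6 j hj false false
    obtain ⟨c3, h3⟩ := P6 j hj true false
    obtain ⟨c4, h4⟩ := P6 j hj false true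
    have h12 : c1 ≠ c2 := by
      rintro rfl
      obtain ⟨h5, h6⟩ := E j hj c1 _ _ _ _ h1 h2
      rw [ff j hjr] at h5
      exact st_neg h6 rfl h5
    have h34 : c3 ≠ c4 := by
      rintro rfl
      obtain ⟨h5, h6⟩ := E j hj c3 _ _ _ _ h3 h4
      rw [ft j hjr] at h5
      exact st_neg h6 rfl h5
    by_cases hall : ∀ c, ∃ a b, (Up j c a b ∨ Dn j c a b)
    · have hty : ∀ c, isT j c ∨ isI j c := by
        intro c
        obtain ⟨a, b, h⟩ := hall c
        exact hTI j hjr c a b (E j hj c _ _ _ _ h h).2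
      have two : ∀ c c', c ≠ c' → isT j c → isT j c' →
          (∃ c c', c ≠ c' ∧ isT j c ∧ isT j c' ∧ isT (j + 1) c ∧ isT (j + 1) c') ∨
          (∃ c c', c ≠ c' ∧ isI j c ∧ isI j c') := by
        intro c c' hcc hc hc'
        obtain ⟨a, b, h⟩ := hall c
        obtain ⟨a', b', h'⟩ := hall c'
        exact Or.inl ⟨c, c', hcc, hc, hc', tr c a b h hc, tr c' a' b' h' hc'⟩
      rcases hty 0 with t0 | t0
      · rcases hty 1 with t1 | t1
        · exact two 0 1 (by decide) t0 t1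
        · rcases hty 2 with t2 | t2
          · exact two 0 2 (by decide) t0 t2
          · exact Or.inr ⟨1, 2, by decide, t1, t2⟩
      · rcases hty 1 with t1 | t1
        · rcases hty 2 with t2 | t2
          · exact two 1 2 (by decide) t1 t2
          · exact Or.inr ⟨0, 2, by decide, t0, t2⟩
        · exact Or.inr ⟨0, 1, by decide, t0, t1⟩
    · push Not at hall
      obtain ⟨c0, hc0⟩ := hall
      have n : ∀ c a b, (Up j c a b ∨ Dn j c a b) → c ≠ c0 := by
        rintro c a b h rfl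
        rcases h with h | h
        · exact (hc0 a b).1 h
        · exact (hc0 a b).2 h
      have key : ∀ c0 c1 c2 c3 c4 : Fin 3, c1 ≠ c2 → c3 ≠ c4 → c1 ≠ c0 → c2 ≠ c0 → c3 ≠ c0 →
          c4 ≠ c0 → (c3 = c1 ∧ c4 = c2) ∨ (c3 = c2 ∧ c4 = c1) := by decide
      rcases key c0 c1 c2 c3 c4 h12 h34 (n _ _ _ h1) (n _ _ _ h2) (n _ _ _ h3) (n _ _ _ h4) with
        ⟨e1, e2⟩ | ⟨e1, e2⟩
      · subst e1 e2
        obtain ⟨h5, h6⟩ := E j hj _ _ _ _ _ h1 h3
        obtain ⟨h7, h8⟩ := E j hj _ _ _ _ _ h2 h4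
        have t1 : isT j c3 := ⟨h6, h5⟩
        have t2 : isT j c4 := by
          rw [ff j hjr] at h7 h8
          rw [ft j hjr] at h7
          refine ⟨fun h0 => h8 (by rw [h0]; decide), neg_injective h7⟩
        exact Or.inl ⟨c3, c4, h34, t1, t2, tr _ _ _ h1 t1, tr _ _ _ h2 t2⟩
      · subst e1 e2
        obtain ⟨h5, h6⟩ := E j hj _ _ _ _ _ h1 h4
        obtain ⟨h7, h8⟩ := E j hj _ _ _ _ _ h2 h3
        refine Or.inr ⟨c4, c3, h34.symm, ⟨h6, ?_⟩, ⟨?_, ?_⟩⟩
        · rw [h5, ft j hjr]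
        · intro h0
          rw [ff j hjr, h0] at h8
          exact h8 (by decide)
        · rw [← h7, ff j hjr, neg_neg]
  -- the first layer
  have h0 : ∀ c, ¬ isI 0 c := by
    intro c hc
    exact st_neg hc.1 (P8 c true) hc.2
  have hrr : ∀ c, ¬ isT r c := by
    intro c hc
    have h1 := P9 c false
    rw [ff r le_rfl] at h1
    refine st_neg hc.1 hc.2 ?_
    rw [h1, neg_neg]
  have ind : ∀ j, 1 ≤ j → j ≤ r → ∃ c c', c ≠ c' ∧ isT j c ∧ isT j c' := by
    intro j hj
    induction j, hj using Nat.le_induction with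
    | base =>
      intro _
      rcases S 0 hr with ⟨c, c', hcc, _, _, h3, h4⟩ | ⟨c, c', _, h, _⟩
      · exact ⟨c, c', hcc, h3, h4⟩
      · exact absurd h (h0 c)
    | succ j hj ih =>
      intro hjr
      obtain ⟨d, d', hdd, hd, hd'⟩ := ih (by omega)
      rcases S j (by omega) with ⟨c, c', hcc, _, _, h3, h4⟩ | ⟨c, c', hcc, hc, hc'⟩
      · exact ⟨c, c', hcc, h3, h4⟩
      · exfalso
        have key : ∀ c c' d d' : Fin 3, c ≠ c' → d ≠ d' → c = d ∨ c = d' ∨ c' = d ∨ c' = d' := by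
          decide
        rcases key c c' d d' hcc hdd with h | h | h | h
        · subst h
          exact hex j _ hd hc
        · subst h
          exact hex j _ hd' hc
        · subst h
          exact hex j _ hd hc'
        · subst h
          exact hex j _ hd' hc'
  obtain ⟨c, _, _, hc, _⟩ := ind r hr le_rfl
  exact hrr c hc

end comb

/-- Homogeneous families of chains do not exist. -/
theorem core (r : ℕ) (hr : 0 < r)
    (x : (Fin 3 → Fin 3 → Bool) → Fin 3 → Fin 3 → ℕ → Fin 3 → ℝ)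
    (hstep : ∀ B t i, B t i = true → ∀ j < r, ∀ c, |x B t i (j + 1) c - x B t i j c| ≤ 1)
    (hstart : ∀ B t i i', B t i = true → B t i' = true → x B t i 0 = x B t i' 0)
    (hend : ∀ B t t' i, B t i = true → B t' i = true → x B t i r = x B t' i r)
    (hexcl : ∀ B t t' i i', B t i = true → B t' i' = true → B t i' = false → ∀ j < r,
      ∃ c, 1 < |x B t' i' (j + 1) c - x B t i j c|)
    (fl : ℕ → Fin 3 → Bool → Bool → ℤ)
    (hfl : ∀ l ≤ r, ∀ c B t i t' i', Gen B t i t' i' →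
      ⌊x B t i l c⌋ = fl l c (decide (t < t')) (decide (i < i')))
    (τ : ℕ → Fin 3 → Bool → Bool → SignType)
    (hτ : ∀ l ≤ r, ∀ c B t i t' i', Gen B t i t' i' →
      SignType.sign (x B t' i' l c - x B t i l c) = τ l c (decide (t < t')) (decide (i < i')))
    (Up Dn : ℕ → Fin 3 → Bool → Bool → Prop)
    (hU : ∀ j < r, ∀ c B t i t' i', Gen B t i t' i' →
      (x B t i j c + 1 < x B t' i' (j + 1) c ↔ Up j c (decide (t < t')) (decide (i < i'))))
    (hD : ∀ j < r, ∀ c B t i t' i', Gen B t i t' i' →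
      (x B t' i' (j + 1) c < x B t i j c - 1 ↔ Dn j c (decide (t < t')) (decide (i < i')))) :
    False := by
  -- three tokens
  have T3 : ∀ a b a' b' : Bool, ∃ B t1 i1 t2 i2 t3 i3, Gen B t1 i1 t2 i2 ∧ Gen B t1 i1 t3 i3 ∧
      Gen B t2 i2 t3 i3 ∧ decide (t1 < t2) = a ∧ decide (i1 < i2) = b ∧
      decide (t1 < t3) = a' ∧ decide (i1 < i3) = b' ∧ decide (t2 < t3) = a' ∧
      decide (i2 < i3) = b' := by
    intro a b a' b'
    obtain ⟨w, hw, e, f, g, h1, h2, h3, h4, h5, h6, h7, h8, h9⟩ := tri a b a' b'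
    exact ⟨mat w, e, w e, f, w f, g, w g, gen_mat hw h1, gen_mat hw h2, gen_mat hw h3, h4, h5, h6,
      h7, h8, h9⟩
  have F : ∀ l ≤ r, ∀ c a b a' b', fl l c a b = fl l c a' b' := by
    intro l hl c a b a' b'
    obtain ⟨B, t1, i1, t2, i2, t3, i3, g12, g13, g23, h1, h2, h3, h4, h5, h6⟩ := T3 a b a' b'
    have e1 := hfl l hl c B _ _ _ _ g12
    have e2 := hfl l hl c B _ _ _ _ g13
    rw [h1, h2] at e1
    rw [h3, h4] at e2
    rw [← e1, ← e2]
  have sgn : ∀ u v : ℝ, SignType.sign (u - v) = 1 ↔ v < u := by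
    intro u v
    rw [sign_eq_one_iff, sub_pos]
  have sgn' : ∀ u v : ℝ, SignType.sign (u - v) = -1 ↔ u < v := by
    intro u v
    rw [sign_eq_neg_one_iff, sub_neg]
  have P5 : ∀ j < r, ∀ c a b, Up j c a b → τ j c a b = 1 ∧ τ (j + 1) c a b = 1 := by
    intro j hj c a b h
    obtain ⟨B, t1, i1, t2, i2, t3, i3, g12, g13, g23, h1, h2, h3, h4, h5, h6⟩ := T3 a b a b
    have e1 := hU j hj c B _ _ _ _ g12
    have e2 := hτ j hj.le c B _ _ _ _ g12
    have e3 := hτ (j + 1) hj c B _ _ _ _ g12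
    rw [h1, h2] at e1 e2 e3
    have h7 := e1.2 h
    have s1 := abs_le.1 (hstep B t1 i1 g12.2.2.1 j hj c)
    have s2 := abs_le.1 (hstep B t2 i2 g12.2.2.2.1 j hj c)
    rw [← e2, ← e3, sgn, sgn]
    constructor <;> linarith [s1.1, s1.2, s2.1, s2.2]
  have P5' : ∀ j < r, ∀ c a b, Dn j c a b → τ j c a b = -1 ∧ τ (j + 1) c a b = -1 := by
    intro j hj c a b h
    obtain ⟨B, t1, i1, t2, i2, t3, i3, g12, g13, g23, h1, h2, h3, h4, h5, h6⟩ := T3 a b a b
    have e1 := hD j hj c B _ _ _ _ g12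
    have e2 := hτ j hj.le c B _ _ _ _ g12
    have e3 := hτ (j + 1) hj c B _ _ _ _ g12
    rw [h1, h2] at e1 e2 e3
    have h7 := e1.2 h
    have s1 := abs_le.1 (hstep B t1 i1 g12.2.2.1 j hj c)
    have s2 := abs_le.1 (hstep B t2 i2 g12.2.2.2.1 j hj c)
    rw [← e2, ← e3, sgn', sgn']
    constructor <;> linarith [s1.1, s1.2, s2.1, s2.2]
  have P2 : ∀ l ≤ r, ∀ c a b, τ l c (!a) (!b) = - τ l c a b := by
    intro l hl c a b
    obtain ⟨B, t1, i1, t2, i2, t3, i3, g12, g13, g23, h1, h2, h3, h4, h5, h6⟩ := T3 a b a b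
    have e1 := hτ l hl c B _ _ _ _ g12
    have e2 := hτ l hl c B _ _ _ _ g12.symm
    rw [dec_not g12.1, dec_not g12.2.1, h1, h2] at e2
    rw [h1, h2] at e1
    rw [← e1, ← e2, ← Left.sign_neg, neg_sub]
  have P3 : ∀ l ≤ r, ∀ c a b, τ l c a b = 0 → ∀ a' b', τ l c a' b' = 0 := by
    intro l hl c a b h0 a' b'
    obtain ⟨B, t1, i1, t2, i2, t3, i3, g12, g13, g23, h1, h2, h3, h4, h5, h6⟩ := T3 a' b' a b
    have e1 := hτ l hl c B _ _ _ _ g12
    have e2 := hτ l hl c B _ _ _ _ g13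
    have e3 := hτ l hl c B _ _ _ _ g23
    rw [h1, h2] at e1
    rw [h3, h4, h0, sign_eq_zero_iff] at e2
    rw [h5, h6, h0, sign_eq_zero_iff] at e3
    rw [← e1, sign_eq_zero_iff]
    linarith
  refine comb r τ Up Dn hr P2 P3 ?_ (fun j hj c a b h => (P5 j hj c a b h).1)
    (fun j hj c a b h => (P5' j hj c a b h).1) ?_ ?_ ?_ ?_
  · -- up and down flags
    intro j hj c a b h a' b' h'
    obtain ⟨B, t1, i1, t2, i2, t3, i3, g12, -, -, h1, h2, -, -, -, -⟩ := T3 a b a b
    obtain ⟨B', t1', i1', t2', i2', t3', i3', g12', -, -, h1', h2', -, -, -, -⟩ := T3 a' b' a' b'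
    have e1 := hU j hj c B _ _ _ _ g12
    have e2 := hD j hj c B' _ _ _ _ g12'
    rw [h1, h2] at e1
    rw [h1', h2'] at e2
    have q1 := e1.2 h
    have q2 := e2.2 h'
    have f1 := hfl j hj.le c B _ _ _ _ g12
    have f2 := hfl (j + 1) hj c B _ _ _ _ g12.symm
    have f1' := hfl j hj.le c B' _ _ _ _ g12'
    have f2' := hfl (j + 1) hj c B' _ _ _ _ g12'.symm
    have f3 : ⌊x B t1 i1 j c⌋ = ⌊x B' t1' i1' j c⌋ := by
      rw [f1, f1']
      exact F j hj.le c _ _ _ _
    have f4 : ⌊x B t2 i2 (j + 1) c⌋ = ⌊x B' t2' i2' (j + 1) c⌋ := by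
      rw [f2, f2']
      exact F (j + 1) hj c _ _ _ _
    have f5 : ⌊x B t1 i1 j c⌋ + 1 ≤ ⌊x B t2 i2 (j + 1) c⌋ := by
      rw [← Int.floor_add_one]
      exact Int.floor_le_floor q1.le
    have f6 : ⌊x B' t2' i2' (j + 1) c⌋ ≤ ⌊x B' t1' i1' j c⌋ - 1 := by
      rw [← Int.floor_sub_one]
      exact Int.floor_le_floor q2.le
    omega
  · -- exclusion
    intro j hj a b
    obtain ⟨B, t1, i1, t2, i2, t3, i3, g12, -, -, h1, h2, -, -, -, -⟩ := T3 a b a b
    obtain ⟨c, hc⟩ := hexcl B t1 t2 i1 i2 g12.2.2.1 g12.2.2.2.1 g12.2.2.2.2.1 j hj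
    refine ⟨c, ?_⟩
    have e1 := hU j hj c B _ _ _ _ g12
    have e2 := hD j hj c B _ _ _ _ g12
    rw [h1, h2] at e1 e2
    rcases lt_abs.1 hc with h | h
    · exact Or.inl (e1.1 (by linarith))
    · exact Or.inr (e2.1 (by linarith))
  · -- an excluding coordinate does not change
    intro j hj c a b hUD
    have nz : ∀ a' b', τ j c a' b' ≠ 0 := by
      intro a' b' h0
      have h1 := P3 j hj.le c _ _ h0 a b
      rcases hUD with h | h
      · rw [(P5 j hj c a b h).1] at h1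
        exact absurd h1 (by decide)
      · rw [(P5' j hj c a b h).1] at h1
        exact absurd h1 (by decide)
    have nz' : ∀ a' b', τ (j + 1) c a' b' ≠ 0 := by
      intro a' b' h0
      have h1 := P3 (j + 1) hj c _ _ h0 a b
      rcases hUD with h | h
      · rw [(P5 j hj c a b h).2] at h1
        exact absurd h1 (by decide)
      · rw [(P5' j hj c a b h).2] at h1
        exact absurd h1 (by decide)
    -- the forbidden change
    have no : ∀ a' b', (Up j c a b → ¬ (τ j c a' b' = -1 ∧ τ (j + 1) c a' b' = 1)) ∧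
        (Dn j c a b → ¬ (τ j c a' b' = 1 ∧ τ (j + 1) c a' b' = -1)) := by
      intro a' b'
      obtain ⟨B, t1, i1, t2, i2, t3, i3, g12, g13, g23, h1, h2, h3, h4, h5, h6⟩ := T3 a b a' b'
      have e1 := hU j hj c B _ _ _ _ g12
      have e2 := hD j hj c B _ _ _ _ g12
      have e3 := hτ j hj.le c B _ _ _ _ g13
      have e4 := hτ (j + 1) hj c B _ _ _ _ g23
      rw [h1, h2] at e1 e2
      rw [h3, h4] at e3
      rw [h5, h6] at e4
      have s3 := abs_le.1 (hstep B t3 i3 g13.2.2.2.1 j hj c)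
      constructor
      · rintro h ⟨k1, k2⟩
        rw [k1, sgn'] at e3
        rw [k2, sgn] at e4
        linarith [e1.2 h, s3.1, s3.2]
      · rintro h ⟨k1, k2⟩
        rw [k1, sgn] at e3
        rw [k2, sgn'] at e4
        linarith [e2.2 h, s3.1, s3.2]
    intro a' b'
    have key : ∀ p q : SignType, p ≠ 0 → q ≠ 0 → ¬ (p = -1 ∧ q = 1) → ¬ (p = 1 ∧ q = -1) →
        q = p := by decide
    have n2 := no (!a') (!b')
    rw [P2 j hj.le, P2 (j + 1) hj] at n2
    have n1 := no a' b'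
    refine key _ _ (nz a' b') (nz' a' b') ?_ ?_
    · rintro ⟨k1, k2⟩
      rcases hUD with h | h
      · exact n1.1 h ⟨k1, k2⟩
      · refine n2.2 h ⟨?_, ?_⟩
        · rw [k1]
          decide
        · rw [k2]
    · rintro ⟨k1, k2⟩
      rcases hUD with h | h
      · refine n2.1 h ⟨?_, ?_⟩
        · rw [k1]
        · rw [k2]
          decide
      · exact n1.2 h ⟨k1, k2⟩
  · -- the first layer
    intro c a
    have key : ∀ te tf : Fin 3, te ≠ tf → τ 0 c (decide (te < tf)) true =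
        τ 0 c (decide (te < tf)) false := by
      intro te tf hne
      have g1 : Gen (fun t i => decide ((t = te ∧ i ≠ 1) ∨ (t = tf ∧ i = 1))) te 0 tf 1 := by
        refine ⟨hne, by decide, by simp, by simp, ?_, ?_⟩
        · simp [hne]
        · simp [hne.symm]
      have g2 : Gen (fun t i => decide ((t = te ∧ i ≠ 1) ∨ (t = tf ∧ i = 1))) te 2 tf 1 := by
        refine ⟨hne, by decide, by simp, by simp, ?_, ?_⟩
        · simp [hne]
        · simp [hne.symm]
      have e1 := hτ 0 (Nat.zero_le r) c _ _ _ _ _ g1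
      have e2 := hτ 0 (Nat.zero_le r) c _ _ _ _ _ g2
      rw [hstart _ te 0 2 g1.2.2.1 g2.2.2.1, e2] at e1
      exact e1.symm
    cases a
    · exact key 1 0 (by decide)
    · exact key 0 1 (by decide)
  · -- the last layer
    intro c b
    have key : ∀ ie jf : Fin 3, ie ≠ jf → τ r c true (decide (ie < jf)) =
        τ r c false (decide (ie < jf)) := by
      intro ie jf hne
      have g1 : Gen (fun t i => decide ((t ≠ 1 ∧ i = ie) ∨ (t = 1 ∧ i = jf))) 0 ie 1 jf := by
        refine ⟨by decide, hne, by simp, by simp, ?_, ?_⟩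
        · simp [hne.symm]
        · simp [hne]
      have g2 : Gen (fun t i => decide ((t ≠ 1 ∧ i = ie) ∨ (t = 1 ∧ i = jf))) 2 ie 1 jf := by
        refine ⟨by decide, hne, by simp, by simp, ?_, ?_⟩
        · simp [hne.symm]
        · simp [hne]
      have e1 := hτ r le_rfl c _ _ _ _ _ g1
      have e2 := hτ r le_rfl c _ _ _ _ _ g2
      rw [hend _ 0 2 ie g1.2.2.1 g2.2.2.1, e2] at e1
      exact e1.symm
    cases b
    · exact key 1 0 (by decide)
    · exact key 0 1 (by decide)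

end Pool.Agent.X60.UCcore
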