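import Mathlib
import Pool.Agent.X60.GRk
import Pool.Agent.X60.UCcore

/-!
# From sets shattered by balls to homogeneous families of chains
-/

set_option autoImplicit false

namespace Pool.Agent.X60.UChom

open Pool.Agent.X60.GRk Pool.Agent.X60.UCcore

/-- The centres differ by at most `1` in every coordinate. -/
def Close {V : Type} (cc : V → Fin 3 → ℝ) (u v : V) : Prop := ∀ c, |cc v c - cc u c| ≤ 1

/-- There is a chain of length `n` from `u` to `v`. -/
def Ch {V : Type} (cc : V → Fin 3 → ℝ) (n : ℕ) (u v : V) : Prop :=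
  ∃ x : ℕ → V, x 0 = u ∧ x n = v ∧ ∀ j < n, Close cc (x j) (x (j + 1))

lemma chain_dist {V : Type} {cc : V → Fin 3 → ℝ} {n : ℕ} {x : ℕ → V}
    (h : ∀ j < n, Close cc (x j) (x (j + 1))) (c : Fin 3) :
    ∀ l ≤ n, |cc (x l) c - cc (x 0) c| ≤ l := by
  intro l
  induction l with
  | zero =>
    intro _
    simp
  | succ l ih =>
    intro hl
    have h1 := abs_le.1 (ih (by omega))
    have h2 := abs_le.1 (h l hl c)
    rw [abs_le]
    push_cast
    constructor <;> linarith [h1.1, h1.2, h2.1, h2.2]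

/-- The concatenation of the beginning of a chain and the end of another chain. -/
lemma chain_join {V : Type} {cc : V → Fin 3 → ℝ} {n : ℕ} {x y : ℕ → V}
    (hx : ∀ j < n, Close cc (x j) (x (j + 1))) (hy : ∀ j < n, Close cc (y j) (y (j + 1)))
    {j : ℕ} (hj : j < n) (hxy : Close cc (x j) (y (j + 1))) : Ch cc n (x 0) (y n) := by
  refine ⟨fun l => if l ≤ j then x l else y l, ?_, ?_, ?_⟩
  · simp
  · simp [not_le.2 hj]
  · intro l hl
    simp only
    rcases lt_trichotomy l j with h | h | h
    · rw [if_pos h.le, if_pos (by omega)]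
      exact hx l hl
    · subst h
      rw [if_pos le_rfl, if_neg (by omega)]
      exact hxy
    · rw [if_neg (by omega), if_neg (by omega)]
      exact hy l hl

/-- Colours of pairs of tokens. -/
abbrev PCT (r : ℕ) : Type :=
  (Fin (r + 1) → Fin 3 → Fin (4 * r + 1)) × (Fin (r + 1) → Fin 3 → SignType) ×
    (Fin (r + 1) → Fin 3 → Prop) × (Fin (r + 1) → Fin 3 → Prop)

/-- The colour of a pair of tokens. -/
noncomputable def pcol (r : ℕ) (z : Fin 3 → ℤ) (e f : ℕ → Fin 3 → ℝ) : PCT r :=
  (fun l c => Fin.ofNat (4 * r + 1) (⌊e l c⌋ - z c + 2 * r).toNat,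
    fun l c => SignType.sign (f l c - e l c),
    fun j c => e j c + 1 < f (j + 1) c,
    fun j c => f (j + 1) c < e j c - 1)

/-- The letter for two bits. -/
def lt2 : Bool → Bool → Bool ⊕ Fin 4
  | true, true => Sum.inl true
  | false, false => Sum.inl false
  | true, false => Sum.inr 0
  | false, true => Sum.inr 1

/-- The word of a pair of tokens. -/
def yw (B : Fin 3 → Fin 3 → Bool) (t t' i1 i2 : Fin 3) : Fin (3 + 3) → Bool ⊕ Fin 4 :=
  Fin.append (fun j => if j = t then Sum.inr 0 else if j = t' then Sum.inr 1 else Sum.inl false)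
    (fun i => if i = i1 then Sum.inr 2 else if i = i2 then Sum.inr 3 else lt2 (B t i) (B t' i))

/-- The row of `B`, preceded by the indicator of `t`. -/
def row (B : Fin 3 → Fin 3 → Bool) (t : Fin 3) : Fin (3 + 3) → Bool :=
  Fin.append (fun j => decide (j = t)) (B t)

lemma lt2_cases (b b' : Bool) : lt2 b b' = Sum.inl true ∨ lt2 b b' = Sum.inl false ∨
    lt2 b b' = Sum.inr 0 ∨ lt2 b b' = Sum.inr 1 := by
  cases b <;> cases b' <;> simp [lt2]

lemma elim_lt2 {g : Fin 4 → Bool} (g0 : g 0 = true) (g1 : g 1 = false) (b b' : Bool) :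
    Sum.elim id g (lt2 b b') = b := by
  cases b <;> cases b' <;> simp [lt2, g0, g1]

lemma elim_lt2' {g : Fin 4 → Bool} (g0 : g 0 = false) (g1 : g 1 = true) (b b' : Bool) :
    Sum.elim id g (lt2 b b') = b' := by
  cases b <;> cases b' <;> simp [lt2, g0, g1]

lemma elim_yw {B : Fin 3 → Fin 3 → Bool} {t t' i1 i2 : Fin 3}
    {g : Fin 4 → Bool} (g0 : g 0 = true) (g1 : g 1 = false) (g2 : g 2 = B t i1)
    (g3 : g 3 = B t i2) (j : Fin (3 + 3)) : Sum.elim id g (yw B t t' i1 i2 j) = row B t j := by
  refine Fin.addCases (fun j => ?_) (fun i => ?_) j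
  · rw [yw, row, Fin.append_left, Fin.append_left]
    by_cases h1 : j = t
    · simp [h1, g0]
    · by_cases h2 : j = t'
      · rw [if_neg h1, if_pos h2]
        simp [g1, h1]
      · rw [if_neg h1, if_neg h2]
        simp [h1]
  · rw [yw, row, Fin.append_right, Fin.append_right]
    by_cases h1 : i = i1
    · rw [if_pos h1, h1]
      exact g2
    · by_cases h2 : i = i2
      · rw [if_neg h1, if_pos h2, h2]
        exact g3
      · rw [if_neg h1, if_neg h2]
        exact elim_lt2 g0 g1 _ _

lemma elim_yw' {B : Fin 3 → Fin 3 → Bool} {t t' i1 i2 : Fin 3} (htt : t ≠ t')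
    {g : Fin 4 → Bool} (g0 : g 0 = false) (g1 : g 1 = true) (g2 : g 2 = B t' i1)
    (g3 : g 3 = B t' i2) (j : Fin (3 + 3)) : Sum.elim id g (yw B t t' i1 i2 j) = row B t' j := by
  refine Fin.addCases (fun j => ?_) (fun i => ?_) j
  · rw [yw, row, Fin.append_left, Fin.append_left]
    by_cases h1 : j = t
    · rw [if_pos h1]
      have h2 : j ≠ t' := fun h => htt (h1.symm.trans h)
      simp [g0, h2]
    · by_cases h2 : j = t'
      · rw [if_neg h1, if_pos h2]
        simp [g1, h2]
      · rw [if_neg h1, if_neg h2]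
        simp [h2]
  · rw [yw, row, Fin.append_right, Fin.append_right]
    by_cases h1 : i = i1
    · rw [if_pos h1, h1]
      exact g2
    · by_cases h2 : i = i2
      · rw [if_neg h1, if_pos h2, h2]
        exact g3
      · rw [if_neg h1, if_neg h2]
        exact elim_lt2' g0 g1 _ _

lemma yw_two {B : Fin 3 → Fin 3 → Bool} {t t' i1 i2 : Fin 3} (j : Fin (3 + 3)) :
    yw B t t' i1 i2 j = Sum.inr 2 ↔ j = Fin.natAdd 3 i1 := by
  refine Fin.addCases (fun j => ?_) (fun i => ?_) j
  · rw [yw, Fin.append_left]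
    constructor
    · intro h
      exfalso
      split_ifs at h <;> simp at h
    · intro h
      exfalso
      have := congrArg Fin.val h
      simp at this
      omega
  · rw [yw, Fin.append_right]
    constructor
    · intro h
      by_cases h1 : i = i1
      · rw [h1]
      · exfalso
        rw [if_neg h1] at h
        by_cases h2 : i = i2
        · rw [if_pos h2] at h
          simp at h
        · rw [if_neg h2] at h
          rcases lt2_cases (B t i) (B t' i) with h3 | h3 | h3 | h3 <;> rw [h3] at h <;> simp at h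
    · intro h
      have h1 : i = i1 := by
        have := congrArg Fin.val h
        simp only [Fin.val_natAdd] at this
        exact Fin.ext (by omega)
      rw [if_pos h1]

lemma yw_three {B : Fin 3 → Fin 3 → Bool} {t t' i1 i2 : Fin 3} (hii : i1 ≠ i2)
    (j : Fin (3 + 3)) : yw B t t' i1 i2 j = Sum.inr 3 ↔ j = Fin.natAdd 3 i2 := by
  refine Fin.addCases (fun j => ?_) (fun i => ?_) j
  · rw [yw, Fin.append_left]
    constructor
    · intro h
      exfalso
      split_ifs at h <;> simp at h
    · intro h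
      exfalso
      have := congrArg Fin.val h
      simp at this
      omega
  · rw [yw, Fin.append_right]
    constructor
    · intro h
      by_cases h1 : i = i1
      · rw [if_pos h1] at h
        simp at h
      · rw [if_neg h1] at h
        by_cases h2 : i = i2
        · rw [h2]
        · exfalso
          rw [if_neg h2] at h
          rcases lt2_cases (B t i) (B t' i) with h3 | h3 | h3 | h3 <;> rw [h3] at h <;> simp at h
    · intro h
      have h1 : i = i2 := by
        have := congrArg Fin.val h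
        simp only [Fin.val_natAdd] at this
        exact Fin.ext (by omega)
      rw [if_neg (by rw [h1]; exact hii.symm), if_pos h1]

lemma yw_rig {B : Fin 3 → Fin 3 → Bool} {t t' i1 i2 : Fin 3} (htt : t < t') (hii : i1 < i2) :
    Rig (yw B t t' i1 i2) := by
  have p0 : yw B t t' i1 i2 (Fin.castAdd 3 t) = Sum.inr 0 := by
    rw [yw, Fin.append_left, if_pos rfl]
  have p1 : yw B t t' i1 i2 (Fin.castAdd 3 t') = Sum.inr 1 := by
    rw [yw, Fin.append_left, if_neg htt.ne', if_pos rfl]
  have p2 : yw B t t' i1 i2 (Fin.natAdd 3 i1) = Sum.inr 2 := (yw_two _).2 rfl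
  have p3 : yw B t t' i1 i2 (Fin.natAdd 3 i2) = Sum.inr 3 := (yw_three hii.ne _).2 rfl
  have lt' : ∀ (a b : Fin 3), (Fin.castAdd 3 a : Fin (3 + 3)) < Fin.natAdd 3 b := by
    intro a b
    rw [Fin.lt_def]
    simp only [Fin.val_castAdd, Fin.val_natAdd]
    omega
  constructor
  · intro j
    fin_cases j
    · exact ⟨_, p0⟩
    · exact ⟨_, p1⟩
    · exact ⟨_, p2⟩
    · exact ⟨_, p3⟩
  · intro j j' hjj p hp
    -- the cases of `j`
    have key : ∀ j j' : Fin 4, j < j' → j = 0 ∨ j = 1 ∨ (j = 2 ∧ j' = 3) := by decide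
    have h2 := key j j' hjj
    rcases h2 with rfl | rfl | ⟨rfl, rfl⟩
    · revert hp
      refine Fin.addCases (fun q => ?_) (fun q => ?_) p
      · intro hp
        refine ⟨_, ?_, p0⟩
        rw [yw, Fin.append_left] at hp
        by_cases h1 : q = t
        · rw [if_pos h1] at hp
          have := Sum.inr.inj hp
          rw [← this] at hjj
          exact absurd hjj (by decide)
        · rw [if_neg h1] at hp
          by_cases h2 : q = t'
          · rw [h2, Fin.lt_def]
            simpa using htt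
          · rw [if_neg h2] at hp
            simp at hp
      · intro _
        exact ⟨_, lt' t q, p0⟩
    · revert hp
      refine Fin.addCases (fun q => ?_) (fun q => ?_) p
      · intro hp
        exfalso
        rw [yw, Fin.append_left] at hp
        by_cases h1 : q = t
        · rw [if_pos h1] at hp
          have := Sum.inr.inj hp
          rw [← this] at hjj
          exact absurd hjj (by decide)
        · rw [if_neg h1] at hp
          by_cases h2 : q = t'
          · rw [if_pos h2] at hp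
            have := Sum.inr.inj hp
            rw [← this] at hjj
            exact absurd hjj (by decide)
          · rw [if_neg h2] at hp
            simp at hp
      · intro _
        exact ⟨_, lt' t' q, p1⟩
    · have h1 := (yw_three hii.ne _).1 hp
      refine ⟨_, ?_, p2⟩
      rw [h1, Fin.lt_def]
      simpa using hii

/-- The value of a word. -/
def tw {M : ℕ} (g : Fin 4 → Bool) (w : Fin M → Bool ⊕ Fin 4) : Fin M → Bool :=
  fun p => Sum.elim id g (w p)

lemma tw_sub {M m : ℕ} (g : Fin 4 → Bool) (U : Fin M → Bool ⊕ Fin m)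
    (y : Fin m → Bool ⊕ Fin 4) (ρ : Fin m → Bool) (h : ∀ j, Sum.elim id g (y j) = ρ j) :
    tw g (sub U y) = fun p => Sum.elim id ρ (U p) := by
  funext p
  rw [tw]
  rcases hU : U p with a | j
  · rw [sub_inl y hU]
    rfl
  · rw [sub_inr y hU]
    exact h j

lemma eps_sub {M m : ℕ} [Nonempty (Fin M)] (U : Fin M → Bool ⊕ Fin m)
    (y : Fin m → Bool ⊕ Fin 4) (a : Fin 4) (b : Fin m) (h : ∀ j, y j = Sum.inr a ↔ j = b) :
    Classical.epsilon (fun p => sub U y p = Sum.inr a) =
      Classical.epsilon (fun p => U p = Sum.inr b) := by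
  congr 1
  funext p
  apply propext
  rcases hU : U p with a' | j
  · rw [sub_inl y hU]
    simp
  · rw [sub_inr y hU, h j]
    simp

/-- The number of points of a set shattered by balls of a fixed radius is bounded. -/
theorem bound (r : ℕ) (hr : 0 < r) : ∃ N : ℕ, ∀ (V : Type) (cc : V → Fin 3 → ℝ)
    (s : Fin N → V) (s' : V), ¬ ∀ T : Fin N → Bool, ∃ v, Ch cc r v s' ∧
      ∀ p, Ch cc r v (s p) ↔ T p = true := by
  classical
  have hf : Finite (PCT r) := by
    unfold PCT
    infer_instance
  have hf2 : Finite ((PCT r × PCT r) × (PCT r × PCT r)) := inferInstance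
  obtain ⟨M, hM⟩ := gr 4 Bool ((PCT r × PCT r) × (PCT r × PCT r)) (3 + 3)
  refine ⟨M, fun V cc s s' hsh => ?_⟩
  -- there is at least one coordinate
  have hne : Nonempty (Fin M) := by
    have hd : (PCT r × PCT r) × (PCT r × PCT r) :=
      ((pcol r 0 0 0, pcol r 0 0 0), (pcol r 0 0 0, pcol r 0 0 0))
    obtain ⟨U, hU, _⟩ := hM (fun _ => hd)
    exact ⟨(hU.1 0).choose⟩
  choose v hv' hv using hsh
  have hX : ∀ (T : Fin M → Bool) (p : Fin M), ∃ x : ℕ → V, T p = true →
      (x 0 = v T ∧ x r = s p ∧ ∀ j < r, Close cc (x j) (x (j + 1))) := by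
    intro T p
    by_cases h : T p = true
    · obtain ⟨x, hx⟩ := (hv T p).2 h
      exact ⟨x, fun _ => hx⟩
    · exact ⟨fun _ => s', fun h' => absurd h' h⟩
  choose X hX using hX
  let χ : (Fin M → Bool) → Fin M → ℕ → Fin 3 → ℝ := fun T p l c => cc (X T p l) c
  let z : Fin 3 → ℤ := fun c => ⌊cc s' c⌋
  let pos : Fin 4 → (Fin M → Bool ⊕ Fin 4) → Fin M := fun a w =>
    Classical.epsilon (fun p => w p = Sum.inr a)
  let g1 : Fin 4 → Bool := ![true, false, true, false]
  let g2 : Fin 4 → Bool := ![false, true, false, true]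
  let g1' : Fin 4 → Bool := ![true, false, false, true]
  let g2' : Fin 4 → Bool := ![false, true, true, false]
  obtain ⟨U, hU, γ, hγ⟩ := hM (fun w =>
    ((pcol r z (χ (tw g1 w) (pos 2 w)) (χ (tw g2 w) (pos 3 w)),
      pcol r z (χ (tw g2 w) (pos 3 w)) (χ (tw g1 w) (pos 2 w))),
     (pcol r z (χ (tw g1' w) (pos 3 w)) (χ (tw g2' w) (pos 2 w)),
      pcol r z (χ (tw g2' w) (pos 2 w)) (χ (tw g1' w) (pos 3 w)))))
  -- the rows and the positions
  let R : (Fin 3 → Fin 3 → Bool) → Fin 3 → Fin M → Bool := fun B t p =>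
    Sum.elim id (row B t) (U p)
  let P : Fin 3 → Fin M := fun i => Classical.epsilon (fun p => U p = Sum.inr (Fin.natAdd 3 i))
  have hP : ∀ i, U (P i) = Sum.inr (Fin.natAdd 3 i) := fun i =>
    Classical.epsilon_spec (hU.1 (Fin.natAdd 3 i))
  have hR : ∀ B t i, R B t (P i) = B t i := by
    intro B t i
    simp only [R, hP, Sum.elim_inr, row, Fin.append_right]
  let x : (Fin 3 → Fin 3 → Bool) → Fin 3 → Fin 3 → ℕ → Fin 3 → ℝ := fun B t i => χ (R B t) (P i)
  -- homogeneity
  have hom1 : ∀ B t i t' i', t < t' → i < i' → Gen B t i t' i' →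
      pcol r z (x B t i) (x B t' i') = γ.1.1 ∧ pcol r z (x B t' i') (x B t i) = γ.1.2 := by
    intro B t i t' i' ht hi hG
    obtain ⟨-, -, b1, b2, b3, b4⟩ := hG
    have h1 := hγ (yw B t t' i i') (yw_rig ht hi)
    simp only [pos] at h1
    rw [eps_sub U _ 2 _ yw_two, eps_sub U _ 3 _ (yw_three hi.ne),
      tw_sub g1 U _ (row B t) (elim_yw rfl rfl b1.symm b3.symm),
      tw_sub g2 U _ (row B t') (elim_yw' ht.ne rfl rfl b4.symm b2.symm)] at h1
    rw [← h1]
    exact ⟨rfl, rfl⟩
  have hom2 : ∀ B t i t' i', t < t' → i' < i → Gen B t i t' i' →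
      pcol r z (x B t i) (x B t' i') = γ.2.1 ∧ pcol r z (x B t' i') (x B t i) = γ.2.2 := by
    intro B t i t' i' ht hi hG
    obtain ⟨-, -, b1, b2, b3, b4⟩ := hG
    have h1 := hγ (yw B t t' i' i) (yw_rig ht hi)
    simp only [pos] at h1
    rw [eps_sub U _ 2 _ yw_two, eps_sub U _ 3 _ (yw_three hi.ne),
      tw_sub g1' U _ (row B t) (elim_yw rfl rfl b3.symm b1.symm),
      tw_sub g2' U _ (row B t') (elim_yw' ht.ne rfl rfl b2.symm b4.symm)] at h1
    rw [← h1]
    exact ⟨rfl, rfl⟩
  let Q : Bool → Bool → PCT r := fun a b => match a, b with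
    | true, true => γ.1.1
    | false, false => γ.1.2
    | true, false => γ.2.1
    | false, true => γ.2.2
  have hom : ∀ B t i t' i', Gen B t i t' i' →
      pcol r z (x B t i) (x B t' i') = Q (decide (t < t')) (decide (i < i')) := by
    intro B t i t' i' hG
    rcases lt_or_gt_of_ne hG.1 with ht | ht
    · rcases lt_or_gt_of_ne hG.2.1 with hi | hi
      · rw [(hom1 B t i t' i' ht hi hG).1, decide_eq_true ht, decide_eq_true hi]
      · rw [(hom2 B t i t' i' ht hi hG).1, decide_eq_true ht, decide_eq_false (not_lt.2 hi.le)]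
    · rcases lt_or_gt_of_ne hG.2.1 with hi | hi
      · rw [(hom2 B t' i' t i ht hi hG.symm).2, decide_eq_false (not_lt.2 ht.le),
          decide_eq_true hi]
      · rw [(hom1 B t' i' t i ht hi hG.symm).2, decide_eq_false (not_lt.2 ht.le),
          decide_eq_false (not_lt.2 hi.le)]
  have hval : ∀ l ≤ r, ((Fin.ofNat (r + 1) l : Fin (r + 1)) : ℕ) = l := by
    intro l hl
    rw [Fin.val_ofNat]
    exact Nat.mod_eq_of_lt (by omega)
  -- the floors
  have hbd : ∀ B t i, B t i = true → ∀ l ≤ r, ∀ c,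
      0 ≤ ⌊x B t i l c⌋ - z c + 2 * r ∧ ⌊x B t i l c⌋ - z c + 2 * r < 4 * r + 1 := by
    intro B t i hB l hl c
    obtain ⟨h1, h2, h3⟩ := hX (R B t) (P i) (by rw [hR, hB])
    have h4 := abs_le.1 (chain_dist h3 c l hl)
    obtain ⟨x', h5, h6, h7⟩ := hv' (R B t)
    have h8 := abs_le.1 (chain_dist h7 c r le_rfl)
    rw [h5, h6] at h8
    rw [h1] at h4
    have hlr : (l : ℝ) ≤ r := by exact_mod_cast hl
    have h9 : cc (X (R B t) (P i) l) c ≤ cc s' c + ((2 * r : ℤ) : ℝ) := by
      push_cast
      linarith [h4.1, h4.2, h8.1, h8.2]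
    have h10 : cc s' c ≤ cc (X (R B t) (P i) l) c + ((2 * r : ℤ) : ℝ) := by
      push_cast
      linarith [h4.1, h4.2, h8.1, h8.2]
    have h11 := Int.floor_le_floor h9
    have h12 := Int.floor_le_floor h10
    rw [Int.floor_add_intCast] at h11 h12
    have h13 : ⌊x B t i l c⌋ = ⌊cc (X (R B t) (P i) l) c⌋ := rfl
    have h14 : z c = ⌊cc s' c⌋ := rfl
    rw [h13, h14]
    constructor <;> omega
  refine core r hr x ?_ ?_ ?_ ?_
    (fun l c a b => ((Q a b).1 (Fin.ofNat (r + 1) l) c : ℕ) + z c - 2 * r) ?_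
    (fun l c a b => (Q a b).2.1 (Fin.ofNat (r + 1) l) c) ?_
    (fun l c a b => (Q a b).2.2.1 (Fin.ofNat (r + 1) l) c)
    (fun l c a b => (Q a b).2.2.2 (Fin.ofNat (r + 1) l) c) ?_ ?_
  · -- steps
    intro B t i hB j hj c
    obtain ⟨h1, h2, h3⟩ := hX (R B t) (P i) (by rw [hR, hB])
    exact h3 j hj c
  · -- start
    intro B t i i' hB hB'
    obtain ⟨h1, h2, h3⟩ := hX (R B t) (P i) (by rw [hR, hB])
    obtain ⟨h1', h2', h3'⟩ := hX (R B t) (P i') (by rw [hR, hB'])
    funext c
    simp only [x, χ]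
    rw [h1, h1']
  · -- end
    intro B t t' i hB hB'
    obtain ⟨h1, h2, h3⟩ := hX (R B t) (P i) (by rw [hR, hB])
    obtain ⟨h1', h2', h3'⟩ := hX (R B t') (P i) (by rw [hR, hB'])
    funext c
    simp only [x, χ]
    rw [h2, h2']
  · -- exclusion
    intro B t t' i i' hB hB' hBf j hj
    by_contra hcon
    push Not at hcon
    obtain ⟨h1, h2, h3⟩ := hX (R B t) (P i) (by rw [hR, hB])
    obtain ⟨h1', h2', h3'⟩ := hX (R B t') (P i') (by rw [hR, hB'])
    have h4 := chain_join h3 h3' hj hcon
    rw [h1, h2'] at h4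
    have h5 := (hv (R B t) (P i')).1 h4
    rw [hR, hBf] at h5
    exact absurd h5 (by decide)
  · -- floors
    intro l hl c B t i t' i' hG
    have h1 := congrFun (congrFun (congrArg Prod.fst (hom B t i t' i' hG)) (Fin.ofNat (r + 1) l)) c
    obtain ⟨h2, h3⟩ := hbd B t i hG.2.2.1 l hl c
    simp only [pcol] at h1
    rw [hval l hl] at h1
    rw [← h1, Fin.val_ofNat, Nat.mod_eq_of_lt (by omega)]
    omega
  · -- signs
    intro l hl c B t i t' i' hG
    have h1 := congrFun (congrFun (congrArg (fun q => q.2.1) (hom B t i t' i' hG))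
      (Fin.ofNat (r + 1) l)) c
    simp only [pcol] at h1
    rw [hval l hl] at h1
    exact h1
  · intro l hl c B t i t' i' hG
    have h1 := congrFun (congrFun (congrArg (fun q => q.2.2.1) (hom B t i t' i' hG))
      (Fin.ofNat (r + 1) l)) c
    simp only [pcol] at h1
    rw [hval l hl.le] at h1
    exact Iff.of_eq h1
  · intro l hl c B t i t' i' hG
    have h1 := congrFun (congrFun (congrArg (fun q => q.2.2.2) (hom B t i t' i' hG))
      (Fin.ofNat (r + 1) l)) c
    simp only [pcol] at h1
    rw [hval l hl.le] at h1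
    exact Iff.of_eq h1

end Pool.Agent.X60.UChom
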