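import Pool.Agent.X60.GenTree2

/-!
# The Gyárfás–Sumner conjecture and added graphs without large bicliques: consequences
-/

set_option autoImplicit false

namespace Pool.Agent.X60.GenTree

/-- **Added graphs without bicliques.** -/
theorem added {m : ℕ} (F : SimpleGraph (Fin m)) (hF : F.IsAcyclic) (t : ℕ) :
    ∃ (m' : ℕ) (F' : SimpleGraph (Fin m')) (f : ℕ → ℕ), F'.IsAcyclic ∧
      ∀ (V : Type) [Finite V] (G G₁ : SimpleGraph V), G₁ ≤ G → BicliqueFree (G \ G₁) t →
        ¬ F.IsIndContained G → ¬ F'.IsIndContained G₁ ∧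
          G.chromaticNumber ≤ (f G.cliqueNum : ℕ∞) * G₁.chromaticNumber := by
  classical
  obtain ⟨T, hT, ⟨e⟩⟩ := Pool.Agent.H367R3.forest_in_tree F hF
  obtain ⟨N, hN⟩ := tree_of_added T hT t
  obtain ⟨f, hf⟩ := colour F hF t
  have : Finite (SN N) := (SN_finite N).to_subtype
  let ε : Fin (Nat.card (SN N)) ≃ SN N := (Finite.equivFin (SN N)).symm
  refine ⟨Nat.card (SN N), (TN N).comap ε, f, ?_, ?_⟩
  · exact (SimpleGraph.Iso.comap ε (TN N)).isAcyclic_iff.2 (TN_acyclic N)
  · intro V _ G G₁ hle hfree hFG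
    have hTG : ¬ Nonempty (T ↪g G) := fun ⟨g⟩ => hFG ⟨e.trans g⟩
    refine ⟨?_, ?_⟩
    · rintro ⟨g⟩
      exact hN V G G₁ hle hfree hTG ⟨(SimpleGraph.Iso.comap ε (TN N)).symm.toEmbedding.trans g⟩
    · have hfin : Fintype V := Fintype.ofFinite V
      obtain ⟨c, hc⟩ : ∃ c : ℕ, G₁.chromaticNumber = c := by
        have := SimpleGraph.chromaticNumber_ne_top_iff_exists.2 ⟨_, G₁.colorable_of_fintype⟩
        exact ⟨_, (ENat.natCast_toNat this).symm⟩
      have hcol : G₁.Colorable c := by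
        rw [← SimpleGraph.chromaticNumber_le_iff_colorable, hc]
      have hk : G.CliqueFree (G.cliqueNum + 1) := by
        intro s hs
        have h1 := hs.isClique.card_le_cliqueNum
        rw [hs.card_eq] at h1
        omega
      have h2 := (hf V G G₁ hle hfree (fun ⟨g⟩ => hFG ⟨g⟩) _ hk c hcol).chromaticNumber_le
      rw [hc, mul_comm]
      exact_mod_cast h2

/-- The Gyárfás–Sumner conjecture for the graphs of a class. -/
def GS (𝒞 : (n : ℕ) → Set (SimpleGraph (Fin n))) : Prop :=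
  ∀ (m : ℕ) (F : SimpleGraph (Fin m)), F.IsAcyclic → ∃ f : ℕ → ℕ, ∀ (n : ℕ), ∀ G ∈ 𝒞 n,
    ¬ F.IsIndContained G → G.chromaticNumber ≤ f G.cliqueNum

/-- The graphs obtained from graphs of the class by adding the edges of a graph without `K_{t,t}`. -/
def Added (𝒞 : (n : ℕ) → Set (SimpleGraph (Fin n))) (t n : ℕ) : Set (SimpleGraph (Fin n)) :=
  {G | ∃ G₁ ∈ 𝒞 n, G₁ ≤ G ∧ BicliqueFree (G \ G₁) t}

lemma cliqueNum_mono {V : Type} [Finite V] {G G₁ : SimpleGraph V} (h : G₁ ≤ G) :
    G₁.cliqueNum ≤ G.cliqueNum := by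
  classical
  have : Fintype V := Fintype.ofFinite V
  obtain ⟨s, hs⟩ := G₁.exists_isNClique_cliqueNum
  have h1 : G.IsClique s := hs.isClique.mono h
  have h2 := h1.card_le_cliqueNum
  rwa [hs.card_eq] at h2

lemma le_sup_range (f : ℕ → ℕ) {i k : ℕ} (h : i ≤ k) : f i ≤ (Finset.range (k + 1)).sup f :=
  Finset.le_sup (Finset.mem_range.2 (by omega))

theorem gs_added (𝒞 : (n : ℕ) → Set (SimpleGraph (Fin n))) (h𝒞 : GS 𝒞) (t : ℕ) :
    GS (Added 𝒞 t) := by
  intro m F hF
  obtain ⟨m', F', f, hF', hf⟩ := added F hF t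
  obtain ⟨g, hg⟩ := h𝒞 m' F' hF'
  refine ⟨fun k => f k * (Finset.range (k + 1)).sup g, ?_⟩
  rintro n G ⟨G₁, hG₁, hle, hfree⟩ hFG
  obtain ⟨h1, h2⟩ := hf _ G G₁ hle hfree hFG
  have h3 := hg n G₁ hG₁ h1
  refine h2.trans ?_
  push_cast
  gcongr
  refine h3.trans ?_
  exact_mod_cast le_sup_range g (cliqueNum_mono hle)

/-- Ramsey's theorem in the form needed. -/
theorem exists_indep (t : ℕ) : ∀ k : ℕ, ∃ R : ℕ, ∀ (V : Type) (G : SimpleGraph V) (A : Finset V),
    (∀ K : Finset V, K ⊆ A → G.IsClique K → K.card ≤ k) → R ≤ A.card →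
      ∃ I ⊆ A, I.card = t ∧ ∀ a ∈ I, ∀ b ∈ I, ¬ G.Adj a b := by
  classical
  intro k
  induction k with
  | zero =>
    refine ⟨1, ?_⟩
    intro V G A hA hR
    obtain ⟨a, ha⟩ := Finset.card_pos.1 (by omega : 0 < A.card)
    have := hA {a} (by simpa using ha) (by simp)
    simp at this
  | succ k ih =>
    obtain ⟨R, hR⟩ := ih
    refine ⟨t * (R + 1) + 1, ?_⟩
    intro V G A hA hRA
    -- a maximal independent subset
    obtain ⟨P, hP⟩ : ∃ P : Finset V → Prop, ∀ I, P I ↔ ∀ a ∈ I, ∀ b ∈ I, ¬ G.Adj a b :=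
      ⟨_, fun _ => Iff.rfl⟩
    obtain ⟨I, hI⟩ := (A.powerset.filter P).exists_max_image Finset.card
        ⟨∅, by rw [Finset.mem_filter, hP]; simp⟩
    obtain ⟨hI1, hI2⟩ := hI
    rw [Finset.mem_filter, Finset.mem_powerset, hP] at hI1
    by_cases ht : t ≤ I.card
    · obtain ⟨J, hJ, hJc⟩ := Finset.exists_subset_card_eq ht
      exact ⟨J, hJ.trans hI1.1, hJc, fun a ha b hb => hI1.2 a (hJ ha) b (hJ hb)⟩
    · push Not at ht
      have hcov : A ⊆ I.biUnion (fun v => insert v (A.filter (fun a => G.Adj v a))) := by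
        intro a ha
        rw [Finset.mem_biUnion]
        by_contra hcon
        push Not at hcon
        have haI : a ∉ I := by
          intro h
          exact hcon a h (Finset.mem_insert_self _ _)
        have hnadj : ∀ v ∈ I, ¬ G.Adj v a := by
          intro v hv h
          exact hcon v hv (Finset.mem_insert_of_mem (Finset.mem_filter.2 ⟨ha, h⟩))
        have h1 := hI2 (insert a I) (by
          rw [Finset.mem_filter, Finset.mem_powerset, hP]
          refine ⟨Finset.insert_subset ha hI1.1, ?_⟩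
          intro x hx y hy
          rw [Finset.mem_insert] at hx hy
          rcases hx with rfl | hx
          · rcases hy with rfl | hy
            · exact G.irrefl
            · exact fun h => hnadj y hy h.symm
          · rcases hy with rfl | hy
            · exact hnadj x hx
            · exact hI1.2 x hx y hy)
        rw [Finset.card_insert_of_notMem haI] at h1
        omega
      have hex : ∃ v ∈ I, R ≤ (A.filter (fun a => G.Adj v a)).card := by
        by_contra hcon
        push Not at hcon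
        have h1 := Finset.card_le_card hcov
        have h2 : (I.biUnion (fun v => insert v (A.filter (fun a => G.Adj v a)))).card ≤
            I.card * R := by
          apply Finset.card_biUnion_le_card_mul
          intro v hv
          refine (Finset.card_insert_le _ _).trans ?_
          have := hcon v hv
          omega
        have h3 : I.card * R ≤ t * (R + 1) := Nat.mul_le_mul ht.le (Nat.le_succ R)
        omega
      obtain ⟨v, hv, hvR⟩ := hex
      obtain ⟨J, hJ, hJc, hJi⟩ := hR V G (A.filter (fun a => G.Adj v a)) (by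
        intro K hK hKc
        have hKv : v ∉ K := by
          intro h
          exact G.irrefl (Finset.mem_filter.1 (hK h)).2
        have h1 := hA (insert v K) (by
          refine Finset.insert_subset (hI1.1 hv) ?_
          exact hK.trans (Finset.filter_subset _ _)) (by
          rw [Finset.coe_insert]
          refine hKc.insert ?_
          intro b hb _
          exact (Finset.mem_filter.1 (hK hb)).2)
        rw [Finset.card_insert_of_notMem hKv] at h1
        omega) hvR
      exact ⟨J, hJ.trans (Finset.filter_subset _ _), hJc, hJi⟩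

/-- `u` and `v` are on different sides of an induced `K_{t,t}`. -/
def InBiclique {V : Type} (G : SimpleGraph V) (t : ℕ) (u v : V) : Prop :=
  ∃ A B : Finset V, A.card = t ∧ B.card = t ∧ u ∈ A ∧ v ∈ B ∧ (∀ a ∈ A, ∀ b ∈ B, G.Adj a b) ∧
    (∀ a ∈ A, ∀ a' ∈ A, ¬ G.Adj a a') ∧ ∀ b ∈ B, ∀ b' ∈ B, ¬ G.Adj b b'

/-- The edges in induced `K_{t,t}`. -/
def core {V : Type} (G : SimpleGraph V) (t : ℕ) : SimpleGraph V where
  Adj u v := InBiclique G t u v
  symm := ⟨by
    rintro u v ⟨A, B, h1, h2, h3, h4, h5, h6, h7⟩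
    exact ⟨B, A, h2, h1, h4, h3, fun a ha b hb => (h5 b hb a ha).symm, h7, h6⟩⟩
  loopless := ⟨by
    rintro u ⟨A, B, h1, h2, h3, h4, h5, h6, h7⟩
    exact G.irrefl (h5 u h3 u h4)⟩

lemma core_le {V : Type} (G : SimpleGraph V) (t : ℕ) : core G t ≤ G := by
  rintro u v ⟨A, B, h1, h2, h3, h4, h5, h6, h7⟩
  exact h5 u h3 v h4

lemma core_inBiclique {V : Type} (G : SimpleGraph V) (t : ℕ) {u v : V} (h : (core G t).Adj u v) :
    InBiclique (core G t) t u v := by
  obtain ⟨A, B, h1, h2, h3, h4, h5, h6, h7⟩ := h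
  refine ⟨A, B, h1, h2, h3, h4, ?_, ?_, ?_⟩
  · intro a ha b hb
    exact ⟨A, B, h1, h2, ha, hb, h5, h6, h7⟩
  · intro a ha a' ha' h
    exact h6 a ha a' ha' (core_le G t h)
  · intro b hb b' hb' h
    exact h7 b hb b' hb' (core_le G t h)

theorem core_sdiff_free {t : ℕ} (ht : 1 ≤ t) (k : ℕ) : ∃ R : ℕ, ∀ (V : Type) (G : SimpleGraph V),
    G.CliqueFree (k + 1) → BicliqueFree (G \ core G t) R := by
  obtain ⟨R, hR⟩ := exists_indep t k
  refine ⟨R, ?_⟩
  intro V G hG A B hA hB hAB
  have hcl : ∀ X K : Finset V, K ⊆ X → G.IsClique K → K.card ≤ k := by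
    intro X K _ hK
    by_contra hcon
    push Not at hcon
    obtain ⟨K', hK', hc⟩ := Finset.exists_subset_card_eq (Nat.succ_le_of_lt hcon)
    exact hG K' ⟨hK.subset (by exact_mod_cast hK'), hc⟩
  obtain ⟨I, hI, hIc, hIi⟩ := hR V G A (hcl A) hA.ge
  obtain ⟨J, hJ, hJc, hJi⟩ := hR V G B (hcl B) hB.ge
  obtain ⟨a, ha⟩ := Finset.card_pos.1 (by omega : 0 < I.card)
  obtain ⟨b, hb⟩ := Finset.card_pos.1 (by omega : 0 < J.card)
  have h1 := hAB a (hI ha) b (hJ hb)
  rw [SimpleGraph.sdiff_adj] at h1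
  apply h1.2
  refine ⟨I, J, hIc, hJc, ha, hb, ?_, hIi, hJi⟩
  intro x hx y hy
  have h2 := hAB x (hI hx) y (hJ hy)
  rw [SimpleGraph.sdiff_adj] at h2
  exact h2.1

/-- **Reduction** to the graphs in which every edge is in an induced `K_{t,t}`. -/
theorem gs_of_core {t : ℕ} (ht : 1 ≤ t)
    (h : GS (fun n => {G | ∀ u v, G.Adj u v → InBiclique G t u v})) :
    GS (fun _ => Set.univ) := by
  intro m F hF
  choose R hR using core_sdiff_free ht
  have hadd := fun k => added F hF (R k)
  choose m' F' f hF' hf using hadd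
  choose g hg using fun k => h (m' k) (F' k) (hF' k)
  refine ⟨fun k => f k k * (Finset.range (k + 1)).sup (g k), ?_⟩
  rintro n G - hFG
  have hk : G.CliqueFree (G.cliqueNum + 1) := by
    intro s hs
    have h1 := hs.isClique.card_le_cliqueNum
    rw [hs.card_eq] at h1
    omega
  obtain ⟨h1, h2⟩ := hf G.cliqueNum _ G (core G t) (core_le G t) (hR _ _ G hk) hFG
  have h3 := hg G.cliqueNum n (core G t) (fun u v huv => core_inBiclique G t huv) h1
  refine h2.trans ?_
  push_cast
  gcongr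
  refine h3.trans ?_
  exact_mod_cast le_sup_range (g G.cliqueNum) (cliqueNum_mono (core_le G t))

/-- **Trees as subgraphs.** -/
theorem tree_subgraph {m : ℕ} (T : SimpleGraph (Fin m)) (hT : T.IsTree) (t : ℕ) :
    ∃ N : ℕ, ∀ (V : Type) (G : SimpleGraph V), BicliqueFree G t → (TN N).IsContained G →
      T.IsIndContained G := by
  obtain ⟨N, hN⟩ := tree_of_added T hT t
  refine ⟨N, ?_⟩
  rintro V G hG ⟨g⟩
  by_contra hcon
  classical
  let g' : SN N ↪ V := ⟨g, g.injective⟩
  refine hN (SN N) (G.comap g') (TN N) ?_ ?_ ?_ ⟨SimpleGraph.Embedding.refl⟩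
  · intro u v huv
    exact g.toHom.map_adj huv
  · intro A B hA hB hAB
    apply hG (A.map g') (B.map g')
    · rw [Finset.card_map, hA]
    · rw [Finset.card_map, hB]
    · intro x hx y hy
      rw [Finset.mem_map] at hx hy
      obtain ⟨a, ha, rfl⟩ := hx
      obtain ⟨b, hb, rfl⟩ := hy
      have := hAB a ha b hb
      rw [SimpleGraph.sdiff_adj] at this
      exact this.1
  · rintro ⟨e⟩
    exact hcon ⟨e.trans (SimpleGraph.Embedding.comap g' G)⟩

end Pool.Agent.X60.GenTree
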