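import Pool.Agent.X60.PolyFam
import Pool.Agent.H398R2.BA1

/-! Values of polynomials at primes: reduction to the worst root class. -/

set_option autoImplicit false

open Finset Polynomial

namespace Pool.Agent.X60.PolyFam

/-- `π(x)` -/
def primePi (x : ℕ) : ℕ := ((Icc 1 x).filter (fun p : ℕ => p.Prime)).card

/-- `π(x; q, a)` -/
def primePiAP (x q a : ℕ) : ℕ := ((Icc 1 x).filter (fun p : ℕ => p.Prime ∧ p ≡ a [MOD q])).card

/-- `|π(x; q, a) - π(x)/φ(q)|` -/
noncomputable def Er (x q a : ℕ) : ℝ :=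
  |(primePiAP x q a : ℝ) - (primePi x : ℝ) / (Nat.totient q : ℝ)|

/-- the number of the primes `p ≤ x` with `q ∣ f(p)` -/
def primeValues (f : ℤ[X]) (x q : ℕ) : ℕ :=
  ((Icc 1 x).filter (fun p : ℕ => p.Prime ∧ (q : ℤ) ∣ f.eval (p : ℤ))).card

/-- the errors of all the root classes -/
noncomputable def classError (f : ℤ[X]) (x q : ℕ) : ℝ := ∑ a ∈ roots f q, Er x q a

/-- the error of the number of the values -/
noncomputable def countError (f : ℤ[X]) (x q : ℕ) : ℝ :=
  |(primeValues f x q : ℝ) - (roots f q).card * ((primePi x : ℝ) / (Nat.totient q : ℝ))|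

theorem eval_dvd_iff (f : ℤ[X]) (q a b : ℕ) (h : a ≡ b [MOD q]) :
    (q : ℤ) ∣ f.eval (a : ℤ) ↔ (q : ℤ) ∣ f.eval (b : ℤ) := by
  have h1 : (q : ℤ) ∣ (b : ℤ) - a := (Nat.modEq_iff_dvd).1 h
  have h2 : (q : ℤ) ∣ f.eval (b : ℤ) - f.eval (a : ℤ) := dvd_trans h1 (sub_dvd_eval_sub _ _ _)
  constructor
  · intro h3
    exact (dvd_sub_left h3).1 h2
  · intro h3
    exact (dvd_sub_right h3).1 h2

theorem primeValues_split (f : ℤ[X]) (x q : ℕ) (hq : 1 ≤ q) :
    primeValues f x q = ∑ a ∈ roots f q, primePiAP x q a +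
      ((Icc 1 x).filter (fun p : ℕ => (p.Prime ∧ (q : ℤ) ∣ f.eval (p : ℤ)) ∧ ¬ p.Coprime q)).card := by
  unfold primeValues
  rw [← card_filter_add_card_filter_not (s := (Icc 1 x).filter
    (fun p : ℕ => p.Prime ∧ (q : ℤ) ∣ f.eval (p : ℤ))) (fun p => p.Coprime q), filter_filter,
    filter_filter]
  congr 1
  have hmaps : ∀ p ∈ (Icc 1 x).filter (fun p : ℕ => (p.Prime ∧ (q : ℤ) ∣ f.eval (p : ℤ)) ∧
      p.Coprime q), p % q ∈ roots f q := by
    intro p hp
    rw [mem_filter] at hp
    unfold roots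
    rw [mem_filter, mem_range]
    refine ⟨Nat.mod_lt _ (by omega), ?_, ?_⟩
    · have := hp.2.2
      unfold Nat.Coprime at this ⊢
      rw [← this, Nat.gcd_comm, Nat.gcd_comm p q, Nat.gcd_rec q p, Nat.gcd_comm]
    · exact (eval_dvd_iff f q (p % q) p (Nat.mod_modEq p q)).2 hp.2.1.2
  rw [card_eq_sum_card_fiberwise hmaps]
  apply sum_congr rfl
  intro a ha
  unfold primePiAP
  rw [filter_filter]
  congr 1
  apply filter_congr
  intro p _
  unfold roots at ha
  rw [mem_filter, mem_range] at ha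
  constructor
  · rintro ⟨⟨⟨h1, _⟩, _⟩, h4⟩
    refine ⟨h1, ?_⟩
    unfold Nat.ModEq
    rw [h4, Nat.mod_eq_of_lt ha.1]
  · rintro ⟨h1, h2⟩
    refine ⟨⟨⟨h1, (eval_dvd_iff f q p a h2).2 ha.2.2⟩, ?_⟩, ?_⟩
    · have := ha.2.1
      unfold Nat.Coprime at this ⊢
      rw [← this]
      exact h2.gcd_eq
    · unfold Nat.ModEq at h2
      rw [h2, Nat.mod_eq_of_lt ha.1]

theorem countError_le (f : ℤ[X]) (x q : ℕ) (hq : 1 ≤ q) :
    countError f x q ≤ classError f x q + q.divisors.card := by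
  unfold countError classError
  rw [primeValues_split f x q hq]
  have h1 : (((Icc 1 x).filter (fun p : ℕ => (p.Prime ∧ (q : ℤ) ∣ f.eval (p : ℤ)) ∧
      ¬ p.Coprime q)).card : ℝ) ≤ q.divisors.card := by
    have h2 : ((Icc 1 x).filter (fun p : ℕ => (p.Prime ∧ (q : ℤ) ∣ f.eval (p : ℤ)) ∧
      ¬ p.Coprime q)).card ≤ q.divisors.card := by
      apply card_le_card
      intro p hp
      rw [mem_filter] at hp
      rw [Nat.mem_divisors]
      refine ⟨?_, by omega⟩
      by_contra hc
      exact hp.2.2 ((Nat.Prime.coprime_iff_not_dvd hp.2.1.1).2 hc)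
    exact_mod_cast h2
  push_cast
  have h3 : (∑ a ∈ roots f q, (primePiAP x q a : ℝ)) -
      (roots f q).card * ((primePi x : ℝ) / (Nat.totient q : ℝ)) =
      ∑ a ∈ roots f q, ((primePiAP x q a : ℝ) - (primePi x : ℝ) / (Nat.totient q : ℝ)) := by
    rw [sum_sub_distrib, sum_const, nsmul_eq_mul]
  have h4 : |(∑ a ∈ roots f q, (primePiAP x q a : ℝ)) -
      (roots f q).card * ((primePi x : ℝ) / (Nat.totient q : ℝ))| ≤ ∑ a ∈ roots f q, Er x q a := by
    rw [h3]
    exact abs_sum_le_sum_abs _ _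
  have h5 : (0 : ℝ) ≤ (((Icc 1 x).filter (fun p : ℕ => (p.Prime ∧ (q : ℤ) ∣ f.eval (p : ℤ)) ∧
      ¬ p.Coprime q)).card : ℝ) := Nat.cast_nonneg _
  rw [abs_le] at h4 ⊢
  constructor <;> linarith [h4.1, h4.2]

theorem Er_le (x q a : ℕ) (hq : 1 ≤ q) (hqx : q ≤ x) :
    Er x q a ≤ 2 * x * (q.divisors.card / q) := by
  have hφ : 0 < q.totient := Nat.totient_pos.2 (by omega)
  have hq0 : (0 : ℝ) < q := by exact_mod_cast (by omega : 0 < q)
  have hφ0 : (0 : ℝ) < q.totient := by exact_mod_cast hφ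
  have h1 : (q : ℝ) ≤ q.divisors.card * q.totient := by
    exact_mod_cast le_card_mul_totient q (by omega)
  have hd : (1 : ℝ) ≤ q.divisors.card := by
    have : 0 < q.divisors.card := card_pos.2 ⟨1, Nat.one_mem_divisors.2 (by omega)⟩
    exact_mod_cast this
  have h2 : (primePi x : ℝ) / q.totient ≤ 2 * x * (q.divisors.card / q) := by
    have h3 : (primePi x : ℝ) ≤ x := by
      have : primePi x ≤ x := by
        unfold primePi
        calc _ ≤ (Icc 1 x).card := card_filter_le _ _
          _ = x := by rw [Nat.card_Icc, Nat.add_sub_cancel]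
      exact_mod_cast this
    rw [div_le_iff₀ hφ0]
    calc (primePi x : ℝ) ≤ x := h3
      _ = x * (q / q) := by rw [div_self hq0.ne', mul_one]
      _ ≤ x * ((q.divisors.card * q.totient) / q) := by gcongr
      _ ≤ 2 * x * (q.divisors.card / q) * q.totient := by
        have h5 : (0 : ℝ) ≤ x * ((q.divisors.card * q.totient) / q) := by positivity
        have e : 2 * (x : ℝ) * (q.divisors.card / q) * q.totient =
          2 * (x * ((q.divisors.card * q.totient) / q)) := by ring
        rw [e]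
        linarith
  have h4 : (primePiAP x q a : ℝ) ≤ 2 * x * (q.divisors.card / q) := by
    have h5 : (primePiAP x q a : ℝ) ≤ x / q + 1 := by
      have h6 := Nat.Ioc_filter_modEq_card 0 x (by omega : 0 < q) a
      have h7 : primePiAP x q a ≤ ((Ioc 0 x).filter (fun n => n ≡ a [MOD q])).card := by
        apply card_le_card
        intro p hp
        rw [mem_filter, mem_Icc] at hp
        rw [mem_filter, mem_Ioc]
        exact ⟨⟨by omega, hp.1.2⟩, hp.2.2⟩
      have h8 : ((((Ioc 0 x).filter (fun n => n ≡ a [MOD q])).card : ℤ) : ℝ) ≤ x / q + 1 := by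
        rw [h6]
        push_cast
        apply max_le
        · have e1 : (⌊((x : ℚ) - a) / q⌋ : ℝ) ≤ ((x : ℝ) - a) / q := by
            have := Int.floor_le (((x : ℚ) - a) / q)
            exact_mod_cast (Rat.cast_le (K := ℝ)).2 this
          have e2 : ((0 : ℝ) - a) / q < (⌊((0 : ℚ) - a) / q⌋ : ℝ) + 1 := by
            have := Int.lt_floor_add_one (((0 : ℚ) - a) / q)
            have h9 := (Rat.cast_lt (K := ℝ)).2 this
            push_cast at h9
            exact h9
          have e3 : ((x : ℝ) - a) / q - (0 - a) / q = x / q := by ring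
          linarith
        · positivity
      have h10 : (primePiAP x q a : ℝ) ≤ ((Ioc 0 x).filter (fun n => n ≡ a [MOD q])).card := by
        exact_mod_cast h7
      have h11 : ((((Ioc 0 x).filter (fun n => n ≡ a [MOD q])).card : ℤ) : ℝ) =
        ((Ioc 0 x).filter (fun n => n ≡ a [MOD q])).card := by push_cast; rfl
      linarith
    have h6 : (1 : ℝ) ≤ x / q := by
      rw [le_div_iff₀ hq0, one_mul]
      exact_mod_cast hqx
    calc (primePiAP x q a : ℝ) ≤ x / q + 1 := h5
      _ ≤ 2 * (x / q) * 1 := by linarith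
      _ ≤ 2 * (x / q) * q.divisors.card := by gcongr
      _ = _ := by ring
  unfold Er
  rw [abs_le]
  have h5 : (0 : ℝ) ≤ primePiAP x q a := Nat.cast_nonneg _
  have h6 : (0 : ℝ) ≤ (primePi x : ℝ) / q.totient := by positivity
  constructor <;> linarith

/-- weighted sum of the errors against the sum of the errors -/
theorem weights (x Q m : ℕ) (hQ : Q ≤ x) (K : ℝ) (hK : 0 < K) (S : Finset ℕ) (hS : S ⊆ Icc 1 Q)
    (c : ℕ → ℕ) :
    ∑ q ∈ S, (q.divisors.card : ℝ) ^ m * Er x q (c q) ≤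
      K * ∑ q ∈ S, Er x q (c q) + 2 * x / K * (1 + Real.log Q) ^ (2 ^ (2 * m + 1)) := by
  have h1 : ∀ q ∈ S, (q.divisors.card : ℝ) ^ m * Er x q (c q) ≤
      K * Er x q (c q) + 2 * x / K * ((q.divisors.card : ℝ) ^ (2 * m + 1) / q) := by
    intro q hq
    have hq1 := mem_Icc.1 (hS hq)
    have hE0 : 0 ≤ Er x q (c q) := abs_nonneg _
    have h2 : (q.divisors.card : ℝ) ^ m ≤ K + (q.divisors.card : ℝ) ^ (2 * m) / K := by
      rcases le_or_gt ((q.divisors.card : ℝ) ^ m) K with h | h
      · have : 0 ≤ (q.divisors.card : ℝ) ^ (2 * m) / K := by positivity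
        linarith
      · have h3 : (q.divisors.card : ℝ) ^ m ≤ (q.divisors.card : ℝ) ^ (2 * m) / K := by
          rw [le_div_iff₀ hK, two_mul, pow_add]
          apply mul_le_mul_of_nonneg_left h.le (by positivity)
        linarith
    calc (q.divisors.card : ℝ) ^ m * Er x q (c q) ≤
        (K + (q.divisors.card : ℝ) ^ (2 * m) / K) * Er x q (c q) :=
          mul_le_mul_of_nonneg_right h2 hE0
      _ = K * Er x q (c q) + (q.divisors.card : ℝ) ^ (2 * m) / K * Er x q (c q) := by ring
      _ ≤ K * Er x q (c q) + (q.divisors.card : ℝ) ^ (2 * m) / K *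
          (2 * x * (q.divisors.card / q)) := by
          gcongr
          exact Er_le x q (c q) hq1.1 (by omega)
      _ = _ := by rw [pow_succ]; ring
  refine (sum_le_sum h1).trans ?_
  rw [sum_add_distrib, ← mul_sum, ← mul_sum]
  have h2 : ∑ q ∈ S, (q.divisors.card : ℝ) ^ (2 * m + 1) / q ≤
      (1 + Real.log Q) ^ (2 ^ (2 * m + 1)) :=
    (sum_le_sum_of_subset_of_nonneg hS (fun _ _ _ => by positivity)).trans
      (Pool.Agent.H398R2.BV.sum_card_pow_div (2 * m + 1) Q)
  gcongr

/-- the sum of the errors for `f` in terms of the worst root classes -/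
theorem total_le (f : ℤ[X]) (hf : f.IsPrimitive) (k : ℕ) (hk : f.natDegree ≤ k) (x Q T : ℕ)
    (hQ : Q ≤ x) (c : ℕ → ℕ)
    (hc : ∀ q, (roots f q).Nonempty → (c q).Coprime q ∧ ∀ a ∈ roots f q, Er x q a ≤ Er x q (c q))
    (K : ℝ) (hK : 0 < K) :
    ∑ q ∈ (Icc 1 Q).filter Squarefree, (q.divisors.card : ℝ) ^ T *
        (classError f x q + countError f x q) ≤
      2 * (K * ∑ q ∈ (Icc 1 Q).filter (fun q => (c q).Coprime q), Er x q (c q) +
        2 * x / K * (1 + Real.log Q) ^ (2 ^ (2 * (T + k) + 1))) +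
      Q * (1 + Real.log Q) ^ (2 ^ (T + 1)) := by
  have h1 : ∀ q ∈ (Icc 1 Q).filter Squarefree, (q.divisors.card : ℝ) ^ T *
        (classError f x q + countError f x q) ≤
      2 * (if (c q).Coprime q then (q.divisors.card : ℝ) ^ (T + k) * Er x q (c q) else 0) +
        (q.divisors.card : ℝ) ^ (T + 1) := by
    intro q hq
    rw [mem_filter, mem_Icc] at hq
    have h2 := countError_le f x q hq.1.1
    have h3 : classError f x q ≤
        if (c q).Coprime q then (q.divisors.card : ℝ) ^ k * Er x q (c q) else 0 := by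
      rcases (roots f q).eq_empty_or_nonempty with h | h
      · unfold classError
        rw [h, sum_empty]
        split_ifs
        · have : 0 ≤ Er x q (c q) := abs_nonneg _
          positivity
        · exact le_rfl
      · rw [if_pos (hc q h).1]
        unfold classError
        calc ∑ a ∈ roots f q, Er x q a ≤ ∑ _a ∈ roots f q, Er x q (c q) :=
              sum_le_sum (hc q h).2
          _ = (roots f q).card * Er x q (c q) := by rw [sum_const, nsmul_eq_mul]
          _ ≤ _ := by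
            apply mul_le_mul_of_nonneg_right _ (abs_nonneg _)
            exact_mod_cast card_roots f hf k hk q hq.2
    calc (q.divisors.card : ℝ) ^ T * (classError f x q + countError f x q) ≤
        (q.divisors.card : ℝ) ^ T * (2 * classError f x q + q.divisors.card) := by
          apply mul_le_mul_of_nonneg_left _ (by positivity)
          linarith
      _ ≤ (q.divisors.card : ℝ) ^ T * (2 * (if (c q).Coprime q then (q.divisors.card : ℝ) ^ k *
          Er x q (c q) else 0) + q.divisors.card) := by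
          apply mul_le_mul_of_nonneg_left _ (by positivity)
          linarith
      _ = _ := by
        split_ifs
        · rw [pow_add, pow_succ]; ring
        · rw [pow_succ]; ring
  refine (sum_le_sum h1).trans ?_
  rw [sum_add_distrib, ← mul_sum]
  apply add_le_add
  · apply mul_le_mul_of_nonneg_left _ (by norm_num)
    calc _ ≤ ∑ q ∈ Icc 1 Q, (if (c q).Coprime q then (q.divisors.card : ℝ) ^ (T + k) *
          Er x q (c q) else 0) := by
          apply sum_le_sum_of_subset_of_nonneg (filter_subset _ _)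
          intro q _ _
          split_ifs
          · have : 0 ≤ Er x q (c q) := abs_nonneg _
            positivity
          · exact le_rfl
      _ = ∑ q ∈ (Icc 1 Q).filter (fun q => (c q).Coprime q), (q.divisors.card : ℝ) ^ (T + k) *
          Er x q (c q) := (sum_filter _ _).symm
      _ ≤ _ := weights x Q (T + k) hQ K hK _ (filter_subset _ _) c
  · calc _ ≤ ∑ q ∈ Icc 1 Q, (q.divisors.card : ℝ) ^ (T + 1) :=
          sum_le_sum_of_subset_of_nonneg (filter_subset _ _) (fun _ _ _ => by positivity)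
      _ ≤ ∑ q ∈ Icc 1 Q, Q * ((q.divisors.card : ℝ) ^ (T + 1) / q) := by
          apply sum_le_sum
          intro q hq
          rw [mem_Icc] at hq
          have hq0 : (0 : ℝ) < q := by exact_mod_cast (by omega : 0 < q)
          have hqQ : (q : ℝ) ≤ Q := by exact_mod_cast hq.2
          rw [← mul_div_assoc, le_div_iff₀ hq0, mul_comm]
          gcongr
      _ = Q * ∑ q ∈ Icc 1 Q, (q.divisors.card : ℝ) ^ (T + 1) / q := (mul_sum _ _ _).symm
      _ ≤ _ := by
          gcongr
          exact Pool.Agent.H398R2.BV.sum_card_pow_div (T + 1) Q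

/-- the choice of the classes for a family, with few coincidences -/
theorem exists_systems (k D : ℕ) : ∃ D1 x1 : ℕ, ∀ x : ℕ, x1 ≤ x → ∀ F : Finset ℤ[X],
    (∀ f ∈ F, f.IsPrimitive ∧ f.natDegree ≤ k ∧ ∀ i, |f.coeff i| ≤ (x : ℤ) ^ D) →
    (∀ f ∈ F, ∀ g ∈ F, f ≠ g →
      IsCoprime (f.map (Int.castRingHom ℚ)) (g.map (Int.castRingHom ℚ))) →
    ∃ c : ℤ[X] → ℕ → ℕ,
      (∀ f ∈ F, ∀ q, (roots f q).Nonempty →
        (c f q).Coprime q ∧ ∀ a ∈ roots f q, Er x q a ≤ Er x q (c f q)) ∧
      (∀ f ∈ F, ∀ g ∈ F, f ≠ g → ∃ s : Fin 4 → ℕ, (∀ i, 1 ≤ s i ∧ s i ≤ x ^ D1) ∧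
        ∀ Q : ℕ, ((Icc 1 Q).filter (fun q => c f q ≡ c g q [MOD q])).card ≤
          ∑ i, (s i).divisors.card) := by
  classical
  set D2 : ℕ := 1 + (D + 1) * (k + 1) with hD2
  set D1 : ℕ := (1 + 2 * k * D) + (1 + D + k * D2) + D2 with hD1
  refine ⟨D1, max ((2 * k).factorial) (k + 3), fun x hx F hF hco => ?_⟩
  have hx1 : (2 * k).factorial ≤ x := (le_max_left _ _).trans hx
  have hx2 : k + 3 ≤ x := (le_max_right _ _).trans hx
  have hx0 : 1 ≤ x := by omega
  obtain ⟨n, hn1, hn2, hn3⟩ := exists_labels F k (fun f hf =>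
    ⟨(hF f hf).1.ne_zero, (hF f hf).2.1⟩)
  have hcard : F.card ≤ x ^ ((D + 1) * (k + 1)) := by
    have h1 := card_family F k (x ^ D) (fun f hf => ⟨(hF f hf).2.1, by
      intro i
      push_cast
      exact (hF f hf).2.2 i⟩)
    refine h1.trans ?_
    rw [pow_mul]
    apply Nat.pow_le_pow_left
    have h2 : 1 ≤ x ^ D := Nat.one_le_pow _ _ hx0
    calc 2 * x ^ D + 1 ≤ 3 * x ^ D := by omega
      _ ≤ x * x ^ D := Nat.mul_le_mul_right _ (by omega)
      _ = x ^ (D + 1) := by rw [pow_succ]; ring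
  have hn4 : ∀ f ∈ F, n f ≤ x ^ D2 := by
    intro f hf
    calc n f ≤ (k + 1) * F.card := (hn1 f hf).2
      _ ≤ x * x ^ ((D + 1) * (k + 1)) := Nat.mul_le_mul (by omega) hcard
      _ = x ^ D2 := by rw [hD2, pow_add, pow_one]
  have hval : ∀ f ∈ F, ∀ g ∈ F, (f.eval (n g : ℤ)).natAbs ≤ x ^ (1 + D + k * D2) := by
    intro f hf g hg
    have h1 := eval_bound f k (hF f hf).2.1 ((x : ℤ) ^ D) (hF f hf).2.2 (n g) (hn1 g hg).1
    have h2 : ((f.eval (n g : ℤ)).natAbs : ℤ) ≤ (k + 1) * (x : ℤ) ^ D * (n g : ℤ) ^ k := by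
      rw [Int.natCast_natAbs]
      exact h1
    have h3 : (f.eval (n g : ℤ)).natAbs ≤ (k + 1) * x ^ D * (n g) ^ k := by exact_mod_cast h2
    calc _ ≤ (k + 1) * x ^ D * (n g) ^ k := h3
      _ ≤ x * x ^ D * (x ^ D2) ^ k :=
          Nat.mul_le_mul (Nat.mul_le_mul (by omega) le_rfl) (Nat.pow_le_pow_left (hn4 g hg) k)
      _ = _ := by rw [← pow_mul, pow_add, pow_add, pow_one, mul_comm D2 k]
  have mono : ∀ {e : ℕ}, e ≤ D1 → x ^ e ≤ x ^ D1 := fun h => Nat.pow_le_pow_right hx0 h
  -- the classes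
  set c : ℤ[X] → ℕ → ℕ := fun f q =>
    if h : (roots f q).Nonempty then Classical.choose (exists_max_image (roots f q) (fun a => Er x q a) h)
    else n f with hc
  have hc1 : ∀ f q, (roots f q).Nonempty → c f q ∈ roots f q ∧ ∀ a ∈ roots f q, Er x q a ≤ Er x q (c f q) := by
    intro f q h
    have := Classical.choose_spec (exists_max_image (roots f q) (fun a => Er x q a) h)
    simp only [hc, dif_pos h]
    exact this
  have hc2 : ∀ f q, ¬ (roots f q).Nonempty → c f q = n f := by
    intro f q h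
    simp only [hc, dif_neg h]
  refine ⟨c, fun f _ q h => ⟨?_, (hc1 f q h).2⟩, fun f hf g hg hfg => ?_⟩
  · have := (hc1 f q h).1
    unfold roots at this
    rw [mem_filter] at this
    exact this.2.1
  obtain ⟨R, hR0, hR1, hR2⟩ := resultant_bound f g (hF f hf).1 k (hF f hf).2.1 (hF g hg).2.1
    ((x : ℤ) ^ D) (one_le_pow₀ (by exact_mod_cast hx0)) (hF f hf).2.2 (hF g hg).2.2 (hco f hf g hg hfg)
  have hR3 : R ≤ x ^ (1 + 2 * k * D) := by
    have h1 : (R : ℤ) ≤ ((2 * k).factorial * (x ^ D) ^ (2 * k) : ℕ) := by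
      push_cast
      exact hR1
    have h2 : R ≤ (2 * k).factorial * (x ^ D) ^ (2 * k) := by exact_mod_cast h1
    calc R ≤ _ := h2
      _ ≤ x * (x ^ D) ^ (2 * k) := Nat.mul_le_mul_right _ hx1
      _ = _ := by rw [← pow_mul, pow_add, pow_one, mul_comm D (2 * k)]
  refine ⟨![R, (f.eval (n g : ℤ)).natAbs, (g.eval (n f : ℤ)).natAbs,
    ((n f : ℤ) - n g).natAbs], ?_, fun Q => ?_⟩
  · intro i
    fin_cases i
    · exact ⟨Nat.one_le_iff_ne_zero.2 hR0, hR3.trans (mono (by omega))⟩
    · exact ⟨Nat.one_le_iff_ne_zero.2 (Int.natAbs_ne_zero.2 (hn3 f hf g hg)),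
        (hval f hf g hg).trans (mono (by omega))⟩
    · exact ⟨Nat.one_le_iff_ne_zero.2 (Int.natAbs_ne_zero.2 (hn3 g hg f hf)),
        (hval g hg f hf).trans (mono (by omega))⟩
    · have h1 := hn2 f hf g hg hfg
      have h2 := hn4 f hf
      have h3 := hn4 g hg
      have h4 : x ^ D2 ≤ x ^ D1 := mono (by omega)
      change 1 ≤ ((n f : ℤ) - n g).natAbs ∧ ((n f : ℤ) - n g).natAbs ≤ x ^ D1
      constructor <;> omega
  · have hsub : (Icc 1 Q).filter (fun q => c f q ≡ c g q [MOD q]) ⊆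
        (univ : Finset (Fin 4)).biUnion (fun i => (![R, (f.eval (n g : ℤ)).natAbs,
          (g.eval (n f : ℤ)).natAbs, ((n f : ℤ) - n g).natAbs] i).divisors) := by
      intro q hq
      rw [mem_filter, mem_Icc] at hq
      rw [mem_biUnion]
      have hmem : ∀ h : ℤ[X], (roots h q).Nonempty → (q : ℤ) ∣ h.eval (c h q : ℤ) := by
        intro h hh
        have := (hc1 h q hh).1
        unfold roots at this
        rw [mem_filter] at this
        exact this.2.2
      by_cases hfq : (roots f q).Nonempty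
      · by_cases hgq : (roots g q).Nonempty
        · refine ⟨0, mem_univ _, Nat.mem_divisors.2 ⟨?_, hR0⟩⟩
          exact hR2 q (c f q) (hmem f hfq) ((eval_dvd_iff g q _ _ hq.2).2 (hmem g hgq))
        · refine ⟨1, mem_univ _, Nat.mem_divisors.2 ⟨?_, Int.natAbs_ne_zero.2 (hn3 f hf g hg)⟩⟩
          change q ∣ (f.eval (n g : ℤ)).natAbs
          rw [← Int.natCast_dvd, ← hc2 g q hgq]
          exact (eval_dvd_iff f q _ _ hq.2).1 (hmem f hfq)
      · by_cases hgq : (roots g q).Nonempty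
        · refine ⟨2, mem_univ _, Nat.mem_divisors.2 ⟨?_, Int.natAbs_ne_zero.2 (hn3 g hg f hf)⟩⟩
          change q ∣ (g.eval (n f : ℤ)).natAbs
          rw [← Int.natCast_dvd, ← hc2 f q hfq]
          exact (eval_dvd_iff g q _ _ hq.2).2 (hmem g hgq)
        · refine ⟨3, mem_univ _, Nat.mem_divisors.2 ⟨?_, ?_⟩⟩
          · change q ∣ ((n f : ℤ) - n g).natAbs
            rw [← Int.natCast_dvd]
            have h1 := hq.2
            rw [hc2 f q hfq, hc2 g q hgq] at h1
            exact (Nat.modEq_iff_dvd).1 h1.symm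
          · change ((n f : ℤ) - n g).natAbs ≠ 0
            have := hn2 f hf g hg hfg
            omega
    exact (card_le_card hsub).trans card_biUnion_le

end Pool.Agent.X60.PolyFam
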