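import Mathlib

/-!
# Induced trees in infinite graphs that contain the infinitely branching tree

A graph on the finite words over `ℕ` in which every word `u` is adjacent to all words `n :: u`, and
in which no `t` vertices have infinitely many common neighbours, contains every finite tree as an
induced subgraph.
-/

set_option autoImplicit false

namespace Pool.Agent.X60.GenTree

open Filter

/-- `gen k p u`: for generic (in the sense of a fixed nonprincipal ultrafilter) letters
`n₁, …, n_k`, chosen one after the other, `p` holds for the word `n_k :: … :: n₁ :: u`. -/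
def gen : ℕ → (List ℕ → Prop) → List ℕ → Prop
  | 0, p, u => p u
  | (k + 1), p, u => ∀ᶠ n in (hyperfilter ℕ : Filter ℕ), gen k p (n :: u)

lemma gen_zero (p : List ℕ → Prop) (u : List ℕ) : gen 0 p u ↔ p u := Iff.rfl

lemma gen_succ (k : ℕ) (p : List ℕ → Prop) (u : List ℕ) :
    gen (k + 1) p u ↔ ∀ᶠ n in (hyperfilter ℕ : Filter ℕ), gen k p (n :: u) := Iff.rfl

lemma gen_mono {p q : List ℕ → Prop} : ∀ (k : ℕ) (u : List ℕ),
    (∀ s : List ℕ, s.length = k → p (s ++ u) → q (s ++ u)) → gen k p u → gen k q u := by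
  intro k
  induction k with
  | zero => intro u h hp; exact h [] rfl hp
  | succ k ih =>
    intro u h hp
    rw [gen_succ] at hp ⊢
    filter_upwards [hp] with n hn
    refine ih (n :: u) ?_ hn
    intro s hs hps
    have := h (s ++ [n]) (by simp [hs])
    simpa using this (by simpa using hps)

lemma gen_of_forall {p : List ℕ → Prop} : ∀ (k : ℕ) (u : List ℕ),
    (∀ s : List ℕ, s.length = k → p (s ++ u)) → gen k p u := by
  intro k
  induction k with
  | zero => intro u h; exact h [] rfl
  | succ k ih =>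
    intro u h
    rw [gen_succ]
    refine Eventually.of_forall fun n => ih (n :: u) ?_
    intro s hs
    simpa using h (s ++ [n]) (by simp [hs])

lemma gen_and {p q : List ℕ → Prop} : ∀ (k : ℕ) (u : List ℕ), gen k p u → gen k q u →
    gen k (fun w => p w ∧ q w) u := by
  intro k
  induction k with
  | zero => intro u h1 h2; exact ⟨h1, h2⟩
  | succ k ih =>
    intro u h1 h2
    rw [gen_succ] at h1 h2 ⊢
    filter_upwards [h1, h2] with n a b
    exact ih _ a b

lemma gen_not {p : List ℕ → Prop} : ∀ (k : ℕ) (u : List ℕ), ¬ gen k p u →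
    gen k (fun w => ¬ p w) u := by
  intro k
  induction k with
  | zero => intro u h; exact h
  | succ k ih =>
    intro u h
    rw [gen_succ] at h ⊢
    rw [← Ultrafilter.eventually_not] at h
    filter_upwards [h] with n hn
    exact ih _ hn

lemma gen_add {p : List ℕ → Prop} (b : ℕ) : ∀ (a : ℕ) (u : List ℕ),
    gen (a + b) p u ↔ gen a (gen b p) u := by
  intro a
  induction a with
  | zero => intro u; rw [Nat.zero_add]; rfl
  | succ a ih =>
    intro u
    rw [Nat.add_right_comm, gen_succ, gen_succ]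
    constructor
    · intro h
      filter_upwards [h] with n hn
      exact (ih _).1 hn
    · intro h
      filter_upwards [h] with n hn
      exact (ih _).2 hn

lemma gen_exists {p : List ℕ → Prop} : ∀ (k : ℕ) (u : List ℕ), gen k p u →
    ∃ s : List ℕ, s.length = k ∧ p (s ++ u) := by
  intro k
  induction k with
  | zero => intro u h; exact ⟨[], rfl, h⟩
  | succ k ih =>
    intro u h
    rw [gen_succ] at h
    obtain ⟨n, hn⟩ := h.exists
    obtain ⟨s, hs, hp⟩ := ih _ hn
    exact ⟨s ++ [n], by simp [hs], by simpa using hp⟩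

lemma gen_ball {ι : Type} {p : ι → List ℕ → Prop} (k : ℕ) (u : List ℕ) (s : Set ι) (hs : s.Finite)
    (h : ∀ i ∈ s, gen k (p i) u) : gen k (fun w => ∀ i ∈ s, p i w) u := by
  induction s, hs using Set.Finite.induction_on with
  | empty => exact gen_of_forall k u (fun s _ i hi => absurd hi (Set.notMem_empty i))
  | @insert a s _ _ ih =>
    have h1 := h a (Set.mem_insert a s)
    have h2 := ih (fun i hi => h i (Set.mem_insert_of_mem a hi))
    refine gen_mono k u ?_ (gen_and k u h1 h2)
    rintro w - ⟨h3, h4⟩ i hi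
    rcases hi with rfl | hi
    · exact h3
    · exact h4 i hi

lemma infinite_of_eventually {p : ℕ → Prop}
    (h : ∀ᶠ n in (hyperfilter ℕ : Filter ℕ), p n) : {n | p n}.Infinite := by
  intro hfin
  exact hfin.notMem_hyperfilter h

/-- A generic property of proper extensions holds for infinitely many words. -/
lemma gen_infinite {p : List ℕ → Prop} {k : ℕ} (hk : 1 ≤ k) {u : List ℕ} (h : gen k p u) :
    {w | p w}.Infinite := by
  obtain ⟨j, rfl⟩ : ∃ j, k = j + 1 := ⟨k - 1, by omega⟩
  rw [gen_succ] at h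
  have h1 := infinite_of_eventually h
  have h2 : ∀ n : {n | gen j p (n :: u)}, ∃ s : List ℕ, s.length = j ∧ p (s ++ n.1 :: u) :=
    fun n => gen_exists j _ n.2
  choose s hs hp using h2
  have : Infinite {n | gen j p (n :: u)} := h1.to_subtype
  have hinj : Function.Injective (fun n : {n | gen j p (n :: u)} => s n ++ n.1 :: u) := by
    intro a b hab
    have h3 : (s a ++ a.1 :: u).drop j = (s b ++ b.1 :: u).drop j := congrArg (List.drop j) hab
    rw [List.drop_left' (hs a), List.drop_left' (hs b)] at h3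
    exact Subtype.ext (List.cons.inj h3).1
  refine (Set.infinite_range_of_injective hinj).mono ?_
  rintro _ ⟨n, rfl⟩
  exact hp n

/-- the suffix of length `i` -/
def anc (i : ℕ) (w : List ℕ) : List ℕ := w.drop (w.length - i)

lemma anc_length {i : ℕ} {w : List ℕ} (h : i ≤ w.length) : (anc i w).length = i := by
  unfold anc
  rw [List.length_drop]
  omega

lemma anc_append {i : ℕ} {u : List ℕ} (s : List ℕ) (h : i ≤ u.length) :
    anc i (s ++ u) = anc i u := by
  unfold anc
  rw [List.length_append, List.drop_append]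
  have h1 : s.length + u.length - i - s.length = u.length - i := by omega
  rw [h1]
  have h2 : s.drop (s.length + u.length - i) = [] := by
    rw [List.drop_eq_nil_iff]
    omega
  rw [h2, List.nil_append]

lemma anc_self {w : List ℕ} : anc w.length w = w := by
  unfold anc
  simp

lemma anc_suffix (i : ℕ) (w : List ℕ) : anc i w <:+ w := List.drop_suffix _ _

lemma suffix_eq_anc {u w : List ℕ} (h : u <:+ w) : u = anc u.length w := by
  obtain ⟨s, rfl⟩ := h
  rw [anc_append s le_rfl, anc_self]

/-! ### increasing induced paths -/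

section path

variable (E : ℕ → ℕ → Prop) (D : ℕ)

/-- `x` reaches `D` by an increasing path with at most `s` steps -/
inductive Rch : ℕ → ℕ → Prop
  | base (s : ℕ) : Rch s D
  | step {s x y : ℕ} (h : x < y) (hE : E x y) (hy : Rch s y) : Rch (s + 1) x

variable {E D}

lemma Rch.mono {s x : ℕ} (h : Rch E D s x) : Rch E D (s + 1) x := by
  induction h with
  | base s => exact Rch.base _
  | step h hE _ ih => exact Rch.step h hE ih

lemma Rch.le {s x : ℕ} (h : Rch E D s x) : x ≤ D := by
  induction h with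
  | base s => exact le_rfl
  | step h hE _ ih => omega

lemma Rch.down (hE : ∀ i, E i (i + 1)) : ∀ s, s ≤ D → Rch E D s (D - s) := by
  intro s
  induction s with
  | zero => intro _; exact Rch.base 0
  | succ s ih =>
    intro hs
    refine Rch.step (y := D - s) (by omega) ?_ (ih (by omega))
    have : D - s = D - (s + 1) + 1 := by omega
    rw [this]
    exact hE _

lemma Rch.finite {t : ℕ} (hb : ∀ j, ∀ I : Finset ℕ, (∀ i ∈ I, i < j ∧ E i j) → I.card ≤ t) :
    ∀ s, ∃ I : Finset ℕ, I.card ≤ (t + 1) ^ s ∧ ∀ x, Rch E D s x → x ∈ I := by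
  classical
  intro s
  induction s with
  | zero =>
    refine ⟨{D}, by simp, ?_⟩
    intro x hx
    cases hx
    simp
  | succ s ih =>
    obtain ⟨I, hI, hm⟩ := ih
    refine ⟨I ∪ I.biUnion (fun j => (Finset.range j).filter (fun i => E i j)), ?_, ?_⟩
    · refine (Finset.card_union_le _ _).trans ?_
      have h1 : (I.biUnion (fun j => (Finset.range j).filter (fun i => E i j))).card ≤ I.card * t := by
        apply Finset.card_biUnion_le_card_mul
        intro j _
        apply hb j
        intro i hi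
        rw [Finset.mem_filter, Finset.mem_range] at hi
        exact hi
      calc _ ≤ I.card + I.card * t := by omega
        _ = I.card * (t + 1) := by ring
        _ ≤ (t + 1) ^ s * (t + 1) := Nat.mul_le_mul_right _ hI
        _ = (t + 1) ^ (s + 1) := (pow_succ _ _).symm
    · intro x hx
      rw [Finset.mem_union]
      cases hx with
      | base => exact Or.inl (hm _ (Rch.base s))
      | @step s' x' y h hE hy =>
        right
        rw [Finset.mem_biUnion]
        exact ⟨y, hm _ hy, Finset.mem_filter.2 ⟨Finset.mem_range.2 h, hE⟩⟩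

/-- Increasing induced paths of any length. -/
theorem exists_path {E : ℕ → ℕ → Prop} {t : ℕ} (hE : ∀ i, E i (i + 1))
    (hb : ∀ j, ∀ I : Finset ℕ, (∀ i ∈ I, i < j ∧ E i j) → I.card ≤ t) (L : ℕ) :
    ∃ l : ℕ → ℕ, 1 ≤ l 0 ∧ ∀ a b, a < b → b ≤ L → l a < l b ∧ (E (l a) (l b) ↔ b = a + 1) := by
  classical
  set D := (t + 1) ^ L + 1 with hD
  obtain ⟨I, hI, hm⟩ := Rch.finite (D := D) hb L
  obtain ⟨x, hx1, hx2⟩ : ∃ x ∈ Finset.Icc 1 D, x ∉ I := by
    by_contra hcon
    push Not at hcon
    have := Finset.card_le_card hcon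
    rw [Nat.card_Icc] at this
    omega
  rw [Finset.mem_Icc] at hx1
  -- the distance to `D`
  have hex : ∀ y, y ≤ D → ∃ s, Rch E D s y := by
    intro y hy
    refine ⟨D - y, ?_⟩
    have := Rch.down (D := D) hE (D - y) (by omega)
    have h2 : D - (D - y) = y := by omega
    rwa [h2] at this
  have hdist : ∃ δ : ℕ → ℕ, ∀ y, y ≤ D → Rch E D (δ y) y ∧ ∀ s, Rch E D s y → δ y ≤ s := by
    refine ⟨fun y => if h : ∃ s, Rch E D s y then Nat.find h else 0, ?_⟩
    intro y hy
    have h := hex y hy
    simp only [h, dif_pos]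
    exact ⟨Nat.find_spec h, fun s hs => Nat.find_min' h hs⟩
  obtain ⟨δ, hδ⟩ := hdist
  have hδx : L < δ x := by
    by_contra hcon
    push Not at hcon
    apply hx2
    apply hm
    have h1 := (hδ x hx1.2).1
    have h2 : ∀ k, Rch E D (δ x + k) x := by
      intro k
      induction k with
      | zero => exact h1
      | succ k ih => exact ih.mono
    have h3 := h2 (L - δ x)
    rwa [Nat.add_sub_cancel' hcon] at h3
  -- the next vertex
  have hnext : ∀ y, y ≤ D → 0 < δ y → ∃ z, z ≤ D ∧ y < z ∧ E y z ∧ δ z + 1 = δ y := by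
    intro y hy hpos
    obtain ⟨h1, h2⟩ := hδ y hy
    obtain ⟨d, hd⟩ : ∃ d, δ y = d + 1 := ⟨δ y - 1, by omega⟩
    rw [hd] at h1 h2
    cases h1 with
    | base =>
      have := h2 0 (Rch.base 0)
      omega
    | @step _ _ z h hEz hz =>
      have hzD := hz.le
      refine ⟨z, hzD, h, hEz, ?_⟩
      obtain ⟨h3, h4⟩ := hδ z hzD
      have h5 := h4 d hz
      have h6 := h2 (δ z + 1) (Rch.step h hEz h3)
      omega
  have hnext' : ∃ nx : ℕ → ℕ, ∀ y, y ≤ D → 0 < δ y →
      nx y ≤ D ∧ y < nx y ∧ E y (nx y) ∧ δ (nx y) + 1 = δ y := by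
    refine ⟨fun y => if h : y ≤ D ∧ 0 < δ y then (hnext y h.1 h.2).choose else 0, ?_⟩
    intro y hy hpos
    have h : y ≤ D ∧ 0 < δ y := ⟨hy, hpos⟩
    simp only [h, and_self, dif_pos]
    exact (hnext y hy hpos).choose_spec
  obtain ⟨nx, hnx⟩ := hnext'
  have hl : ∀ a, a ≤ δ x → (nx^[a] x) ≤ D ∧ δ (nx^[a] x) + a = δ x := by
    intro a
    induction a with
    | zero => intro _; exact ⟨hx1.2, by simp⟩
    | succ a ih =>
      intro ha
      obtain ⟨h1, h2⟩ := ih (by omega)
      obtain ⟨h3, h4, h5, h6⟩ := hnx _ h1 (by omega)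
      rw [Function.iterate_succ_apply']
      exact ⟨h3, by omega⟩
  have hlt : ∀ a, a < δ x → nx^[a] x < nx^[a + 1] x ∧ E (nx^[a] x) (nx^[a + 1] x) := by
    intro a ha
    obtain ⟨h1, h2⟩ := hl a ha.le
    obtain ⟨h3, h4, h5, h6⟩ := hnx _ h1 (by omega)
    rw [Function.iterate_succ_apply']
    exact ⟨h4, h5⟩
  have hlt' : ∀ k a, a + k + 1 ≤ δ x → nx^[a] x < nx^[a + k + 1] x := by
    intro k
    induction k with
    | zero => intro a ha; exact (hlt a (by omega)).1
    | succ k ih =>
      intro a ha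
      exact (ih a (by omega)).trans (hlt (a + k + 1) (by omega)).1
  refine ⟨fun a => nx^[a] x, hx1.1, ?_⟩
  intro a b hab hbL
  have h1 : nx^[a] x < nx^[b] x := by
    have := hlt' (b - a - 1) a (by omega)
    have h2 : a + (b - a - 1) + 1 = b := by omega
    rwa [h2] at this
  refine ⟨h1, ?_, ?_⟩
  · intro hEab
    obtain ⟨h2, h3⟩ := hl a (by omega)
    obtain ⟨h4, h5⟩ := hl b (by omega)
    have h6 := (hδ _ h2).2 (δ (nx^[b] x) + 1) (Rch.step h1 hEab (hδ _ h4).1)
    omega
  · rintro rfl
    exact (hlt a (by omega)).2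

end path


/-! ### the graph -/

section main

variable {H : SimpleGraph (List ℕ)} {t : ℕ}

/-- generic words of length `j` are adjacent to their suffix of length `i` -/
def EE (H : SimpleGraph (List ℕ)) (i j : ℕ) : Prop := gen j (fun w => H.Adj (anc i w) w) []

lemma EE_succ (htree : ∀ (u : List ℕ) (n : ℕ), H.Adj u (n :: u)) (i : ℕ) : EE H i (i + 1) := by
  unfold EE
  apply gen_of_forall
  intro s hs
  rw [List.append_nil]
  rcases s with _ | ⟨n, s⟩
  · simp at hs
  · have h1 : s.length = i := by simpa using hs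
    have h2 : anc i (n :: s) = s := by
      have := anc_append (i := i) (u := s) [n] h1.ge
      rw [List.singleton_append] at this
      rw [this, ← h1, anc_self]
    rw [h2]
    exact htree s n

lemma EE_back (hfree : ∀ A : Finset (List ℕ), A.card = t → ¬ {b | ∀ a ∈ A, H.Adj a b}.Infinite)
    (j : ℕ) (I : Finset ℕ) (hI : ∀ i ∈ I, i < j ∧ EE H i j) : I.card ≤ t := by
  classical
  by_contra hcon
  push Not at hcon
  obtain ⟨J, hJI, hJ⟩ := Finset.exists_subset_card_eq hcon.le
  rcases Nat.eq_zero_or_pos j with rfl | hj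
  · have : I = ∅ := by
      apply Finset.eq_empty_of_forall_notMem
      intro i hi
      exact absurd (hI i hi).1 (Nat.not_lt_zero i)
    rw [this] at hcon
    simp at hcon
  obtain ⟨k, rfl⟩ : ∃ k, j = k + 1 := ⟨j - 1, by omega⟩
  have h1 : gen (k + 1) (fun w => ∀ i ∈ (J : Set ℕ), H.Adj (anc i w) w) [] :=
    gen_ball (k + 1) [] (J : Set ℕ) J.finite_toSet (fun i hi => (hI i (hJI hi)).2)
  rw [gen_add] at h1
  obtain ⟨s, hs, h2⟩ := gen_exists k _ h1
  rw [List.append_nil] at h2
  have h3 := infinite_of_eventually (p := fun n => ∀ i ∈ (J : Set ℕ), H.Adj (anc i (n :: s)) (n :: s))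
    h2
  have hanc : ∀ i ∈ J, ∀ n : ℕ, anc i (n :: s) = anc i s := by
    intro i hi n
    have := (hI i (hJI hi)).1
    have h := anc_append (i := i) (u := s) [n] (by omega)
    rwa [List.singleton_append] at h
  have hcard : (J.image (fun i => anc i s)).card = t := by
    rw [Finset.card_image_of_injOn, hJ]
    intro a ha b hb hab
    have h4 := (hI a (hJI ha)).1
    have h5 := (hI b (hJI hb)).1
    have h6 := congrArg List.length hab
    simp only at h6
    rw [anc_length (by omega), anc_length (by omega)] at h6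
    exact h6
  apply hfree _ hcard
  have hinj : Set.InjOn (fun n : ℕ => n :: s)
      {n | ∀ i ∈ (J : Set ℕ), H.Adj (anc i (n :: s)) (n :: s)} := by
    intro a _ b _ hab
    exact (List.cons.inj hab).1
  refine (h3.image hinj).mono ?_
  rintro _ ⟨n, hn, rfl⟩
  intro a ha
  rw [Finset.mem_image] at ha
  obtain ⟨i, hi, rfl⟩ := ha
  have := hn i hi
  rwa [hanc i hi n] at this

variable (H) in
/-- the generic extensions of `u`, of length `l s`, have the right adjacencies to their suffixes -/
def Good (l : ℕ → ℕ) (d δ : ℕ) (u : List ℕ) : Prop :=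
  ∀ r s, r < s → s ≤ d → δ < s →
    gen (l s - l δ) (fun w => H.Adj (anc (l r) w) w ↔ s = r + 1) u

variable (H) in
/-- `y` is not adjacent to the generic extensions of `u` -/
def NA (M : ℕ) (y u : List ℕ) : Prop :=
  ∀ k, 1 ≤ k → u.length + k ≤ M → gen k (fun w => ¬ H.Adj y w) u

lemma gen_P {l : ℕ → ℕ} {d : ℕ}
    (hl : ∀ a b, a < b → b ≤ d → l a < l b ∧ (EE H (l a) (l b) ↔ b = a + 1)) {r s : ℕ} (hrs : r < s)
    (hs : s ≤ d) : gen (l s) (fun w => H.Adj (anc (l r) w) w ↔ s = r + 1) [] := by
  obtain ⟨_, h2⟩ := hl r s hrs hs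
  by_cases h : s = r + 1
  · have h3 : gen (l s) (fun w => H.Adj (anc (l r) w) w) [] := h2.2 h
    refine gen_mono _ _ ?_ h3
    intro w _ hw
    exact ⟨fun _ => h, fun _ => hw⟩
  · have h3 : ¬ gen (l s) (fun w => H.Adj (anc (l r) w) w) [] := fun hc => h (h2.1 hc)
    refine gen_mono _ _ ?_ (gen_not _ _ h3)
    intro w _ hw
    exact ⟨fun hc => absurd hc hw, fun hc => absurd hc h⟩

lemma gen_Good_zero {l : ℕ → ℕ} {d : ℕ}
    (hl : ∀ a b, a < b → b ≤ d → l a < l b ∧ (EE H (l a) (l b) ↔ b = a + 1)) :
    gen (l 0) (Good H l d 0) [] := by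
  have h1 : gen (l 0) (fun w => ∀ p ∈ {p : ℕ × ℕ | p.1 < p.2 ∧ p.2 ≤ d},
      gen (l p.2 - l 0) (fun w => H.Adj (anc (l p.1) w) w ↔ p.2 = p.1 + 1) w) [] := by
    apply gen_ball
    · refine ((Set.finite_Iic d).prod (Set.finite_Iic d)).subset ?_
      rintro ⟨a, b⟩ ⟨h1, h2⟩
      exact ⟨by simp at h1 h2 ⊢; omega, h2⟩
    · rintro ⟨r, s⟩ ⟨h1, h2⟩
      simp only at h1 h2 ⊢
      rw [← gen_add]
      have h3 := (hl 0 s (by omega) h2).1
      have h4 : l 0 + (l s - l 0) = l s := by omega
      rw [h4]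
      exact gen_P hl h1 h2
  refine gen_mono _ _ ?_ h1
  intro w _ hw r s hrs hs _
  exact hw (r, s) ⟨hrs, hs⟩

lemma gen_Good_succ {l : ℕ → ℕ} {d : ℕ}
    (hl : ∀ a b, a < b → b ≤ d → l a < l b ∧ (EE H (l a) (l b) ↔ b = a + 1)) {δ : ℕ}
    (hδ : δ + 1 ≤ d) {u : List ℕ} (hu : Good H l d δ u) :
    gen (l (δ + 1) - l δ) (fun w => Good H l d (δ + 1) w ∧
      ∀ r, r ≤ δ → (H.Adj (anc (l r) w) w ↔ δ + 1 = r + 1)) u := by
  have h1 : gen (l (δ + 1) - l δ) (fun w => ∀ p ∈ {p : ℕ × ℕ | p.1 < p.2 ∧ p.2 ≤ d ∧ δ + 1 < p.2},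
      gen (l p.2 - l (δ + 1)) (fun w => H.Adj (anc (l p.1) w) w ↔ p.2 = p.1 + 1) w) u := by
    apply gen_ball
    · refine ((Set.finite_Iic d).prod (Set.finite_Iic d)).subset ?_
      rintro ⟨a, b⟩ ⟨h1, h2, h3⟩
      exact ⟨by simp at h1 h2 ⊢; omega, h2⟩
    · rintro ⟨r, s⟩ ⟨h1, h2, h3⟩
      simp only at h1 h2 h3 ⊢
      rw [← gen_add]
      have h4 := (hl δ (δ + 1) (by omega) hδ).1
      have h5 := (hl (δ + 1) s h3 h2).1
      have h6 : l (δ + 1) - l δ + (l s - l (δ + 1)) = l s - l δ := by omega
      rw [h6]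
      exact hu r s h1 h2 (by omega)
  have h2 : gen (l (δ + 1) - l δ) (fun w => ∀ r ∈ Set.Iic δ,
      (H.Adj (anc (l r) w) w ↔ δ + 1 = r + 1)) u := by
    apply gen_ball _ _ _ (Set.finite_Iic δ)
    intro r hr
    rw [Set.mem_Iic] at hr
    exact hu r (δ + 1) (by omega) hδ (by omega)
  refine gen_mono _ _ ?_ (gen_and _ _ h1 h2)
  rintro w - ⟨h3, h4⟩
  exact ⟨fun r s hrs hs hδs => h3 (r, s) ⟨hrs, hs, hδs⟩, fun r hr => h4 r hr⟩

lemma gen_NA_left {M : ℕ} {y u : List ℕ} (h : NA H M y u) (k : ℕ) (hk : 1 ≤ k)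
    (hM : u.length + k ≤ M) : gen k (fun w => ¬ H.Adj y w ∧ NA H M y w) u := by
  have h1 : gen k (fun w => ∀ j ∈ Set.Icc 1 M, u.length + k + j ≤ M →
      gen j (fun w => ¬ H.Adj y w) w) u := by
    apply gen_ball _ _ _ (Set.finite_Icc 1 M)
    intro j hj
    rw [Set.mem_Icc] at hj
    by_cases hjM : u.length + k + j ≤ M
    · have h2 := h (k + j) (by omega) (by omega)
      rw [gen_add] at h2
      exact gen_mono _ _ (fun s _ hs _ => hs) h2
    · exact gen_of_forall _ _ (fun s _ hs => absurd hs hjM)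
  refine gen_mono _ _ ?_ (gen_and _ _ (h k hk hM) h1)
  rintro s hs ⟨h2, h3⟩
  refine ⟨h2, ?_⟩
  intro j hj hjM
  rw [List.length_append, hs] at hjM
  exact h3 j ⟨hj, by omega⟩ (by omega)

lemma gen_NA_right (hfree : ∀ A : Finset (List ℕ), A.card = t → ¬ {b | ∀ a ∈ A, H.Adj a b}.Infinite)
    (M : ℕ) (v u : List ℕ) (k : ℕ) (hk : 1 ≤ k) : gen k (fun w => NA H M w u) v := by
  have h1 : gen k (fun w => ∀ j ∈ Set.Icc 1 M, gen j (fun x => ¬ H.Adj w x) u) v := by
    apply gen_ball _ _ _ (Set.finite_Icc 1 M)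
    intro j hj
    rw [Set.mem_Icc] at hj
    by_contra hcon
    have h2 := gen_not _ _ hcon
    have h3 : gen k (fun w => gen j (fun x => H.Adj w x) u) v := by
      refine gen_mono _ _ ?_ h2
      intro s _ hs
      refine gen_mono _ _ ?_ (gen_not _ _ hs)
      intro x _ hx
      exact not_not.1 hx
    have h4 := gen_infinite hk h3
    obtain ⟨A, hA, hAc⟩ := h4.exists_subset_card_eq t
    have h5 : gen j (fun x => ∀ a ∈ (A : Set (List ℕ)), H.Adj a x) u :=
      gen_ball j u (A : Set (List ℕ)) A.finite_toSet (fun a ha => hA ha)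
    exact hfree A hAc (gen_infinite hj.1 h5)
  refine gen_mono _ _ ?_ h1
  intro s _ hs j hj hjM
  exact hs j ⟨hj, by omega⟩

lemma gen_ne (y u : List ℕ) (k : ℕ) (hk : 1 ≤ k) : gen k (fun w => w ≠ y) u := by
  apply gen_not
  intro h
  apply gen_infinite hk h
  exact (Set.finite_singleton y).subset (fun w hw => hw)

/-- The embedding of finite trees. -/
theorem embed_tree (htree : ∀ (u : List ℕ) (n : ℕ), H.Adj u (n :: u))
    (hfree : ∀ A : Finset (List ℕ), A.card = t → ¬ {b | ∀ a ∈ A, H.Adj a b}.Infinite)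
    {l : ℕ → ℕ} {d : ℕ}
    (hl : ∀ a b, a < b → b ≤ d → l a < l b ∧ (EE H (l a) (l b) ↔ b = a + 1)) :
    ∀ (N : ℕ) (α : Type) [Fintype α] (T : SimpleGraph α), T.IsTree → Fintype.card α = N + 1 →
      N ≤ d → ∃ (φ : α → List ℕ) (δ : α → ℕ),
        (∀ a, δ a ≤ N ∧ (φ a).length = l (δ a) ∧ Good H l d (δ a) (φ a)) ∧
        Function.Injective φ ∧
        (∀ a b, ¬ φ a <:+ φ b → NA H (l d) (φ a) (φ b)) ∧
        ∀ a b, T.Adj a b ↔ H.Adj (φ a) (φ b) := by
  classical
  have hmono : ∀ a b, a ≤ b → b ≤ d → l a ≤ l b := by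
    intro a b hab hb
    rcases Nat.lt_or_ge a b with h | h
    · exact (hl a b h hb).1.le
    · rw [le_antisymm hab h]
  intro N
  induction N with
  | zero =>
    intro α _ T _ hcard _
    obtain ⟨s, hs, hg⟩ := gen_exists (l 0) _ (gen_Good_zero hl)
    rw [List.append_nil] at hg
    have hsub : Subsingleton α := Fintype.card_le_one_iff_subsingleton.1 (by omega)
    refine ⟨fun _ => s, fun _ => 0, fun a => ⟨le_rfl, hs, hg⟩, ?_, ?_, ?_⟩
    · intro a b _
      exact Subsingleton.elim a b
    · intro a b h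
      exact absurd (List.suffix_refl s) h
    · intro a b
      rw [Subsingleton.elim a b]
      simp
  | succ N ih =>
    intro α _ T hT hcard hNd
    have hnt : Nontrivial α := Fintype.one_lt_card_iff_nontrivial.1 (by omega)
    obtain ⟨z, hz⟩ := hT.exists_vert_degree_one_of_nontrivial
    have hconn := hT.connected.induce_compl_singleton_of_degree_eq_one hz
    have hT' : (T.induce ({z}ᶜ : Set α)).IsTree := ⟨hconn, hT.isAcyclic.induce _⟩
    have hcard' : Fintype.card ({z}ᶜ : Set α) = N + 1 := by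
      rw [Fintype.card_compl_set]
      simp [hcard]
    obtain ⟨φ, δ, h1, h2, h3, h4⟩ := ih ({z}ᶜ : Set α) (T.induce ({z}ᶜ : Set α)) hT' hcard'
      (by omega)
    obtain ⟨v, hv, hvu⟩ := SimpleGraph.degree_eq_one_iff_existsUnique_adj.1 hz
    have hvz : v ≠ z := hv.ne'
    have hvmem : v ∈ ({z}ᶜ : Set α) := hvz
    set v' : ({z}ᶜ : Set α) := ⟨v, hvmem⟩ with hv'
    obtain ⟨hδ1, hδ2, hδ3⟩ := h1 v'
    set k := l (δ v' + 1) - l (δ v') with hk
    have hlt := (hl (δ v') (δ v' + 1) (by omega) (by omega)).1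
    have hk1 : 1 ≤ k := by omega
    have hlen : (φ v').length + k ≤ l d := by
      have := hmono (δ v' + 1) d (by omega) le_rfl
      omega
    -- the generic conditions
    have g1 := gen_Good_succ hl (δ := δ v') (by omega) hδ3
    have g2 : gen k (fun w => ∀ u ∈ (Set.univ : Set ({z}ᶜ : Set α)),
        (φ u <:+ φ v' ∨ (¬ H.Adj (φ u) w ∧ NA H (l d) (φ u) w)) ∧ NA H (l d) w (φ u) ∧
          w ≠ φ u) (φ v') := by
      apply gen_ball _ _ _ Set.finite_univ
      intro u _
      refine gen_and _ _ ?_ (gen_and _ _ (gen_NA_right hfree (l d) (φ v') (φ u) k hk1)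
        (gen_ne (φ u) (φ v') k hk1))
      by_cases hs : φ u <:+ φ v'
      · exact gen_of_forall _ _ (fun _ _ => Or.inl hs)
      · exact gen_mono _ _ (fun _ _ h => Or.inr h) (gen_NA_left (h3 u v' hs) k hk1 hlen)
    obtain ⟨s, hs, ⟨hgood, hadj⟩, hrest⟩ := gen_exists _ _ (gen_and _ _ g1 g2)
    set w := s ++ φ v' with hw
    have hwlen : w.length = l (δ v' + 1) := by
      rw [hw, List.length_append, hs]
      omega
    -- adjacencies of the new word
    have hnew : ∀ u, H.Adj (φ u) w ↔ u = v' := by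
      intro u
      by_cases hsuf : φ u <:+ φ v'
      · have e1 : φ u = anc (l (δ u)) w := by
          rw [← (h1 u).2.1, hw, anc_append s hsuf.length_le]
          exact suffix_eq_anc hsuf
        have e2 : δ u ≤ δ v' := by
          by_contra hcon
          push Not at hcon
          have e3 := (hl _ _ hcon (by have := (h1 u).1; omega)).1
          have e4 := hsuf.length_le
          rw [(h1 u).2.1, hδ2] at e4
          omega
        have e3 := hadj (δ u) e2
        rw [← e1] at e3
        rw [e3]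
        constructor
        · intro e4
          have e5 : δ u = δ v' := by omega
          apply h2
          apply hsuf.eq_of_length
          rw [(h1 u).2.1, hδ2, e5]
        · rintro rfl
          rfl
      · have e1 : ¬ H.Adj (φ u) w := by
          rcases (hrest u (Set.mem_univ u)).1 with h | h
          · exact absurd h hsuf
          · exact h.1
        constructor
        · intro h
          exact absurd h e1
        · rintro rfl
          exact absurd (List.suffix_refl _) hsuf
    have hTz : ∀ a, T.Adj z a ↔ a = v := fun a => ⟨fun h => hvu a h, by rintro rfl; exact hv⟩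
    refine ⟨fun a => if h : a = z then w else φ ⟨a, h⟩,
      fun a => if h : a = z then δ v' + 1 else δ ⟨a, h⟩, ?_, ?_, ?_, ?_⟩
    · intro a
      by_cases ha : a = z
      · simp only [ha, dif_pos]
        exact ⟨by omega, hwlen, hgood⟩
      · simp only [ha, dif_neg, not_false_iff]
        have := h1 ⟨a, ha⟩
        exact ⟨by omega, this.2⟩
    · intro a b hab
      by_cases ha : a = z
      · by_cases hb : b = z
        · rw [ha, hb]
        · simp only [ha, hb, dif_pos, dif_neg, not_false_iff] at hab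
          exact absurd hab (hrest ⟨b, hb⟩ (Set.mem_univ _)).2.2
      · by_cases hb : b = z
        · simp only [ha, hb, dif_pos, dif_neg, not_false_iff] at hab
          exact absurd hab.symm (hrest ⟨a, ha⟩ (Set.mem_univ _)).2.2
        · simp only [ha, hb, dif_neg, not_false_iff] at hab
          exact congrArg Subtype.val (h2 hab)
    · intro a b hab
      by_cases ha : a = z
      · by_cases hb : b = z
        · simp only [ha, hb, dif_pos] at hab
          exact absurd (List.suffix_refl _) hab
        · simp only [ha, hb, dif_pos, dif_neg, not_false_iff]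
          exact (hrest ⟨b, hb⟩ (Set.mem_univ _)).2.1
      · by_cases hb : b = z
        · simp only [ha, hb, dif_pos, dif_neg, not_false_iff] at hab ⊢
          rcases (hrest ⟨a, ha⟩ (Set.mem_univ _)).1 with h | h
          · exact absurd (h.trans (List.suffix_append s (φ v'))) hab
          · exact h.2
        · simp only [ha, hb, dif_neg, not_false_iff] at hab ⊢
          exact h3 _ _ hab
    · intro a b
      by_cases ha : a = z
      · by_cases hb : b = z
        · simp only [ha, hb, dif_pos, SimpleGraph.irrefl]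
        · simp only [ha, hb, dif_pos, dif_neg, not_false_iff]
          rw [hTz b, H.adj_comm, hnew ⟨b, hb⟩]
          exact ⟨fun h => Subtype.ext h, fun h => congrArg Subtype.val h⟩
      · by_cases hb : b = z
        · simp only [ha, hb, dif_pos, dif_neg, not_false_iff]
          rw [T.adj_comm, hTz a, hnew ⟨a, ha⟩]
          exact ⟨fun h => Subtype.ext h, fun h => congrArg Subtype.val h⟩
        · simp only [ha, hb, dif_neg, not_false_iff]
          exact h4 ⟨a, ha⟩ ⟨b, hb⟩

/-- **Induced trees.**  A graph on the finite words in which every word `u` is adjacent to the words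
`n :: u` and no `t` vertices have infinitely many common neighbours contains every finite tree as an
induced subgraph. -/
theorem exists_embedding (htree : ∀ (u : List ℕ) (n : ℕ), H.Adj u (n :: u))
    (hfree : ∀ A : Finset (List ℕ), A.card = t → ¬ {b | ∀ a ∈ A, H.Adj a b}.Infinite)
    (α : Type) [Fintype α] (T : SimpleGraph α) (hT : T.IsTree) : Nonempty (T ↪g H) := by
  have hpos : 0 < Fintype.card α := Fintype.card_pos_iff.2 hT.connected.nonempty
  obtain ⟨l, -, hl⟩ := exists_path (EE_succ htree) (fun j I hI => EE_back hfree j I hI)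
    (Fintype.card α - 1)
  obtain ⟨φ, δ, -, h2, -, h4⟩ := embed_tree htree hfree hl (Fintype.card α - 1) α T hT (by omega)
    le_rfl
  exact ⟨⟨⟨φ, h2⟩, fun {a b} => (h4 a b).symm⟩⟩

end main

end Pool.Agent.X60.GenTree
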