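import Pool.Agent.X60.GenTree
import Pool.Agent.H367R3.GSForest

/-!
# The Gyárfás–Sumner conjecture and added graphs without large bicliques: finite form
-/

set_option autoImplicit false

namespace Pool.Agent.X60.GenTree

open Filter

/-- The vertices of the complete `N`-ary tree of depth `N`: the words of length at most `N` over
`{0, …, N - 1}`. -/
def SN (N : ℕ) : Set (List ℕ) := {w | w.length ≤ N ∧ ∀ x ∈ w, x < N}

lemma SN_finite (N : ℕ) : (SN N).Finite := by
  refine ((List.finite_length_le (Fin N) N).image (List.map Fin.val)).subset ?_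
  rintro w ⟨h1, h2⟩
  have h3 : w ∈ Set.range (List.map (Fin.val : Fin N → ℕ)) := by
    rw [Set.range_list_map]
    intro x hx
    exact ⟨⟨x, h2 x hx⟩, rfl⟩
  obtain ⟨l, rfl⟩ := h3
  refine ⟨l, ?_, rfl⟩
  simpa using h1

/-- The complete `N`-ary tree of depth `N`: a word is adjacent to the words with one more letter in
front. -/
def TN (N : ℕ) : SimpleGraph (SN N) where
  Adj u v := (∃ n, v.1 = n :: u.1) ∨ (∃ n, u.1 = n :: v.1)
  symm := ⟨fun u v h => h.symm⟩
  loopless := ⟨fun u h => by
    rcases h with ⟨a, h⟩ | ⟨a, h⟩ <;> exact absurd (congrArg List.length h) (by simp)⟩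

theorem TN_acyclic (N : ℕ) : (TN N).IsAcyclic := by
  rw [SimpleGraph.isAcyclic_iff_forall_adj_isBridge]
  have key : ∀ x y : SN N, (∃ a, y.1 = a :: x.1) → (TN N).IsBridge s(x, y) := by
    rintro x y ⟨a, hy⟩
    rw [SimpleGraph.isBridge_iff]
    intro hreach
    have hinv : ∀ u v : SN N, ∀ p : ((TN N).deleteEdges {s(x, y)}).Walk u v,
        y.1 <:+ u.1 → y.1 <:+ v.1 := by
      intro u v p
      induction p with
      | nil => exact id
      | cons hadj _ ih =>
        rename_i u₁ u₂ u₃ _
        intro hu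
        apply ih
        rw [SimpleGraph.deleteEdges_adj] at hadj
        obtain ⟨⟨b, hb⟩ | ⟨b, hb⟩, hne⟩ := hadj
        · rw [hb]
          exact hu.trans (List.suffix_cons _ _)
        · rw [hb, List.suffix_cons_iff] at hu
          rcases hu with hu | hu
          · exfalso
            apply hne
            rw [hy] at hu
            obtain ⟨rfl, h2⟩ := List.cons.inj hu
            have h3 : x = u₂ := Subtype.ext h2
            have h4 : y = u₁ := Subtype.ext (by rw [hy, hb, h2])
            rw [h3, h4]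
            exact Sym2.eq_swap
          · exact hu
    obtain ⟨p⟩ := hreach
    have h1 := hinv y x p.reverse (List.suffix_refl _)
    have h2 := h1.length_le
    rw [hy] at h2
    simp at h2
  intro v w h
  rcases h with h | h
  · exact key v w h
  · rw [Sym2.eq_swap]
    exact key w v h

/-- no `t` vertices are all adjacent to `t` others: the graph does not contain `K_{t,t}` -/
def BicliqueFree {V : Type} (D : SimpleGraph V) (t : ℕ) : Prop :=
  ∀ A B : Finset V, A.card = t → B.card = t → ¬ ∀ a ∈ A, ∀ b ∈ B, D.Adj a b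

lemma eventually_mem (w : List ℕ) : ∀ᶠ N in (hyperfilter ℕ : Filter ℕ), w ∈ SN N := by
  have h : ∀ᶠ N in (atTop : Filter ℕ), w ∈ SN N := by
    have h1 : ∃ M, ∀ x ∈ w, x < M := by
      induction w with
      | nil => exact ⟨0, by simp⟩
      | cons a w ih =>
        obtain ⟨M, hM⟩ := ih
        refine ⟨max M (a + 1), ?_⟩
        intro x hx
        rcases List.mem_cons.1 hx with rfl | hx
        · have := le_max_right M (x + 1); omega
        · have := hM x hx
          have := le_max_left M (a + 1); omega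
    obtain ⟨M, hM⟩ := h1
    filter_upwards [eventually_ge_atTop (max M w.length)] with N hN
    exact ⟨(le_max_right _ _).trans hN, fun x hx => (hM x hx).trans_le ((le_max_left _ _).trans hN)⟩
  rw [← Nat.cofinite_eq_atTop] at h
  exact hyperfilter_le_cofinite h

/-- **Added graphs without bicliques, trees.** -/
theorem tree_of_added {m : ℕ} (T : SimpleGraph (Fin m)) (hT : T.IsTree) (t : ℕ) :
    ∃ N : ℕ, ∀ (V : Type) (G G₁ : SimpleGraph V), G₁ ≤ G → BicliqueFree (G \ G₁) t →
      ¬ Nonempty (T ↪g G) → ¬ Nonempty (TN N ↪g G₁) := by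
  classical
  by_contra hcon
  push Not at hcon
  choose V G G₁ hle hfree hTG hψ using hcon
  have ψ : ∀ N, TN N ↪g G₁ N := fun N => (hψ N).some
  have hnil : ∀ N, ([] : List ℕ) ∈ SN N := fun N => ⟨by simp, by simp⟩
  let φ : ∀ N, List ℕ → V N := fun N w => if h : w ∈ SN N then ψ N ⟨w, h⟩ else ψ N ⟨[], hnil N⟩
  have hφ : ∀ N w (h : w ∈ SN N), φ N w = ψ N ⟨w, h⟩ := fun N w h => dif_pos h
  have hφinj : ∀ N u v, u ∈ SN N → v ∈ SN N → φ N u = φ N v → u = v := by
    intro N u v hu hv h
    rw [hφ N u hu, hφ N v hv] at h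
    exact congrArg Subtype.val ((ψ N).injective h)
  let H : SimpleGraph (List ℕ) :=
    { Adj := fun u v => u ≠ v ∧ ∀ᶠ N in (hyperfilter ℕ : Filter ℕ), (G N).Adj (φ N u) (φ N v)
      symm := ⟨fun u v h => ⟨h.1.symm, h.2.mono (fun _ h' => h'.symm)⟩⟩
      loopless := ⟨fun u h => h.1 rfl⟩ }
  have hH : ∀ u v, H.Adj u v ↔ u ≠ v ∧
      ∀ᶠ N in (hyperfilter ℕ : Filter ℕ), (G N).Adj (φ N u) (φ N v) := fun _ _ => Iff.rfl
  -- the tree
  have htree : ∀ (u : List ℕ) (n : ℕ), H.Adj u (n :: u) := by
    intro u n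
    rw [hH]
    refine ⟨fun h => by simpa using congrArg List.length h, ?_⟩
    filter_upwards [eventually_mem u, eventually_mem (n :: u)] with N h1 h2
    rw [hφ N u h1, hφ N _ h2]
    apply hle N
    rw [(ψ N).map_adj_iff]
    exact Or.inl ⟨n, rfl⟩
  -- no large bicliques
  have hbic : ∀ A : Finset (List ℕ), A.card = t + 1 → ¬ {b | ∀ a ∈ A, H.Adj a b}.Infinite := by
    intro A hA hinf
    set B' : Set (List ℕ) := {b | ∀ a ∈ A, H.Adj a b} \ (A.image List.tail : Set (List ℕ)) with hB'
    have hB'inf : B'.Infinite := hinf.sdiff (Finset.finite_toSet _)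
    have hf : ∀ b : List ℕ, ∃ A' ⊆ A.erase b.tail, A'.card = t := by
      intro b
      apply Finset.exists_subset_card_eq
      have := Finset.pred_card_le_card_erase (s := A) (a := b.tail)
      omega
    choose f hf1 hf2 using hf
    obtain ⟨A', hA'⟩ : ∃ A', {b ∈ B' | f b = A'}.Infinite := by
      by_contra hcon
      push Not at hcon
      apply hB'inf
      refine ((A.powerset.finite_toSet).biUnion (fun A' _ => hcon A')).subset ?_
      intro b hb
      rw [Set.mem_iUnion₂]
      refine ⟨f b, ?_, hb, rfl⟩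
      rw [Finset.mem_coe, Finset.mem_powerset]
      exact (hf1 b).trans (Finset.erase_subset _ _)
    obtain ⟨B0, hB0, hB0c⟩ := hA'.exists_subset_card_eq t
    by_cases ht : t = 0
    · exact hfree 0 ∅ ∅ (by simp [ht]) (by simp [ht]) (by simp)
    have hA'c : A'.card = t := by
      obtain ⟨b, hb⟩ := Finset.card_pos.1 (by omega : 0 < B0.card)
      rw [← (hB0 hb).2]
      exact hf2 b
    have hev : ∀ᶠ N in (hyperfilter ℕ : Filter ℕ), ∀ a ∈ A', ∀ b ∈ B0,
        a ∈ SN N ∧ b ∈ SN N ∧ (G N).Adj (φ N a) (φ N b) := by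
      rw [Filter.eventually_all_finset]
      intro a ha
      rw [Filter.eventually_all_finset]
      intro b hb
      have haA : a ∈ A := by
        have h1 := (hB0 hb).2
        rw [← h1] at ha
        exact Finset.mem_of_mem_erase (hf1 b ha)
      have hab : H.Adj a b := (hB0 hb).1.1 a haA
      filter_upwards [eventually_mem a, eventually_mem b, hab.2] with N h1 h2 h3
      exact ⟨h1, h2, h3⟩
    obtain ⟨N, hN⟩ := hev.exists
    obtain ⟨b0, hb0⟩ := Finset.card_pos.1 (by omega : 0 < B0.card)
    obtain ⟨a0, ha0⟩ := Finset.card_pos.1 (by omega : 0 < A'.card)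
    apply hfree N (A'.image (φ N)) (B0.image (φ N))
    · rw [Finset.card_image_of_injOn, hA'c]
      intro a ha a' ha' h
      exact hφinj N a a' (hN a ha b0 hb0).1 (hN a' ha' b0 hb0).1 h
    · rw [Finset.card_image_of_injOn, hB0c]
      intro b hb b' hb' h
      exact hφinj N b b' (hN a0 ha0 b hb).2.1 (hN a0 ha0 b' hb').2.1 h
    · intro x hx y hy
      rw [Finset.mem_image] at hx hy
      obtain ⟨a, ha, rfl⟩ := hx
      obtain ⟨b, hb, rfl⟩ := hy
      obtain ⟨h1, h2, h3⟩ := hN a ha b hb
      rw [SimpleGraph.sdiff_adj]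
      refine ⟨h3, ?_⟩
      intro h4
      rw [hφ N a h1, hφ N b h2, (ψ N).map_adj_iff] at h4
      have hbB := (hB0 hb).1
      have hfb := (hB0 hb).2
      rcases h4 with ⟨n, h5⟩ | ⟨n, h5⟩
      · simp only at h5
        rw [← hfb] at ha
        have h6 := Finset.ne_of_mem_erase (hf1 b ha)
        rw [h5] at h6
        exact h6 rfl
      · simp only at h5
        apply hbB.2
        rw [Finset.mem_coe, Finset.mem_image]
        have haA : a ∈ A := by
          rw [← hfb] at ha
          exact Finset.mem_of_mem_erase (hf1 b ha)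
        exact ⟨a, haA, by rw [h5]; rfl⟩
  obtain ⟨e⟩ := exists_embedding htree hbic (Fin m) T hT
  -- back to the finite graphs
  have hev : ∀ᶠ N in (hyperfilter ℕ : Filter ℕ), ∀ a b : Fin m, e a ∈ SN N ∧ e b ∈ SN N ∧
      (T.Adj a b ↔ (G N).Adj (φ N (e a)) (φ N (e b))) := by
    rw [Filter.eventually_all]
    intro a
    rw [Filter.eventually_all]
    intro b
    have h1 : ∀ᶠ N in (hyperfilter ℕ : Filter ℕ),
        (T.Adj a b ↔ (G N).Adj (φ N (e a)) (φ N (e b))) := by
      by_cases hab : T.Adj a b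
      · have h2 : H.Adj (e a) (e b) := e.map_adj_iff.2 hab
        filter_upwards [h2.2] with N hN
        exact ⟨fun _ => hN, fun _ => hab⟩
      · by_cases hne : a = b
        · subst hne
          filter_upwards with N
          exact ⟨fun h => absurd h hab, fun h => absurd rfl h.ne⟩
        · have h2 : ¬ ∀ᶠ N in (hyperfilter ℕ : Filter ℕ), (G N).Adj (φ N (e a)) (φ N (e b)) := by
            intro h3
            exact hab (e.map_adj_iff.1 ⟨fun h => hne (e.injective h), h3⟩)
          rw [← Ultrafilter.eventually_not] at h2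
          filter_upwards [h2] with N hN
          exact ⟨fun h => absurd h hab, fun h => absurd h hN⟩
    filter_upwards [eventually_mem (e a), eventually_mem (e b), h1] with N h2 h3 h4
    exact ⟨h2, h3, h4⟩
  obtain ⟨N, hN⟩ := hev.exists
  refine (hTG N).false ⟨⟨fun a => φ N (e a), ?_⟩, fun {a b} => ((hN a b).2.2).symm⟩
  intro a b hab
  exact e.injective (hφinj N _ _ (hN a b).1 (hN a b).2.1 hab)

/-- A graph without `K_{t,t}` has no half-graph of order `2 t`. -/
lemma not_halfGraph {V : Type} {G : SimpleGraph V} {t : ℕ} (h : BicliqueFree G t) :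
    ¬ Pool.Agent.H367R3.HalfGraph G (2 * t) := by
  classical
  rintro ⟨a, b, hab⟩
  have h1 : ∀ i : Fin t, (i : ℕ) < 2 * t := fun i => by have := i.2; omega
  have h2 : ∀ i : Fin t, (i : ℕ) + t < 2 * t := fun i => by have := i.2; omega
  have hainj : Function.Injective a := by
    intro i j hij
    have e1 := hab i i
    have e2 := hab j i
    have e3 := hab i j
    have e4 := hab j j
    rw [hij] at e1 e3
    have e5 : i ≤ j := e3.1 (e4.2 le_rfl)
    have e6 : j ≤ i := e2.1 (e1.2 le_rfl)
    exact le_antisymm e5 e6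
  have hbinj : Function.Injective b := by
    intro i j hij
    have e1 := hab i i
    have e2 := hab j i
    have e3 := hab i j
    have e4 := hab j j
    rw [hij] at e1 e2
    have e5 : i ≤ j := e3.1 (e1.2 le_rfl)
    have e6 : j ≤ i := e2.1 (e4.2 le_rfl)
    exact le_antisymm e5 e6
  apply h (Finset.univ.image (fun i : Fin t => a ⟨i, h1 i⟩))
    (Finset.univ.image (fun i : Fin t => b ⟨i + t, h2 i⟩))
  · rw [Finset.card_image_of_injective]
    · simp
    · intro i j hij
      have := hainj hij
      exact Fin.ext (by simpa using this)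
  · rw [Finset.card_image_of_injective]
    · simp
    · intro i j hij
      have := hbinj hij
      exact Fin.ext (by simpa using this)
  · intro x hx y hy
    rw [Finset.mem_image] at hx hy
    obtain ⟨i, _, rfl⟩ := hx
    obtain ⟨j, _, rfl⟩ := hy
    rw [hab]
    show (i : ℕ) ≤ j + t
    have := i.2
    omega

lemma BicliqueFree.induce {V : Type} {G : SimpleGraph V} {t : ℕ} (h : BicliqueFree G t)
    (X : Set V) : BicliqueFree (G.induce X) t := by
  classical
  intro A B hA hB hAB
  apply h (A.map (Function.Embedding.subtype _)) (B.map (Function.Embedding.subtype _))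
  · rw [Finset.card_map, hA]
  · rw [Finset.card_map, hB]
  · intro x hx y hy
    rw [Finset.mem_map] at hx hy
    obtain ⟨a, ha, rfl⟩ := hx
    obtain ⟨b, hb, rfl⟩ := hy
    exact hAB a ha b hb

/-- The colouring step: if `G₁` is `c`-colourable and `G \ G₁` has no `K_{t,t}`, then `G` is
`c * f (ω(G))`-colourable, if `G` has no induced `F`. -/
theorem colour {m : ℕ} (F : SimpleGraph (Fin m)) (hF : F.IsAcyclic) (t : ℕ) :
    ∃ f : ℕ → ℕ, ∀ (V : Type) [Finite V] (G G₁ : SimpleGraph V), G₁ ≤ G →
      BicliqueFree (G \ G₁) t → ¬ Nonempty (F ↪g G) → ∀ k, G.CliqueFree (k + 1) →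
        ∀ c, G₁.Colorable c → G.Colorable (c * f k) := by
  obtain ⟨T, hT, ⟨e⟩⟩ := Pool.Agent.H367R3.forest_in_tree F hF
  have hex : ∀ k : ℕ, ∃ c : ℕ, ∀ (V : Type) [Finite V] (G : SimpleGraph V),
      ¬ Pool.Agent.H367R3.HalfGraph G (2 * t) → G.CliqueFree (k + 1) → ¬ Nonempty (T ↪g G) →
        G.Colorable c :=
    fun k => Pool.Agent.H367R3.gyarfas_sumner_stable (2 * t) (k + 1) (m + 1) T hT
  choose f hf using hex
  refine ⟨f, ?_⟩
  intro V _ G G₁ hle hfree hFG k hk c hc
  obtain ⟨C⟩ := hc
  have hcol : ∀ i : Fin c, (G.induce {v | C v = i}).Colorable (f k) := by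
    intro i
    have heq : G.induce {v | C v = i} = (G \ G₁).induce {v | C v = i} := by
      ext u v
      simp only [SimpleGraph.comap_adj, Function.Embedding.subtype_apply, SimpleGraph.sdiff_adj]
      constructor
      · intro h
        refine ⟨h, fun h1 => ?_⟩
        exact C.valid h1 (u.2.trans v.2.symm)
      · exact fun h => h.1
    apply hf k
    · rw [heq]
      exact not_halfGraph (hfree.induce _)
    · intro s hs
      exact hk _ (hs.map (f := Function.Embedding.subtype _) |>.mono (by
        rw [SimpleGraph.map_le_iff_le_comap]))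
    · rintro ⟨g⟩
      exact hFG ⟨(e.trans g).trans (SimpleGraph.Embedding.induce _)⟩
  choose D hD using fun i => (⟨(hcol i).some, trivial⟩ : ∃ _ : (G.induce {v | C v = i}).Coloring (Fin (f k)), True)
  have key : G.Coloring (Fin c × Fin (f k)) := by
    refine SimpleGraph.Coloring.mk (fun v => (C v, D (C v) ⟨v, rfl⟩)) ?_
    intro u v huv h
    rw [Prod.mk.injEq] at h
    obtain ⟨h1, h2⟩ := h
    have h3 : ∀ i (hu : C u = i) (hv : C v = i), D i ⟨u, hu⟩ ≠ D i ⟨v, hv⟩ := by
      intro i hu hv
      exact (D i).valid (show (G.induce {v | C v = i}).Adj ⟨u, hu⟩ ⟨v, hv⟩ from huv)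
    have h4 : ∀ i (hu : C u = i) (hv : C v = i), D (C u) ⟨u, rfl⟩ = D i ⟨u, hu⟩ := by
      rintro i rfl _
      rfl
    have h5 : ∀ i (hu : C u = i) (hv : C v = i), D (C v) ⟨v, rfl⟩ = D i ⟨v, hv⟩ := by
      rintro i _ rfl
      rfl
    apply h3 (C u) rfl h1.symm
    rw [← h5 (C u) rfl h1.symm, ← h2]
  have := key.colorable
  simpa using this

end Pool.Agent.X60.GenTree
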