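import Mathlib

set_option autoImplicit false

namespace Pool.Agent.X60.NRDCore

open Finset SzemerediRegularity

variable {ι : Type}

/-- the bipartite graph on two copies of `Fin n` -/
def gr {n : ℕ} (H : Finset ι) (A B : ι → Fin n) : SimpleGraph (Fin n ⊕ Fin n) where
  Adj x y := ∃ c ∈ H, (x = Sum.inl (A c) ∧ y = Sum.inr (B c)) ∨ (y = Sum.inl (A c) ∧ x = Sum.inr (B c))
  symm := by
    constructor
    rintro x y ⟨c, hc, h⟩
    exact ⟨c, hc, h.symm⟩
  loopless := by
    constructor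
    rintro x ⟨c, hc, h⟩
    rcases h with ⟨h1, h2⟩ | ⟨h1, h2⟩
    · rw [h1] at h2; cases h2
    · rw [h1] at h2; cases h2

theorem gr_adj {n : ℕ} {H : Finset ι} {A B : ι → Fin n} {a b : Fin n} :
    (gr H A B).Adj (Sum.inl a) (Sum.inr b) ↔ ∃ c ∈ H, a = A c ∧ b = B c := by
  constructor
  · rintro ⟨c, hc, h⟩
    rcases h with ⟨h1, h2⟩ | ⟨h1, h2⟩
    · exact ⟨c, hc, Sum.inl.inj h1, Sum.inr.inj h2⟩
    · cases h1
  · rintro ⟨c, hc, rfl, rfl⟩
    exact ⟨c, hc, Or.inl ⟨rfl, rfl⟩⟩

/-- few elements of `H` have a thin class -/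
theorem thin_le {n : ℕ} (H : Finset ι) (A E : ι → Fin n) (f : Fin n → Fin n ⊕ Fin n)
    (P : Finpartition (univ : Finset (Fin n ⊕ Fin n))) (δ : ℝ) (hδ : 0 ≤ δ) :
    ((H.filter fun c => ((H.filter fun c1 => E c1 = E c ∧ f (A c1) ∈ P.part (f (A c))).card : ℝ) <
      δ * (P.part (f (A c))).card).card : ℝ) ≤ δ * (n * (2 * n)) := by
  classical
  set H2 := H.filter fun c => ((H.filter fun c1 => E c1 = E c ∧ f (A c1) ∈ P.part (f (A c))).card : ℝ) <
      δ * (P.part (f (A c))).card with hH2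
  have hmap : ∀ c ∈ H2, (P.part (f (A c)), E c) ∈ P.parts ×ˢ (univ : Finset (Fin n)) := by
    intro c _
    rw [mem_product]
    exact ⟨P.part_mem.2 (mem_univ _), mem_univ _⟩
  have h1 : H2.card = ∑ x ∈ P.parts ×ˢ (univ : Finset (Fin n)),
      (H2.filter fun c => (P.part (f (A c)), E c) = x).card :=
    card_eq_sum_card_fiberwise hmap
  have h2 : ∀ x ∈ P.parts ×ˢ (univ : Finset (Fin n)),
      ((H2.filter fun c => (P.part (f (A c)), E c) = x).card : ℝ) ≤ δ * x.1.card := by
    rintro ⟨U, e⟩ hx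
    rcases Finset.eq_empty_or_nonempty (H2.filter fun c => (P.part (f (A c)), E c) = (U, e)) with h | ⟨c, hc⟩
    · rw [h]; simp only [card_empty, Nat.cast_zero]; positivity
    · rw [mem_filter] at hc
      obtain ⟨hc, hce⟩ := hc
      rw [Prod.mk.injEq] at hce
      obtain ⟨hU, he⟩ := hce
      have hlt := (mem_filter.1 hc).2
      rw [hU, he] at hlt
      refine le_trans ?_ hlt.le
      norm_cast
      apply card_le_card
      intro c1 hc1
      rw [mem_filter] at hc1 ⊢
      obtain ⟨hc1, h⟩ := hc1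
      rw [Prod.mk.injEq] at h
      refine ⟨(mem_filter.1 hc1).1, h.2, ?_⟩
      rw [← h.1]
      exact P.mem_part (mem_univ _)
  calc (H2.card : ℝ) = ∑ x ∈ P.parts ×ˢ (univ : Finset (Fin n)),
      ((H2.filter fun c => (P.part (f (A c)), E c) = x).card : ℝ) := by
        rw [h1]; push_cast; rfl
    _ ≤ ∑ x ∈ P.parts ×ˢ (univ : Finset (Fin n)), δ * x.1.card := sum_le_sum h2
    _ = ∑ U ∈ P.parts, ∑ e : Fin n, δ * U.card := by rw [sum_product]
    _ = n * (δ * ∑ U ∈ P.parts, (U.card : ℝ)) := by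
        rw [mul_sum, mul_sum]
        apply sum_congr rfl
        intro U _
        simp
    _ = δ * (n * (2 * n)) := by
        have : (∑ U ∈ P.parts, (U.card : ℝ)) = 2 * n := by
          have := P.sum_card_parts
          have h3 : ((∑ U ∈ P.parts, U.card : ℕ) : ℝ) = ((univ : Finset (Fin n ⊕ Fin n)).card : ℝ) := by
            rw [this]
          rw [card_univ, Fintype.card_sum, Fintype.card_fin] at h3
          push_cast at h3
          rw [h3]; ring
        rw [this]; ring

theorem core (ε : ℝ) (hε : 0 < ε) : ∃ n0 : ℕ, ∀ n : ℕ, n0 ≤ n →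
    ∀ (ι : Type) (H : Finset ι) (A B E F : ι → Fin n),
    (∀ c ∈ H, ∀ c' ∈ H, A c = A c' → B c = B c' → c = c') →
    (∀ c ∈ H, ∀ c' ∈ H, A c = A c' → E c = E c' → c = c') →
    (∀ c ∈ H, ∀ c' ∈ H, B c = B c' → F c = F c' → c = c') →
    (∀ c ∈ H, ∀ c1 ∈ H, ∀ c3 ∈ H, ∀ c' ∈ H, A c1 = A c → B c3 = B c → E c1 = E c' →
      F c3 = F c' → c1 = c ∨ c3 = c) →
    (H.card : ℝ) ≤ 5 * ε * n ^ 2 := by
  classical
  set l : ℕ := ⌈4 / ε⌉₊ with hldef
  set K : ℕ := bound (ε / 8) l with hK
  have hlpos : 0 < l := Nat.ceil_pos.2 (by positivity)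
  obtain ⟨M, hM⟩ : ∃ M : ℕ, 200 / ε ^ 2 < M := exists_nat_gt _
  refine ⟨max l (K * M), ?_⟩
  intro n hn ι H A B E F hAB hAE hBF hstar
  have hln : l ≤ n := le_trans (le_max_left _ _) hn
  have hKM : K * M ≤ n := le_trans (le_max_right _ _) hn
  by_contra hcon
  push Not at hcon
  set G := gr H A B with hG
  have hcardα : Fintype.card (Fin n ⊕ Fin n) = 2 * n := by
    rw [Fintype.card_sum, Fintype.card_fin]; ring
  have hnpos : 0 < n := lt_of_lt_of_le hlpos hln
  have : Nonempty (Fin n ⊕ Fin n) := ⟨Sum.inl ⟨0, hnpos⟩⟩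
  obtain ⟨P, hP₁, hP₂, hP₃, hP₄⟩ := szemeredi_regularity G (by positivity : 0 < ε / 8)
    (show l ≤ Fintype.card (Fin n ⊕ Fin n) by rw [hcardα]; omega)
  have h4 : 4 / ε ≤ #P.parts := le_trans (Nat.le_ceil _) (Nat.cast_le.2 hP₂)
  have k := SimpleGraph.regularityReduced_edges_card_aux hε hP₁ hP₄ h4
  rw [mul_assoc] at k
  replace k := lt_of_mul_lt_mul_left k zero_le_two
  rw [hcardα] at k
  set R := G.regularityReduced P (ε / 8) (ε / 4) with hR
  -- the elements of `H` outside the reduced graph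
  set H1 := H.filter fun c => ¬ R.Adj (Sum.inl (A c)) (Sum.inr (B c)) with hH1
  have hH1card : (H1.card : ℝ) ≤ ε * (2 * n) ^ 2 := by
    have hsub : R.edgeFinset ⊆ G.edgeFinset := by
      rw [SimpleGraph.edgeFinset_subset_edgeFinset]
      exact SimpleGraph.regularityReduced_le
    have h1 : H1.card ≤ (G.edgeFinset \ R.edgeFinset).card := by
      apply card_le_card_of_injOn (fun c => s(Sum.inl (A c), Sum.inr (B c)))
      · intro c hc
        have hc' := mem_filter.1 (mem_coe.1 hc)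
        rw [mem_coe, mem_sdiff, SimpleGraph.mem_edgeFinset, SimpleGraph.mem_edgeFinset,
          SimpleGraph.mem_edgeSet, SimpleGraph.mem_edgeSet]
        exact ⟨gr_adj.2 ⟨c, hc'.1, rfl, rfl⟩, hc'.2⟩
      · intro c hc c' hc' h
        have h1 := mem_filter.1 (mem_coe.1 hc)
        have h2 := mem_filter.1 (mem_coe.1 hc')
        simp only [Sym2.eq_iff] at h
        rcases h with ⟨ha, hb⟩ | ⟨ha, hb⟩
        · exact hAB c h1.1 c' h2.1 (Sum.inl.inj ha) (Sum.inr.inj hb)
        · cases ha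
    have h2 : ((G.edgeFinset \ R.edgeFinset).card : ℝ) = (#G.edgeFinset - #R.edgeFinset : ℝ) := by
      rw [cast_card_sdiff hsub]
    have h3 : (H1.card : ℝ) ≤ ((G.edgeFinset \ R.edgeFinset).card : ℝ) := by exact_mod_cast h1
    rw [h2] at h3
    push_cast at k
    linarith
  set H2 := H.filter fun c => ((H.filter fun c1 => E c1 = E c ∧ (Sum.inl (A c1) : Fin n ⊕ Fin n) ∈ P.part (Sum.inl (A c))).card : ℝ) <
      ε / 8 * (P.part (Sum.inl (A c))).card with hH2
  have hH2card : (H2.card : ℝ) ≤ ε / 8 * (n * (2 * n)) :=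
    thin_le H A E Sum.inl P (ε / 8) (by positivity)
  set H3 := H.filter fun c => ((H.filter fun c1 => F c1 = F c ∧ (Sum.inr (B c1) : Fin n ⊕ Fin n) ∈ P.part (Sum.inr (B c))).card : ℝ) <
      ε / 8 * (P.part (Sum.inr (B c))).card with hH3
  have hH3card : (H3.card : ℝ) ≤ ε / 8 * (n * (2 * n)) :=
    thin_le H B F Sum.inr P (ε / 8) (by positivity)
  have hex : ∃ c' ∈ H, c' ∉ H1 ∧ c' ∉ H2 ∧ c' ∉ H3 := by
    by_contra hno
    push Not at hno
    have hsub : H ⊆ H1 ∪ H2 ∪ H3 := by
      intro c hc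
      by_cases h1 : c ∈ H1
      · exact mem_union_left _ (mem_union_left _ h1)
      · by_cases h2 : c ∈ H2
        · exact mem_union_left _ (mem_union_right _ h2)
        · exact mem_union_right _ (hno c hc h1 h2)
    have h5 : H.card ≤ H1.card + H2.card + H3.card := by
      refine le_trans (card_le_card hsub) (le_trans (card_union_le _ _) ?_)
      have := card_union_le H1 H2
      omega
    have h6 : (H.card : ℝ) ≤ H1.card + H2.card + H3.card := by exact_mod_cast h5
    have hn2 : (0 : ℝ) < (n : ℝ) ^ 2 := by positivity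
    nlinarith
  obtain ⟨c', hc', hn1, hn2, hn3⟩ := hex
  have hred : R.Adj (Sum.inl (A c')) (Sum.inr (B c')) := by
    by_contra h
    exact hn1 (mem_filter.2 ⟨hc', h⟩)
  have hS0 : ε / 8 * (P.part (Sum.inl (A c'))).card ≤ ((H.filter fun c1 => E c1 = E c' ∧ (Sum.inl (A c1) : Fin n ⊕ Fin n) ∈ P.part (Sum.inl (A c'))).card : ℝ) := by
    by_contra h
    push Not at h
    exact hn2 (mem_filter.2 ⟨hc', h⟩)
  have hT0 : ε / 8 * (P.part (Sum.inr (B c'))).card ≤ ((H.filter fun c1 => F c1 = F c' ∧ (Sum.inr (B c1) : Fin n ⊕ Fin n) ∈ P.part (Sum.inr (B c'))).card : ℝ) := by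
    by_contra h
    push Not at h
    exact hn3 (mem_filter.2 ⟨hc', h⟩)
  obtain ⟨-, U, hU, W, hW, haU, hbW, hUW, hunif, hdens⟩ := hred
  have hpU : P.part (Sum.inl (A c')) = U := P.part_eq_of_mem hU haU
  have hpW : P.part (Sum.inr (B c')) = W := P.part_eq_of_mem hW hbW
  rw [hpU] at hS0
  rw [hpW] at hT0
  set HS := H.filter fun c1 => E c1 = E c' ∧ (Sum.inl (A c1) : Fin n ⊕ Fin n) ∈ U with hHS
  set HT := H.filter fun c1 => F c1 = F c' ∧ (Sum.inr (B c1) : Fin n ⊕ Fin n) ∈ W with hHT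
  set S : Finset (Fin n ⊕ Fin n) := HS.image fun c => Sum.inl (A c) with hS
  set T : Finset (Fin n ⊕ Fin n) := HT.image fun c => Sum.inr (B c) with hT
  have hScard : S.card = HS.card := by
    apply card_image_of_injOn
    intro c hc d hd h
    have h1 := mem_filter.1 (mem_coe.1 hc)
    have h2 := mem_filter.1 (mem_coe.1 hd)
    exact hAE c h1.1 d h2.1 (Sum.inl.inj h) (h1.2.1.trans h2.2.1.symm)
  have hTcard : T.card = HT.card := by
    apply card_image_of_injOn
    intro c hc d hd h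
    have h1 := mem_filter.1 (mem_coe.1 hc)
    have h2 := mem_filter.1 (mem_coe.1 hd)
    exact hBF c h1.1 d h2.1 (Sum.inr.inj h) (h1.2.1.trans h2.2.1.symm)
  have hSU : S ⊆ U := by
    intro x hx
    obtain ⟨c, hc, rfl⟩ := mem_image.1 hx
    exact (mem_filter.1 hc).2.2
  have hTW : T ⊆ W := by
    intro x hx
    obtain ⟨c, hc, rfl⟩ := mem_image.1 hx
    exact (mem_filter.1 hc).2.2
  have hu := hunif hSU hTW (by rw [hScard]; linarith) (by rw [hTcard]; linarith)
  have hdST : ε / 8 < (G.edgeDensity S T : ℝ) := by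
    have := (abs_lt.1 hu).1
    linarith
  -- few edges between `S` and `T`
  have hfew : (G.interedges S T).card ≤ S.card + T.card := by
    have hsub : G.interedges S T ⊆ (HS.image fun c => ((Sum.inl (A c) : Fin n ⊕ Fin n), (Sum.inr (B c) : Fin n ⊕ Fin n))) ∪
        (HT.image fun c => ((Sum.inl (A c) : Fin n ⊕ Fin n), (Sum.inr (B c) : Fin n ⊕ Fin n))) := by
      rintro ⟨x, y⟩ hxy
      rw [SimpleGraph.mem_interedges_iff] at hxy
      obtain ⟨hx, hy, hadj⟩ := hxy
      obtain ⟨c1, hc1, rfl⟩ := mem_image.1 hx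
      obtain ⟨c3, hc3, rfl⟩ := mem_image.1 hy
      obtain ⟨c, hc, ha, hb⟩ := gr_adj.1 hadj
      have h1 := mem_filter.1 hc1
      have h3 := mem_filter.1 hc3
      rcases hstar c hc c1 h1.1 c3 h3.1 c' hc' ha hb h1.2.1 h3.2.1 with h | h
      · apply mem_union_left
        rw [mem_image]
        exact ⟨c1, hc1, by rw [h, hb]⟩
      · apply mem_union_right
        rw [mem_image]
        exact ⟨c3, hc3, by rw [h, ha]⟩
    refine le_trans (card_le_card hsub) (le_trans (card_union_le _ _) ?_)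
    rw [hScard, hTcard]
    exact add_le_add card_image_le card_image_le
  -- sizes
  have hUbig : (M : ℝ) ≤ U.card := by
    have h1 := hP₁.average_le_card_part hU
    rw [card_univ, hcardα] at h1
    have h2 : M ≤ 2 * n / #P.parts := by
      rw [Nat.le_div_iff_mul_le (lt_of_lt_of_le hlpos hP₂)]
      calc M * #P.parts ≤ M * K := Nat.mul_le_mul_left _ hP₃
        _ = K * M := mul_comm _ _
        _ ≤ 2 * n := by omega
    exact_mod_cast le_trans h2 h1
  have hWbig : (M : ℝ) ≤ W.card := by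
    have h1 := hP₁.average_le_card_part hW
    rw [card_univ, hcardα] at h1
    have h2 : M ≤ 2 * n / #P.parts := by
      rw [Nat.le_div_iff_mul_le (lt_of_lt_of_le hlpos hP₂)]
      calc M * #P.parts ≤ M * K := Nat.mul_le_mul_left _ hP₃
        _ = K * M := mul_comm _ _
        _ ≤ 2 * n := by omega
    exact_mod_cast le_trans h2 h1
  have hMbig : 25 / ε < ε / 8 * M := by
    have : ε / 8 * (200 / ε ^ 2) = 25 / ε := by field_simp; norm_num
    rw [← this]
    exact mul_lt_mul_of_pos_left hM (by positivity)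
  have hSbig : 25 / ε < (S.card : ℝ) := by
    rw [hScard]
    have : ε / 8 * (M : ℝ) ≤ ε / 8 * U.card := mul_le_mul_of_nonneg_left hUbig (by positivity)
    linarith
  have hTbig : 25 / ε < (T.card : ℝ) := by
    rw [hTcard]
    have : ε / 8 * (M : ℝ) ≤ ε / 8 * W.card := mul_le_mul_of_nonneg_left hWbig (by positivity)
    linarith
  have h25 : (0 : ℝ) < 25 / ε := by positivity
  have hS0' : (0 : ℝ) < S.card := lt_trans h25 hSbig
  have hT0' : (0 : ℝ) < T.card := lt_trans h25 hTbig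
  have hdens' : ε / 8 * (S.card * T.card) < ((G.interedges S T).card : ℝ) := by
    rw [SimpleGraph.edgeDensity_def] at hdST
    push_cast at hdST
    rwa [lt_div_iff₀ (by positivity)] at hdST
  have hfew' : ((G.interedges S T).card : ℝ) ≤ S.card + T.card := by exact_mod_cast hfew
  have h7 : ε * S.card > 25 := by
    have := mul_lt_mul_of_pos_left hSbig hε
    have h8 : ε * (25 / ε) = 25 := by field_simp
    linarith
  have h9 : ε * T.card > 25 := by
    have := mul_lt_mul_of_pos_left hTbig hε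
    have h8 : ε * (25 / ε) = 25 := by field_simp
    linarith
  nlinarith

end Pool.Agent.X60.NRDCore
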