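import Mathlib

/-! Elementary lemmas on roots of integer polynomials modulo squarefree numbers and on coincidences
of the roots of coprime polynomials. -/

set_option autoImplicit false

open Finset Polynomial

namespace Pool.Agent.X60.PolyFam

/-- the classes modulo `q`, prime to `q`, which are roots of `f` modulo `q` -/
def roots (f : ℤ[X]) (q : ℕ) : Finset ℕ :=
  (range q).filter (fun a => a.Coprime q ∧ (q : ℤ) ∣ f.eval (a : ℤ))

theorem card_roots_prime (f : ℤ[X]) (hf : f.IsPrimitive) (k : ℕ) (hk : f.natDegree ≤ k) (p : ℕ)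
    (hp : p.Prime) : ((range p).filter (fun a : ℕ => (p : ℤ) ∣ f.eval (a : ℤ))).card ≤ k := by
  have := Fact.mk hp
  have hne : f.map (Int.castRingHom (ZMod p)) ≠ 0 := by
    intro h
    have h1 : (C (p : ℤ)) ∣ f := by
      rw [C_dvd_iff_dvd_coeff]
      intro i
      have := congrArg (fun g => coeff g i) h
      simp only [coeff_map, coeff_zero, eq_intCast] at this
      exact (ZMod.intCast_zmod_eq_zero_iff_dvd _ _).1 this
    have h2 := hf _ h1
    rw [Int.isUnit_iff] at h2
    have := hp.one_lt
    omega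
  have h1 : ((range p).filter (fun a : ℕ => (p : ℤ) ∣ f.eval (a : ℤ))).card ≤
      (f.map (Int.castRingHom (ZMod p))).roots.toFinset.card := by
    apply card_le_card_of_injOn (fun a : ℕ => (a : ZMod p))
    · intro a ha
      simp only [coe_filter, Set.mem_ofPred_eq, mem_range] at ha
      simp only [Multiset.mem_toFinset, Finset.mem_coe]
      rw [mem_roots hne, IsRoot.def, eval_natCast_map, eq_intCast]
      rw [ZMod.intCast_zmod_eq_zero_iff_dvd]
      exact ha.2
    · intro a ha b hb hab
      simp only [coe_filter, Set.mem_ofPred_eq, mem_range] at ha hb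
      have := (ZMod.natCast_eq_natCast_iff' a b p).1 hab
      rwa [Nat.mod_eq_of_lt ha.1, Nat.mod_eq_of_lt hb.1] at this
  calc _ ≤ _ := h1
    _ ≤ Multiset.card (f.map (Int.castRingHom (ZMod p))).roots := Multiset.toFinset_card_le _
    _ ≤ (f.map (Int.castRingHom (ZMod p))).natDegree := card_roots' _
    _ ≤ f.natDegree := natDegree_map_le
    _ ≤ k := hk

theorem two_pow_omega_le (q : ℕ) (hq : q ≠ 0) : 2 ^ q.primeFactors.card ≤ q.divisors.card := by
  rw [Nat.card_divisors hq, ← prod_const]
  apply prod_le_prod'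
  intro p hp
  have := (Nat.prime_of_mem_primeFactors hp).factorization_pos_of_dvd hq
    (Nat.dvd_of_mem_primeFactors hp)
  omega

theorem card_roots (f : ℤ[X]) (hf : f.IsPrimitive) (k : ℕ) (hk : f.natDegree ≤ k) (q : ℕ)
    (hq : Squarefree q) : (roots f q).card ≤ q.divisors.card ^ k := by
  have hq0 : q ≠ 0 := hq.ne_zero
  have h1 : (roots f q).card ≤
      (q.primeFactors.pi (fun p => (range p).filter (fun a : ℕ => (p : ℤ) ∣ f.eval (a : ℤ)))).card := by
    apply card_le_card_of_injOn (fun a : ℕ => fun p _ => a % p)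
    · intro a ha
      simp only [roots, coe_filter, Set.mem_ofPred_eq, mem_range] at ha
      simp only [Finset.mem_coe, Finset.mem_pi, mem_filter, mem_range]
      intro p hp
      have hpp := Nat.prime_of_mem_primeFactors hp
      refine ⟨Nat.mod_lt _ hpp.pos, ?_⟩
      have h2 : (p : ℤ) ∣ f.eval (a : ℤ) :=
        dvd_trans (by exact_mod_cast Nat.dvd_of_mem_primeFactors hp) ha.2.2
      have h3 : ((a : ℤ) - ((a % p : ℕ) : ℤ)) ∣ f.eval (a : ℤ) - f.eval ((a % p : ℕ) : ℤ) :=
        sub_dvd_eval_sub _ _ _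
      have h4 : (p : ℤ) ∣ (a : ℤ) - ((a % p : ℕ) : ℤ) := by
        have := Nat.mod_add_div a p
        refine ⟨((a / p : ℕ) : ℤ), ?_⟩
        have h5 : ((a % p : ℕ) : ℤ) + (p : ℤ) * ((a / p : ℕ) : ℤ) = a := by exact_mod_cast this
        linarith
      have h6 := dvd_trans h4 h3
      exact (dvd_sub_right h2).1 h6
    · intro a ha b hb hab
      simp only [roots, coe_filter, Set.mem_ofPred_eq, mem_range] at ha hb
      have h2 : ∀ p ∈ q.primeFactors, a ≡ b [MOD p] := by
        intro p hp
        exact congrFun (congrFun hab p) hp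
      have h3 : (q : ℤ) ∣ (b : ℤ) - a := by
        rw [Int.natCast_dvd, ← Nat.prod_primeFactors_of_squarefree hq]
        apply Finset.prod_primes_dvd
        · intro p hp
          exact (Nat.prime_of_mem_primeFactors hp).prime
        · intro p hp
          rw [← Int.natCast_dvd]
          exact (Nat.modEq_iff_dvd).1 (h2 p hp)
      have h6 : a ≡ b [MOD q] := (Nat.modEq_iff_dvd).2 h3
      unfold Nat.ModEq at h6
      rwa [Nat.mod_eq_of_lt ha.1, Nat.mod_eq_of_lt hb.1] at h6
  calc (roots f q).card ≤ _ := h1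
    _ = ∏ p ∈ q.primeFactors, ((range p).filter (fun a : ℕ => (p : ℤ) ∣ f.eval (a : ℤ))).card :=
        card_pi _ _
    _ ≤ ∏ _p ∈ q.primeFactors, k := by
        apply prod_le_prod'
        intro p hp
        exact card_roots_prime f hf k hk p (Nat.prime_of_mem_primeFactors hp)
    _ = k ^ q.primeFactors.card := prod_const _
    _ ≤ (2 ^ k) ^ q.primeFactors.card := Nat.pow_le_pow_left (Nat.lt_two_pow_self).le _
    _ = (2 ^ q.primeFactors.card) ^ k := by rw [← pow_mul, ← pow_mul, mul_comm]
    _ ≤ _ := Nat.pow_le_pow_left (two_pow_omega_le q hq0) k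

theorem le_card_mul_totient (q : ℕ) (hq : q ≠ 0) : q ≤ q.divisors.card * q.totient := by
  calc q = ∑ d ∈ q.divisors, d.totient := (Nat.sum_totient q).symm
    _ ≤ ∑ _d ∈ q.divisors, q.totient := by
        apply sum_le_sum
        intro d hd
        exact Nat.le_of_dvd (Nat.totient_pos.2 (Nat.pos_of_ne_zero hq))
          (Nat.totient_dvd_of_dvd (Nat.dvd_of_mem_divisors hd))
    _ = _ := by rw [sum_const, smul_eq_mul]

theorem omega_le (q : ℕ) (hq : q ≠ 0) : q.primeFactors.card ≤ q.divisors.card := by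
  apply card_le_card
  intro p hp
  exact Nat.mem_divisors.2 ⟨Nat.dvd_of_mem_primeFactors hp, hq⟩

/-- a common multiple of the moduli with a common root -/
theorem resultant_bound (f g : ℤ[X]) (hf : f.IsPrimitive) (k : ℕ) (hk : f.natDegree ≤ k)
    (hk' : g.natDegree ≤ k) (H : ℤ) (hH : 1 ≤ H) (hfH : ∀ i, |f.coeff i| ≤ H)
    (hgH : ∀ i, |g.coeff i| ≤ H)
    (hco : IsCoprime (f.map (Int.castRingHom ℚ)) (g.map (Int.castRingHom ℚ))) :
    ∃ R : ℕ, R ≠ 0 ∧ (R : ℤ) ≤ (2 * k).factorial * H ^ (2 * k) ∧
      ∀ (q : ℕ) (a : ℤ), (q : ℤ) ∣ f.eval a → (q : ℤ) ∣ g.eval a → q ∣ R := by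
  by_cases h0 : f.natDegree = 0
  · refine ⟨1, one_ne_zero, ?_, ?_⟩
    · have h1 : (1 : ℤ) ≤ ((2 * k).factorial : ℤ) := by exact_mod_cast Nat.one_le_of_lt (Nat.factorial_pos _)
      have h2 : (1 : ℤ) ≤ H ^ (2 * k) := one_le_pow₀ hH
      push_cast
      nlinarith
    · intro q a h1 _
      obtain ⟨c, hc⟩ : ∃ c, f = C c := ⟨f.coeff 0, eq_C_of_natDegree_eq_zero h0⟩
      have h2 : IsUnit c := hf c (by rw [hc])
      rw [hc, eval_C] at h1
      have h3 : IsUnit (q : ℤ) := isUnit_of_dvd_unit h1 h2
      rw [Int.isUnit_iff] at h3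
      have : q = 1 := by omega
      rw [this]
  · have hres : resultant f g ≠ 0 := by
      have h1 := resultant_ne_zero _ _ hco
      have e1 : (f.map (Int.castRingHom ℚ)).natDegree = f.natDegree :=
        natDegree_map_eq_of_injective (Int.cast_injective) f
      have e2 : (g.map (Int.castRingHom ℚ)).natDegree = g.natDegree :=
        natDegree_map_eq_of_injective (Int.cast_injective) g
      rw [e1, e2, resultant_map_map] at h1
      intro h2
      apply h1
      rw [h2, map_zero]
    refine ⟨(resultant f g).natAbs, Int.natAbs_ne_zero.2 hres, ?_, ?_⟩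
    · have h1 : |resultant f g| ≤
          (f.natDegree + g.natDegree).factorial * H ^ (f.natDegree + g.natDegree) := by
        have := Matrix.det_le (A := sylvester f g f.natDegree g.natDegree)
          (abv := AbsoluteValue.abs) (x := H) (by
            intro i j
            rw [AbsoluteValue.abs_apply]
            unfold sylvester
            simp only [Matrix.of_apply]
            refine Fin.addCases (fun j₁ => ?_) (fun j₁ => ?_) j
            · simp only [Fin.addCases_left]
              split_ifs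
              · exact hgH _
              · simp; linarith
            · simp only [Fin.addCases_right]
              split_ifs
              · exact hfH _
              · simp; linarith)
        rw [AbsoluteValue.abs_apply, Fintype.card_fin, nsmul_eq_mul] at this
        exact this
      have h2 : ((f.natDegree + g.natDegree).factorial : ℤ) ≤ (2 * k).factorial := by
        exact_mod_cast Nat.factorial_le (by omega)
      have h3 : H ^ (f.natDegree + g.natDegree) ≤ H ^ (2 * k) :=
        pow_le_pow_right₀ hH (by omega)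
      rw [Int.natCast_natAbs]
      calc |resultant f g| ≤ _ := h1
        _ ≤ _ := by
          apply mul_le_mul h2 h3 (by positivity) (by positivity)
    · intro q a h1 h2
      obtain ⟨u, v, _, _, huv⟩ := exists_mul_add_mul_eq_C_resultant f g le_rfl le_rfl (Or.inl h0)
      have h3 := congrArg (eval a) huv
      rw [eval_add, eval_mul, eval_mul, eval_C] at h3
      rw [← Int.natCast_dvd, ← h3]
      exact dvd_add (Dvd.dvd.mul_right h1 _) (Dvd.dvd.mul_right h2 _)

theorem eval_bound (f : ℤ[X]) (k : ℕ) (hk : f.natDegree ≤ k) (H : ℤ) (hfH : ∀ i, |f.coeff i| ≤ H)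
    (n : ℕ) (hn : 1 ≤ n) : |f.eval (n : ℤ)| ≤ (k + 1) * H * n ^ k := by
  have hH0 : 0 ≤ H := (abs_nonneg _).trans (hfH 0)
  rw [eval_eq_sum_range' (lt_of_le_of_lt hk (Nat.lt_succ_self k))]
  calc |∑ i ∈ range (k + 1), f.coeff i * (n : ℤ) ^ i| ≤
      ∑ i ∈ range (k + 1), |f.coeff i * (n : ℤ) ^ i| := abs_sum_le_sum_abs _ _
    _ ≤ ∑ _i ∈ range (k + 1), H * n ^ k := by
        apply sum_le_sum
        intro i hi
        rw [mem_range] at hi
        rw [abs_mul, abs_of_nonneg (a := (n : ℤ) ^ i) (by positivity)]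
        apply mul_le_mul (hfH i) _ (by positivity) hH0
        exact pow_le_pow_right₀ (by exact_mod_cast hn) (by omega)
    _ = _ := by rw [sum_const, card_range, nsmul_eq_mul]; push_cast; ring

/-- the number of polynomials of bounded degree and height -/
theorem card_family (F : Finset ℤ[X]) (k H : ℕ)
    (hF : ∀ f ∈ F, f.natDegree ≤ k ∧ ∀ i, |f.coeff i| ≤ (H : ℤ)) :
    F.card ≤ (2 * H + 1) ^ (k + 1) := by
  have h1 : F.card ≤ (Fintype.piFinset (fun _ : Fin (k + 1) => Icc (-(H : ℤ)) H)).card := by
    apply card_le_card_of_injOn (fun f => fun i : Fin (k + 1) => f.coeff i)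
    · intro f hf
      simp only [Finset.mem_coe, Fintype.mem_piFinset, mem_Icc]
      intro i
      exact abs_le.1 ((hF f hf).2 i)
    · intro f hf g hg hfg
      ext i
      by_cases hi : i < k + 1
      · exact congrFun hfg ⟨i, hi⟩
      · rw [coeff_eq_zero_of_natDegree_lt, coeff_eq_zero_of_natDegree_lt]
        · have := (hF g hg).1; omega
        · have := (hF f hf).1; omega
  refine h1.trans (le_of_eq ?_)
  rw [Fintype.card_piFinset]
  simp only [Int.card_Icc, prod_const, card_univ, Fintype.card_fin]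
  congr 1
  omega

/-- distinct numbers attached to the members of the family, which are not roots -/
theorem exists_labels (F : Finset ℤ[X]) (k : ℕ) (hF : ∀ f ∈ F, f ≠ 0 ∧ f.natDegree ≤ k) :
    ∃ n : ℤ[X] → ℕ, (∀ f ∈ F, 1 ≤ n f ∧ n f ≤ (k + 1) * F.card) ∧
      (∀ f ∈ F, ∀ g ∈ F, f ≠ g → n f ≠ n g) ∧ (∀ f ∈ F, ∀ g ∈ F, f.eval (n g : ℤ) ≠ 0) := by
  classical
  set Bad : Finset ℕ := F.biUnion (fun f =>
    (Icc 1 ((k + 1) * F.card)).filter (fun m : ℕ => f.eval (m : ℤ) = 0)) with hBad
  have h1 : Bad.card ≤ k * F.card := by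
    rw [mul_comm, ← smul_eq_mul, ← sum_const]
    refine card_biUnion_le.trans (sum_le_sum fun f hf => ?_)
    have h2 : ((Icc 1 ((k + 1) * F.card)).filter (fun m : ℕ => f.eval (m : ℤ) = 0)).card ≤
        f.roots.toFinset.card := by
      apply card_le_card_of_injOn (fun m : ℕ => (m : ℤ))
      · intro m hm
        simp only [coe_filter, Set.mem_ofPred_eq] at hm
        simp only [Multiset.mem_toFinset, Finset.mem_coe]
        rw [mem_roots (hF f hf).1]
        exact hm.2
      · intro a _ b _ hab
        exact Int.natCast_inj.1 hab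
    calc _ ≤ _ := h2
      _ ≤ Multiset.card f.roots := Multiset.toFinset_card_le _
      _ ≤ f.natDegree := card_roots' _
      _ ≤ k := (hF f hf).2
  have h3 : F.card ≤ (Icc 1 ((k + 1) * F.card) \ Bad).card := by
    have := le_card_sdiff Bad (Icc 1 ((k + 1) * F.card))
    rw [Nat.card_Icc] at this
    have h4 : (k + 1) * F.card = k * F.card + F.card := by ring
    omega
  obtain ⟨G, hG, hGc⟩ := exists_subset_card_eq h3
  have e := equivOfCardEq (s := F) (t := G) hGc.symm
  refine ⟨fun f => if h : f ∈ F then (e ⟨f, h⟩ : ℕ) else 0, ?_, ?_, ?_⟩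
  · intro f hf
    simp only [hf, dif_pos]
    have h5 := hG (e ⟨f, hf⟩).2
    rw [mem_sdiff, mem_Icc] at h5
    exact h5.1
  · intro f hf g hg hne
    simp only [hf, hg, dif_pos]
    intro h
    apply hne
    have := e.injective (Subtype.ext h)
    exact congrArg Subtype.val this
  · intro f hf g hg
    simp only [hg, dif_pos]
    have h5 := hG (e ⟨g, hg⟩).2
    rw [mem_sdiff] at h5
    intro h6
    apply h5.2
    rw [hBad, mem_biUnion]
    exact ⟨f, hf, mem_filter.2 ⟨h5.1, h6⟩⟩

end Pool.Agent.X60.PolyFam
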