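import Pool.Agent.H126R2.CDC.Main

set_option autoImplicit false
set_option linter.unusedSectionVars false

/-!
Structured double covers of subcubic graphs and circuit covers of weights two and four.
-/

namespace Pool.Agent.X60.SDC

open Finset
open Pool.Agent.H126R2.CDC
open Pool.Agent.Helper879.ECD (F2 IsFlow f2_add_self f2_cases cn)

/-! ### tables -/

/-- the side of a line whose direction has first coordinate zero -/
def sd (x t : T3) : Bool := decide (∃ c : T3, inS c x t = true ∧ c.1 = true)

theorem sd_eq : ∀ x1 t1 x2 t2 : T3, x1.1 = false → x2.1 = false →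
    (dot x1 t1 && dot x2 t2 && dot (T3.add x1 x2) (T3.add t1 t2)) = true →
    sd x1 t1 = sd x2 t2 := by
  decide +kernel

/-- one half of the colours, complemented when `z` is set -/
theorem card_half : ∀ (x t : T3) (s z : Bool), dot x t = true →
    (x.1 = false → z = true → sd x t = s) →
    (Finset.univ.filter (fun c : T3 => (xor (inS c x t) z && (c.1 == s)) = true)).card =
      if x.1 = true then (if z = true then 3 else 1) else if sd x t = s then 2 else 0 := by
  decide +kernel

/-! ### the structured cover -/

section

variable {W E : Type} [Fintype W] [DecidableEq W] [Fintype E] [DecidableEq E]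

lemma toB_false {x : F2} (h : x = 0) : toB x = false := by
  subst h; rfl

theorem structured (v : E × Bool → W) (hdeg : ∀ w, (univ.filter (fun h => v h = w)).card ≤ 3)
    (A : Fin 3 → E → F2) (hA : ∀ i, IsFl v (A i))
    (hnz : ∀ e, A 0 e ≠ 0 ∨ A 1 e ≠ 0 ∨ A 2 e ≠ 0) :
    ∃ B : Fin 3 → E → F2, (∀ e, dot (lab A e) (lab B e) = true) ∧
      (∀ c, IsFl v (fun e => if inS c (lab A e) (lab B e) = true then 1 else 0)) ∧
      ∀ h h', v h = v h' → A 0 h.1 = 0 → A 0 h'.1 = 0 →
        sd (lab A h.1) (lab B h.1) = sd (lab A h'.1) (lab B h'.1) := by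
  obtain ⟨B, hB, hAB⟩ := lift (fun e => v (e, false)) (fun e => v (e, true)) A
    (fun i => (isFl_iff v (A i)).1 (hA i)) hnz
  have hB' : ∀ i, IsFl v (B i) := fun i => (isFl_iff v (B i)).2 (hB i)
  have hdot : ∀ e, dot (lab A e) (lab B e) = true := fun e => toB_dot _ _ _ _ _ _ (hAB e)
  have hgoal : ∀ (g : E → F2) (w : W), ∑ h : E × Bool, (if v h = w then g h.1 else 0) =
        ∑ h ∈ univ.filter (fun h => v h = w), g h.1 := by
      intro g w; rw [Finset.sum_filter]
  refine ⟨B, hdot, ?_, ?_⟩
  · intro c w
    have hA2 : ∀ i, ∑ h ∈ univ.filter (fun h => v h = w), A i h.1 = 0 := by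
      intro i; rw [← hgoal]; exact hA i w
    have hB2 : ∀ i, ∑ h ∈ univ.filter (fun h => v h = w), B i h.1 = 0 := by
      intro i; rw [← hgoal]; exact hB' i w
    rw [hgoal (fun e => if inS c (lab A e) (lab B e) = true then 1 else 0)]
    have hd := hdeg w
    generalize univ.filter (fun h => v h = w) = H at *
    have hcases : H.card = 0 ∨ H.card = 1 ∨ H.card = 2 ∨ H.card = 3 := by omega
    rcases hcases with h0 | h0 | h0 | h0
    · rw [Finset.card_eq_zero.1 h0, Finset.sum_empty]
    · obtain ⟨x, rfl⟩ := Finset.card_eq_one.1 h0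
      exfalso
      simp only [Finset.sum_singleton] at hA2
      rcases hnz x.1 with h | h | h
      · exact h (hA2 0)
      · exact h (hA2 1)
      · exact h (hA2 2)
    · obtain ⟨x, y, hxy, rfl⟩ := Finset.card_eq_two.1 h0
      rw [Finset.sum_pair hxy]
      have h1 : lab A x.1 = lab A y.1 := lab_congr A _ _ (fun i => by
        have := hA2 i
        rw [Finset.sum_pair hxy] at this
        exact f2_eq_of_add this)
      have h2 : lab B x.1 = lab B y.1 := lab_congr B _ _ (fun i => by
        have := hB2 i
        rw [Finset.sum_pair hxy] at this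
        exact f2_eq_of_add this)
      rw [h1, h2]
      exact f2_add_self _
    · obtain ⟨x, y, z, hxy, hxz, hyz, rfl⟩ := Finset.card_eq_three.1 h0
      have hs : ∀ g : E × Bool → F2, ∑ h ∈ ({x, y, z} : Finset (E × Bool)), g h =
          g x + (g y + g z) := by
        intro g
        rw [Finset.sum_insert (by simp [hxy, hxz]), Finset.sum_pair hyz]
      rw [hs]
      have h1 : lab A z.1 = T3.add (lab A x.1) (lab A y.1) := lab_add A _ _ _ (fun i => by
        have := hA2 i
        rw [hs] at this
        exact f2_eq_of_add3 this)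
      have h2 : lab B z.1 = T3.add (lab B x.1) (lab B y.1) := lab_add B _ _ _ (fun i => by
        have := hB2 i
        rw [hs] at this
        exact f2_eq_of_add3 this)
      apply xor3
      rw [h1, h2]
      apply tri_inS
      rw [hdot x.1, hdot y.1, ← h1, ← h2, hdot z.1]
      rfl
  · intro h h' hv hh hh'
    by_cases hne : h = h'
    · rw [hne]
    have hA2 : ∀ i, ∑ g ∈ univ.filter (fun g => v g = v h), A i g.1 = 0 := by
      intro i; rw [← hgoal]; exact hA i _
    have hB2 : ∀ i, ∑ g ∈ univ.filter (fun g => v g = v h), B i g.1 = 0 := by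
      intro i; rw [← hgoal]; exact hB' i _
    have hm : h ∈ univ.filter (fun g => v g = v h) := by simp
    have hm' : h' ∈ univ.filter (fun g => v g = v h) := by simp [hv]
    have hd := hdeg (v h)
    generalize univ.filter (fun g => v g = v h) = H at *
    have hm2 : h' ∈ H.erase h := Finset.mem_erase.2 ⟨Ne.symm hne, hm'⟩
    have hsum : ∀ g : E × Bool → F2, ∑ k ∈ H, g k =
        g h + (g h' + ∑ k ∈ (H.erase h).erase h', g k) := by
      intro g
      rw [← Finset.add_sum_erase H g hm, ← Finset.add_sum_erase (H.erase h) g hm2]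
    have hc : ((H.erase h).erase h').card ≤ 1 := by
      rw [Finset.card_erase_of_mem hm2, Finset.card_erase_of_mem hm]
      omega
    have hor : (H.erase h).erase h' = ∅ ∨ ∃ k, (H.erase h).erase h' = {k} := by
      rcases Nat.le_one_iff_eq_zero_or_eq_one.1 hc with h0 | h0
      · exact Or.inl (Finset.card_eq_zero.1 h0)
      · exact Or.inr (Finset.card_eq_one.1 h0)
    rcases hor with h0 | ⟨k, h0⟩
    · rw [h0] at hsum
      simp only [Finset.sum_empty, add_zero] at hsum
      have h1 : lab A h.1 = lab A h'.1 := lab_congr A _ _ (fun i => by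
        have := hA2 i
        rw [hsum] at this
        exact f2_eq_of_add this)
      have h2 : lab B h.1 = lab B h'.1 := lab_congr B _ _ (fun i => by
        have := hB2 i
        rw [hsum] at this
        exact f2_eq_of_add this)
      rw [h1, h2]
    · rw [h0] at hsum
      simp only [Finset.sum_singleton] at hsum
      have h1 : lab A k.1 = T3.add (lab A h.1) (lab A h'.1) := lab_add A _ _ _ (fun i => by
        have := hA2 i
        rw [hsum] at this
        exact f2_eq_of_add3 this)
      have h2 : lab B k.1 = T3.add (lab B h.1) (lab B h'.1) := lab_add B _ _ _ (fun i => by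
        have := hB2 i
        rw [hsum] at this
        exact f2_eq_of_add3 this)
      apply sd_eq
      · exact toB_false hh
      · exact toB_false hh'
      · rw [hdot h.1, hdot h'.1, ← h1, ← h2, hdot k.1]
        rfl

/-- a vector that is orthogonal to all potentials constant along `L` is a boundary of a vector
supported on `L` -/
theorem exists_boundary (v : E × Bool → W) (L : Finset E) (T : W → F2)
    (hT : ∀ c : W → F2, (∀ e ∈ L, c (v (e, false)) = c (v (e, true))) → ∑ w, c w * T w = 0) :
    ∃ y : E → F2, (∀ e, e ∉ L → y e = 0) ∧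
      ∀ w, ∑ h : E × Bool, (if v h = w then y h.1 else 0) = T w := by
  let S : Submodule F2 (W → F2) :=
    { carrier := {x | ∃ y : E → F2, (∀ e, e ∉ L → y e = 0) ∧
        ∀ w, ∑ h : E × Bool, (if v h = w then y h.1 else 0) = x w}
      zero_mem' := ⟨fun _ => 0, fun e _ => rfl, fun w => by simp⟩
      add_mem' := by
        rintro x x' ⟨y, hy, hyx⟩ ⟨y', hy', hyx'⟩
        refine ⟨fun e => y e + y' e, fun e he => by simp [hy e he, hy' e he], fun w => ?_⟩
        rw [Pi.add_apply, ← hyx w, ← hyx' w, ← Finset.sum_add_distrib]
        apply Finset.sum_congr rfl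
        intro h _
        split_ifs <;> simp
      smul_mem' := by
        rintro r x ⟨y, hy, hyx⟩
        refine ⟨fun e => r * y e, fun e he => by simp [hy e he], fun w => ?_⟩
        rw [Pi.smul_apply, smul_eq_mul, ← hyx w, Finset.mul_sum]
        apply Finset.sum_congr rfl
        intro h _
        split_ifs <;> simp }
  suffices h : T ∈ S from h
  by_contra hcon
  obtain ⟨f, hf1, hf2⟩ := Submodule.exists_dual_map_eq_bot_of_notMem hcon inferInstance
  have hf : ∀ x ∈ S, f x = 0 := by
    intro x hx
    have : f x ∈ S.map f := Submodule.mem_map_of_mem hx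
    rw [hf2] at this
    exact (Submodule.mem_bot F2).1 this
  apply hf1
  rw [functional_eq f T]
  apply hT (fun w => f (Pi.single w 1))
  intro e he
  have hmem : (fun w => ∑ h : E × Bool, (if v h = w then (if h.1 = e then 1 else 0 : F2) else 0)) ∈
      S := by
    refine ⟨fun e' => if e' = e then 1 else 0, fun e' he' => ?_, fun w => rfl⟩
    show (if e' = e then (1 : F2) else 0) = 0
    rw [if_neg]
    rintro rfl
    exact he' he
  have h1 := hf _ hmem
  have h2 : (fun w => ∑ h : E × Bool, (if v h = w then (if h.1 = e then 1 else 0 : F2) else 0)) =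
      (Pi.single (v (e, false)) 1 + Pi.single (v (e, true)) 1 : W → F2) := by
    ext w
    rw [Fintype.sum_prod_type]
    have h3 : ∀ e' ∈ (univ : Finset E), ∑ s : Bool, (if v (e', s) = w then
        (if e' = e then 1 else 0 : F2) else 0) = if e' = e then
          ((if v (e, true) = w then 1 else 0) + (if v (e, false) = w then 1 else 0)) else 0 := by
      intro e' _
      rw [Fintype.sum_bool]
      by_cases h4 : e' = e
      · subst h4; simp
      · simp [h4]
    rw [Finset.sum_congr rfl h3]
    simp only [Finset.sum_ite_eq', Finset.mem_univ, if_true, Pi.add_apply, Pi.single_apply]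
    rw [add_comm]
    congr 1
    · by_cases h4 : v (e, false) = w
      · rw [if_pos h4, if_pos h4.symm]
      · rw [if_neg h4, if_neg (Ne.symm h4)]
    · by_cases h4 : v (e, true) = w
      · rw [if_pos h4, if_pos h4.symm]
      · rw [if_neg h4, if_neg (Ne.symm h4)]
  rw [h2, map_add] at h1
  exact f2_eq_of_add h1

end

end Pool.Agent.X60.SDC
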