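import Pool.Agent.X60.SDC

set_option autoImplicit false
set_option linter.unusedSectionVars false

/-!
Splitting the components outside an even edge set; circuit covers of weights two and four.
-/

namespace Pool.Agent.X60.SDC

open Finset
open Pool.Agent.H126R2.CDC
open Pool.Agent.Helper879.ECD (F2 IsFlow f2_add_self f2_cases cn)

variable {V E : Type} [Fintype V] [DecidableEq V] [Fintype E] [DecidableEq E]

/-- a family of circuits from a family of even sets indexed by the eight colours -/
theorem cover_of_sets (G : MGraph V E) (v : E × Bool → V)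
    (hv : ∀ e, G.ends e = s(v (e, false), v (e, true))) (S : E → Finset T3)
    (hS : ∀ c, IsFl v (fun e => if c ∈ S e then 1 else 0)) :
    ∃ F : Multiset (Finset E), (∀ C ∈ F, G.IsCircuit C) ∧
      ∀ e, F.countP (fun C => e ∈ C) = (S e).card := by
  classical
  have hev : ∀ c : T3, G.IsEven (univ.filter (fun e => c ∈ S e)) := by
    intro c
    rw [G.isEven_iff v hv]
    have h1 := hS c
    have h2 : (fun e => if e ∈ univ.filter (fun e => c ∈ S e) then (1 : F2) else 0) =
        (fun e => if c ∈ S e then 1 else 0) := by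
      ext e; simp
    rw [h2]
    exact h1
  choose F hF1 hF2 using fun c => G.decompose _ _ rfl (hev c)
  refine ⟨∑ c, F c, ?_, ?_⟩
  · intro C hC
    rw [Multiset.mem_sum] at hC
    obtain ⟨c, _, hc⟩ := hC
    exact hF1 c C hc
  · intro e
    have h1 : ∀ s : Finset T3, (∑ c ∈ s, F c).countP (fun C => e ∈ C) =
        ∑ c ∈ s, (F c).countP (fun C => e ∈ C) := by
      intro s
      induction s using Finset.induction_on with
      | empty => simp
      | insert c s hc ih => rw [Finset.sum_insert hc, Finset.sum_insert hc, Multiset.countP_add, ih]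
    rw [h1]
    have h2 : ∀ c ∈ (univ : Finset T3), (F c).countP (fun C => e ∈ C) =
        if c ∈ S e then 1 else 0 := by
      intro c _
      rw [hF2 c e]
      simp
    rw [Finset.sum_congr rfl h2]
    simp

lemma card_halves (G : MGraph V E) (v : E × Bool → V)
    (hv : ∀ e, G.ends e = s(v (e, false), v (e, true))) (w : V) :
    G.deg univ w = (univ.filter (fun h => v h = w)).card := by
  rw [G.deg_eq_sum, Finset.card_filter, Fintype.sum_prod_type]
  apply Finset.sum_congr rfl
  intro e _
  rw [Fintype.sum_bool, G.ep_eq (hv e) w, add_comm]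

lemma isFl_add (v : E × Bool → V) (f g : E → F2) (hf : IsFl v f) (hg : IsFl v g) :
    IsFl v (fun e => f e + g e) := by
  intro w
  have h2 : ∑ h : E × Bool, (if v h = w then (f h.1 + g h.1) else 0) =
      ∑ h : E × Bool, (if v h = w then f h.1 else 0) +
        ∑ h : E × Bool, (if v h = w then g h.1 else 0) := by
    rw [← Finset.sum_add_distrib]
    apply Finset.sum_congr rfl
    intro h _
    split_ifs <;> simp
  show ∑ h : E × Bool, (if v h = w then (f h.1 + g h.1) else 0) = 0
  rw [h2, hf w, hg w, add_zero]

/-- The weight with value one or three on `A` (three on `Z`), two on the edges outside `A` inside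
`Y`, zero on the others. -/
def halfWeight (G : MGraph V E) (A Z : Finset E) (Y : Finset V) (e : E) : ℕ :=
  if e ∈ A then (if e ∈ Z then 3 else 1) else if ∀ u ∈ G.ends e, u ∈ Y then 2 else 0

/-- The splitting theorem. -/
theorem splitting (G : MGraph V E) (hdeg : ∀ w, G.deg univ w ≤ 3) (A B C : Finset E)
    (hA : G.IsEven A) (hB : G.IsEven B) (hC : G.IsEven C) (hcov : ∀ e, e ∈ A ∨ e ∈ B ∨ e ∈ C) :
    ∃ Y : Finset V, (∀ e ∉ A, (∀ u ∈ G.ends e, u ∈ Y) ∨ (∀ u ∈ G.ends e, u ∉ Y)) ∧
      ∀ Z : Finset E, G.IsEven Z →
        ((∀ e ∈ Z, e ∉ A → ∀ u ∈ G.ends e, u ∈ Y) →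
          ∃ F : Multiset (Finset E), (∀ D ∈ F, G.IsCircuit D) ∧
            ∀ e, F.countP (fun D => e ∈ D) = halfWeight G A Z Y e) ∧
        ((∀ e ∈ Z, e ∉ A → ∀ u ∈ G.ends e, u ∉ Y) →
          ∃ F : Multiset (Finset E), (∀ D ∈ F, G.IsCircuit D) ∧
            ∀ e, F.countP (fun D => e ∈ D) = halfWeight G A Z Yᶜ e) := by
  classical
  obtain ⟨v, hv⟩ := G.exists_halves
  let P : Fin 3 → Finset E := ![A, B, C]
  let Φ : Fin 3 → E → F2 := fun i e => if e ∈ P i then 1 else 0
  have hΦ : ∀ i, IsFl v (Φ i) := by
    intro i
    have h1 : G.IsEven (P i) := by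
      fin_cases i
      · exact hA
      · exact hB
      · exact hC
    exact (G.isEven_iff v hv _).1 h1
  have hnz : ∀ e, Φ 0 e ≠ 0 ∨ Φ 1 e ≠ 0 ∨ Φ 2 e ≠ 0 := by
    intro e
    rcases hcov e with h | h | h
    · left; show (if e ∈ A then (1 : F2) else 0) ≠ 0; rw [if_pos h]; decide
    · right; left; show (if e ∈ B then (1 : F2) else 0) ≠ 0; rw [if_pos h]; decide
    · right; right; show (if e ∈ C then (1 : F2) else 0) ≠ 0; rw [if_pos h]; decide
  have hd : ∀ w, (univ.filter (fun h => v h = w)).card ≤ 3 := by
    intro w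
    rw [← card_halves G v hv w]
    exact hdeg w
  obtain ⟨Q, hQ1, hQ2, hQ3⟩ := structured v hd Φ hΦ hnz
  have hAlab : ∀ e, (lab Φ e).1 = decide (e ∈ A) := by
    intro e
    show toB (if e ∈ A then (1 : F2) else 0) = _
    by_cases h : e ∈ A
    · simp [h, toB]
    · simp [h, toB]
  let side : E → Bool := fun e => sd (lab Φ e) (lab Q e)
  have hside : ∀ h h' : E × Bool, v h = v h' → h.1 ∉ A → h'.1 ∉ A → side h.1 = side h'.1 := by
    intro h h' hh h1 h2
    apply hQ3 h h' hh
    · show (if h.1 ∈ A then (1 : F2) else 0) = 0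
      rw [if_neg h1]
    · show (if h'.1 ∈ A then (1 : F2) else 0) = 0
      rw [if_neg h2]
  let Y : Finset V := univ.filter (fun w => ∃ h : E × Bool, v h = w ∧ h.1 ∉ A ∧ side h.1 = true)
  have hends : ∀ e u, u ∈ G.ends e ↔ ∃ b, v (e, b) = u := by
    intro e u
    rw [hv e, Sym2.mem_iff]
    constructor
    · rintro (h | h)
      · exact ⟨false, h.symm⟩
      · exact ⟨true, h.symm⟩
    · rintro ⟨b, h⟩
      cases b
      · exact Or.inl h.symm
      · exact Or.inr h.symm
  have hY1 : ∀ e, e ∉ A → side e = true → ∀ u ∈ G.ends e, u ∈ Y := by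
    intro e he hs u hu
    obtain ⟨b, hb⟩ := (hends e u).1 hu
    exact Finset.mem_filter.2 ⟨Finset.mem_univ _, (e, b), hb, he, hs⟩
  have hY2 : ∀ e, e ∉ A → side e = false → ∀ u ∈ G.ends e, u ∉ Y := by
    intro e he hs u hu hY
    obtain ⟨b, hb⟩ := (hends e u).1 hu
    obtain ⟨h, h1, h2, h3⟩ := (Finset.mem_filter.1 hY).2
    have h4 := hside h (e, b) (h1.trans hb.symm) h2 he
    rw [h3] at h4
    have h5 : side e = true := h4.symm
    rw [hs] at h5
    exact absurd h5 (by decide)
  -- an end of each edge
  have hne : ∀ e, ∃ u, u ∈ G.ends e := fun e => ⟨v (e, false), (hends e _).2 ⟨false, rfl⟩⟩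
  have hYiff : ∀ e, e ∉ A → ((∀ u ∈ G.ends e, u ∈ Y) ↔ side e = true) := by
    intro e he
    constructor
    · intro h
      by_contra hs
      have hs' : side e = false := by simpa using hs
      obtain ⟨u, hu⟩ := hne e
      exact hY2 e he hs' u hu (h u hu)
    · exact hY1 e he
  have hYiff' : ∀ e, e ∉ A → ((∀ u ∈ G.ends e, u ∉ Y) ↔ side e = false) := by
    intro e he
    constructor
    · intro h
      by_contra hs
      have hs' : side e = true := by simpa using hs
      obtain ⟨u, hu⟩ := hne e
      exact h u hu (hY1 e he hs' u hu)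
    · exact hY2 e he
  -- the halves
  have key : ∀ (s : Bool) (Z : Finset E), G.IsEven Z → (∀ e ∈ Z, e ∉ A → side e = s) →
      ∃ F : Multiset (Finset E), (∀ D ∈ F, G.IsCircuit D) ∧
        ∀ e, F.countP (fun D => e ∈ D) =
          if e ∈ A then (if e ∈ Z then 3 else 1) else if side e = s then 2 else 0 := by
    intro s Z hZ hZs
    obtain ⟨F, hF1, hF2⟩ := cover_of_sets G v hv
      (fun e => univ.filter (fun c : T3 =>
        (xor (inS c (lab Φ e) (lab Q e)) (decide (e ∈ Z)) && (c.1 == s)) = true)) (by
        intro c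
        have hz := (G.isEven_iff v hv Z).1 hZ
        by_cases hcs : c.1 = s
        · have h1 := isFl_add v _ _ (hQ2 c) hz
          convert h1 using 2 with e
          simp only [Finset.mem_filter, Finset.mem_univ, true_and, hcs, beq_self_eq_true,
            Bool.and_true]
          by_cases h2 : inS c (lab Φ e) (lab Q e) = true
          · by_cases h3 : e ∈ Z
            · rw [h2]
              simp only [h3, decide_true, Bool.xor_self, if_true]
              rw [if_neg (by decide), f2_add_self]
            · simp [h2, h3]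
          · have h2' : inS c (lab Φ e) (lab Q e) = false := by simpa using h2
            by_cases h3 : e ∈ Z
            · simp [h2', h3]
            · simp [h2', h3]
        · intro w
          apply Finset.sum_eq_zero
          intro h _
          simp [hcs])
    refine ⟨F, hF1, fun e => ?_⟩
    rw [hF2 e, card_half (lab Φ e) (lab Q e) s (decide (e ∈ Z)) (hQ1 e) ?_, hAlab e]
    · simp only [decide_eq_true_eq]
      rfl
    · intro h1 h2
      rw [hAlab e] at h1
      exact hZs e (by simpa using h2) (by simpa using h1)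
  refine ⟨Y, ?_, ?_⟩
  · intro e he
    cases hs : side e with
    | true => exact Or.inl (hY1 e he hs)
    | false => exact Or.inr (hY2 e he hs)
  · intro Z hZ
    refine ⟨fun h => ?_, fun h => ?_⟩
    · obtain ⟨F, hF1, hF2⟩ := key true Z hZ (fun e he heA => (hYiff e heA).1 (h e he heA))
      refine ⟨F, hF1, fun e => ?_⟩
      rw [hF2 e]
      unfold halfWeight
      by_cases he : e ∈ A
      · simp [he]
      · rw [if_neg he, if_neg he]
        simp only [hYiff e he]
    · obtain ⟨F, hF1, hF2⟩ := key false Z hZ (fun e he heA => (hYiff' e heA).1 (h e he heA))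
      refine ⟨F, hF1, fun e => ?_⟩
      rw [hF2 e]
      unfold halfWeight
      by_cases he : e ∈ A
      · simp [he]
      · rw [if_neg he, if_neg he]
        simp only [Finset.mem_compl, hYiff' e he]

/-- no edge of `K` leaves `X` -/
def Closed (G : MGraph V E) (K : Finset E) (X : Finset V) : Prop :=
  ∀ e ∈ K, (∀ u ∈ G.ends e, u ∈ X) ∨ (∀ u ∈ G.ends e, u ∉ X)

lemma sum_card (T : V → ℕ) (c : V → F2) :
    ∑ w, c w * (T w : F2) =
      (((univ.filter (fun w => c w = 1)).filter (fun w => Odd (T w))).card : F2) := by
  rw [Finset.filter_filter, Finset.card_filter, Nat.cast_sum]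
  apply Finset.sum_congr rfl
  intro w _
  rcases f2_cases (c w) with h | h
  · rw [h]; simp
  · rw [h, one_mul]
    by_cases ho : Odd (T w)
    · rw [if_pos ⟨rfl, ho⟩, Nat.cast_one]
      exact ZMod.natCast_eq_one_iff_odd.2 ho
    · rw [if_neg (fun h => ho h.2), Nat.cast_zero]
      exact ZMod.natCast_eq_zero_iff_even.2 (Nat.not_odd_iff_even.1 ho)

/-- Weights two and four. -/
theorem two_four (G : MGraph V E) (hdeg : ∀ w, G.deg univ w ≤ 3) (A B C : Finset E)
    (hA : G.IsEven A) (hB : G.IsEven B) (hC : G.IsEven C) (hcov : ∀ e, e ∈ A ∨ e ∈ B ∨ e ∈ C)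
    (J : Finset E) (hJA : J ⊆ A)
    (hJ : ∀ X Y : Finset V, Closed G J X → Closed G Aᶜ Y →
      Even ((X ∩ Y).filter (fun u => Odd (G.deg J u))).card) :
    ∃ F : Multiset (Finset E), (∀ D ∈ F, G.IsCircuit D) ∧
      ∀ e, F.countP (fun D => e ∈ D) = if e ∈ J then 4 else 2 := by
  classical
  obtain ⟨Y, hY, hZ⟩ := splitting G hdeg A B C hA hB hC hcov
  obtain ⟨v, hv⟩ := G.exists_halves
  have hends : ∀ e b, v (e, b) ∈ G.ends e := by
    intro e b
    rw [hv e, Sym2.mem_iff]
    cases b
    · exact Or.inl rfl
    · exact Or.inr rfl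
  -- the first join
  obtain ⟨y1, h11, h12⟩ := exists_boundary v Aᶜ (fun w => (G.deg J w : F2)) (by
    intro c hc
    rw [sum_card]
    apply ZMod.natCast_eq_zero_iff_even.2
    have h1 := hJ univ (univ.filter (fun w => c w = 1)) (fun e _ => Or.inl (fun u _ => mem_univ u))
      (by
        intro e he
        have h2 := hc e he
        by_cases h3 : c (v (e, false)) = 1
        · left
          intro u hu
          rw [hv e, Sym2.mem_iff] at hu
          rw [Finset.mem_filter]
          rcases hu with rfl | rfl
          · exact ⟨mem_univ _, h3⟩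
          · exact ⟨mem_univ _, h2 ▸ h3⟩
        · right
          intro u hu hmem
          rw [hv e, Sym2.mem_iff] at hu
          have h4 := (Finset.mem_filter.1 hmem).2
          rcases hu with rfl | rfl
          · exact h3 h4
          · exact h3 (h2.trans h4))
    rw [Finset.univ_inter] at h1
    exact h1)
  -- the second join
  obtain ⟨y2, h21, h22⟩ := exists_boundary v J
    (fun w => if w ∈ Y then 0 else (G.deg J w : F2)) (by
    intro c hc
    have h1 := hJ (univ.filter (fun w => c w = 1)) Yᶜ
      (by
        intro e he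
        have h2 := hc e he
        by_cases h3 : c (v (e, false)) = 1
        · left
          intro u hu
          rw [hv e, Sym2.mem_iff] at hu
          rw [Finset.mem_filter]
          rcases hu with rfl | rfl
          · exact ⟨mem_univ _, h3⟩
          · exact ⟨mem_univ _, h2 ▸ h3⟩
        · right
          intro u hu hmem
          rw [hv e, Sym2.mem_iff] at hu
          have h4 := (Finset.mem_filter.1 hmem).2
          rcases hu with rfl | rfl
          · exact h3 h4
          · exact h3 (h2.trans h4))
      (by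
        intro e he
        rcases hY e (by simpa using he) with h2 | h2
        · right; intro u hu; simpa using h2 u hu
        · left; intro u hu; simpa using h2 u hu)
    have h2 : ∑ w, c w * (if w ∈ Y then (0 : F2) else (G.deg J w : F2)) =
        ∑ w, (if w ∈ Y then 0 else c w) * (G.deg J w : F2) := by
      apply Finset.sum_congr rfl
      intro w _
      split_ifs <;> simp
    rw [h2, sum_card]
    apply ZMod.natCast_eq_zero_iff_even.2
    convert h1 using 3
    ext w
    simp only [Finset.mem_filter, Finset.mem_univ, true_and, Finset.mem_inter, Finset.mem_compl]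
    by_cases h3 : w ∈ Y
    · simp [h3]
    · simp [h3])
  -- the even sets
  let z2 : E → F2 := fun e => y2 e + (if (∀ u ∈ G.ends e, u ∈ Y) then 0 else y1 e)
  let z1 : E → F2 := fun e => ((if e ∈ J then 1 else 0) + y1 e) + z2 e
  have hz2 : IsFl v z2 := by
    intro w
    have h1 : ∀ h : E × Bool, (if v h = w then (if (∀ u ∈ G.ends h.1, u ∈ Y) then 0 else y1 h.1)
        else 0) = if w ∈ Y then (0 : F2) else (if v h = w then y1 h.1 else 0) := by
      rintro ⟨e, b⟩
      by_cases hvw : v (e, b) = w
      · rw [if_pos hvw, if_pos hvw]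
        by_cases heA : e ∈ A
        · have h3 : y1 e = 0 := h11 e (by simpa using heA)
          simp [h3]
        · rcases hY e heA with h4 | h4
          · have h5 : w ∈ Y := hvw ▸ h4 _ (hends e b)
            rw [if_pos h5, if_pos h4]
          · have h5 : w ∉ Y := hvw ▸ h4 _ (hends e b)
            rw [if_neg h5, if_neg]
            intro h6
            exact h4 _ (hends e b) (h6 _ (hends e b))
      · rw [if_neg hvw, if_neg hvw]
        split_ifs <;> rfl
    have h2 : ∑ h : E × Bool, (if v h = w then z2 h.1 else 0) =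
        ∑ h : E × Bool, (if v h = w then y2 h.1 else 0) +
        ∑ h : E × Bool, (if v h = w then (if (∀ u ∈ G.ends h.1, u ∈ Y) then 0 else y1 h.1)
          else 0) := by
      rw [← Finset.sum_add_distrib]
      apply Finset.sum_congr rfl
      intro h _
      by_cases hvw : v h = w
      · simp only [hvw, if_true]; rfl
      · simp [hvw]
    rw [h2, h22 w, Finset.sum_congr rfl (fun h _ => h1 h)]
    by_cases hw : w ∈ Y
    · simp [hw]
    · simp only [hw, if_false]
      rw [h12 w]
      exact f2_add_self _
  have hJy : IsFl v (fun e => (if e ∈ J then 1 else 0) + y1 e) := by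
    intro w
    have h2 : ∑ h : E × Bool, (if v h = w then ((if h.1 ∈ J then 1 else 0) + y1 h.1) else 0) =
        ∑ h : E × Bool, (if v h = w then (if h.1 ∈ J then (1 : F2) else 0) else 0) +
        ∑ h : E × Bool, (if v h = w then y1 h.1 else 0) := by
      rw [← Finset.sum_add_distrib]
      apply Finset.sum_congr rfl
      intro h _
      split_ifs <;> simp
    show ∑ h : E × Bool, (if v h = w then ((if h.1 ∈ J then 1 else 0) + y1 h.1) else 0) = 0
    rw [h2, h12 w, ← G.cast_deg v hv J w]
    exact f2_add_self _
  have hz1 : IsFl v z1 := isFl_add v _ _ hJy hz2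
  have hset : ∀ z : E → F2, IsFl v z → G.IsEven (univ.filter (fun e => z e = 1)) := by
    intro z hz
    rw [G.isEven_iff v hv]
    convert hz using 1
    ext e
    rcases f2_cases (z e) with h | h
    · simp [h]
    · simp [h]
  have hin : ∀ e ∉ A, y2 e = 0 := fun e he => h21 e (fun h => he (hJA h))
  obtain ⟨F1, hF11, hF12⟩ := (hZ _ (hset z1 hz1)).1 (by
    intro e he heA
    have h1 : z1 e = 1 := (Finset.mem_filter.1 he).2
    by_contra hcon
    have h2 : z1 e = 0 := by
      show ((if e ∈ J then 1 else 0) + y1 e) + (y2 e +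
        (if (∀ u ∈ G.ends e, u ∈ Y) then 0 else y1 e)) = 0
      rw [if_neg hcon, hin e heA, if_neg (fun h => heA (hJA h)), zero_add]
      exact f2_add_self _
    rw [h1] at h2
    exact absurd h2 (by decide))
  obtain ⟨F2', hF21, hF22⟩ := (hZ _ (hset z2 hz2)).2 (by
    intro e he heA
    have h1 : z2 e = 1 := (Finset.mem_filter.1 he).2
    rcases hY e heA with h2 | h2
    · exfalso
      have h3 : z2 e = 0 := by
        show y2 e + (if (∀ u ∈ G.ends e, u ∈ Y) then 0 else y1 e) = 0
        rw [if_pos h2, hin e heA, add_zero]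
      rw [h1] at h3
      exact absurd h3 (by decide)
    · exact h2)
  refine ⟨F1 + F2', ?_, ?_⟩
  · intro D hD
    rcases Multiset.mem_add.1 hD with h | h
    · exact hF11 D h
    · exact hF21 D h
  · intro e
    rw [Multiset.countP_add, hF12 e, hF22 e]
    unfold halfWeight
    by_cases heA : e ∈ A
    · rw [if_pos heA, if_pos heA]
      have hy1 : y1 e = 0 := h11 e (by simpa using heA)
      have hz2e : z2 e = y2 e := by
        show y2 e + (if (∀ u ∈ G.ends e, u ∈ Y) then 0 else y1 e) = y2 e
        rw [hy1]; simp
      have hz1e : z1 e = (if e ∈ J then 1 else 0) + y2 e := by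
        show ((if e ∈ J then 1 else 0) + y1 e) + z2 e = _
        rw [hy1, hz2e, add_zero]
      simp only [Finset.mem_filter, Finset.mem_univ, true_and, hz1e, hz2e]
      by_cases heJ : e ∈ J
      · simp only [heJ, if_true]
        rcases f2_cases (y2 e) with h | h
        · rw [h]; decide
        · rw [h]; decide
      · have h3 : y2 e = 0 := h21 e heJ
        simp only [heJ, if_false, h3]
        decide
    · have heJ : e ∉ J := fun h => heA (hJA h)
      rw [if_neg heA, if_neg heA, if_neg heJ]
      rcases hY e heA with h2 | h2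
      · rw [if_pos h2, if_neg]
        intro h3
        exact Finset.mem_compl.1 (h3 _ (hends e true)) (h2 _ (hends e true))
      · rw [if_neg, if_pos]
        · intro u hu
          exact Finset.mem_compl.2 (h2 u hu)
        · intro h3
          exact h2 _ (hends e true) (h3 _ (hends e true))

end Pool.Agent.X60.SDC
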