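import Pool.Agent.X60.SDC2

set_option autoImplicit false
set_option linter.unusedSectionVars false

/-!
Circuit covers of weights two and four, the edges of weight four forming a connected set.
-/

namespace Pool.Agent.X60.SDC

open Finset
open Pool.Agent.H126R2.CDC
open Pool.Agent.Helper879.ECD (F2 IsFlow f2_add_self f2_cases cn)

variable {V E : Type} [Fintype V] [DecidableEq V] [Fintype E] [DecidableEq E]

/-- the zero label -/
def z3 : T3 := (false, false, false)

/-- the line of the label `(x, t)`, empty if `x = 0` -/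
def inL (c x t : T3) : Bool := decide (x ≠ z3) && inS c x t

/-- admissible labels -/
def okL (x t : T3) : Bool := if x = z3 then decide (t = z3) else dot x t

theorem tri_inL : ∀ x1 t1 x2 t2 c : T3,
    (okL x1 t1 && okL x2 t2 && okL (T3.add x1 x2) (T3.add t1 t2)) = true →
    xor (xor (inL c x1 t1) (inL c x2 t2)) (inL c (T3.add x1 x2) (T3.add t1 t2)) = false := by
  decide +kernel

theorem card_four : ∀ (x t z : T3) (w : Bool), okL x t = true →
    ((x = z3 ∧ z ≠ z3) ∨ dot x z = true) →
    (Finset.univ.filter (fun c : T3 => xor (xor (inL c x t) (dot c z)) w = true)).card = 4 := by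
  decide +kernel

theorem card_two_six : ∀ (x t z : T3), okL x t = true → decide (x = z3) = false → dot x z = false →
    ((Finset.univ.filter (fun c : T3 => xor (inL c x t) (dot c z) = true)).card = 2 ∧
      (Finset.univ.filter (fun c : T3 => xor (xor (inL c x t) (dot c z)) false = true)).card = 2) ∨
    ((Finset.univ.filter (fun c : T3 => xor (inL c x t) (dot c z) = true)).card = 6 ∧
      (Finset.univ.filter (fun c : T3 => xor (xor (inL c x t) (dot c z)) true = true)).card = 2) := by
  decide +kernel

/-- parity of the number of sets with six elements -/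
theorem six_parity (A B : Finset T3) (hA : A.card = 2 ∨ A.card = 6) (hB : B.card = 2 ∨ B.card = 6)
    (hC : (symmDiff A B).card = 2 ∨ (symmDiff A B).card = 6) :
    (if A.card = 6 then (1 : F2) else 0) + ((if B.card = 6 then 1 else 0) +
      (if (symmDiff A B).card = 6 then 1 else 0)) = 0 := by
  have h1 : (symmDiff A B).card + 2 * (A ∩ B).card = A.card + B.card := by
    have h2 : symmDiff A B = (A \ B) ∪ (B \ A) := rfl
    have h3 : Disjoint (A \ B) (B \ A) := disjoint_sdiff_sdiff
    rw [h2, Finset.card_union_of_disjoint h3]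
    have h4 := Finset.card_sdiff_add_card_inter A B
    have h5 := Finset.card_sdiff_add_card_inter B A
    rw [Finset.inter_comm B A] at h5
    omega
  have h6 : (A ∪ B).card ≤ 8 := by
    have := Finset.card_le_univ (A ∪ B)
    have h8 : Fintype.card T3 = 8 := by decide
    omega
  have h7 := Finset.card_union_add_card_inter A B
  have h9 : (A ∩ B).card ≤ A.card := Finset.card_le_card Finset.inter_subset_left
  have h10 : (A ∩ B).card ≤ B.card := Finset.card_le_card Finset.inter_subset_right
  rcases hA with hA | hA <;> rcases hB with hB | hB <;> rcases hC with hC | hC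
  all_goals first | (exfalso; omega) | (simp [hA, hB, hC]; done) | skip
  all_goals (rw [hA, hB, hC]; decide)

lemma ind_xor (a b : Bool) : (if xor a b = true then (1 : F2) else 0) =
    (if a = true then 1 else 0) + (if b = true then 1 else 0) := by
  cases a <;> cases b <;> decide

lemma isFl_zero (v : E × Bool → V) : IsFl v (fun _ => 0) := by
  intro w
  apply Finset.sum_eq_zero
  intro h _
  simp

lemma ind_dot : ∀ (c : T3) (a1 a2 a3 : F2),
    (if dot c (toB a1, toB a2, toB a3) = true then (1 : F2) else 0) =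
      ((if c.1 = true then a1 else 0) + (if c.2.1 = true then a2 else 0)) +
        (if c.2.2 = true then a3 else 0) := by
  decide +kernel

lemma isFl_dot (v : E × Bool → V) (Ψ : Fin 3 → E → F2) (hΨ : ∀ i, IsFl v (Ψ i)) (c : T3) :
    IsFl v (fun e => if dot c (lab Ψ e) = true then 1 else 0) := by
  have h1 : ∀ (b : Bool) (i : Fin 3), IsFl v (fun e => if b = true then Ψ i e else 0) := by
    intro b i
    cases b
    · simpa using isFl_zero v
    · simpa using hΨ i
  have h2 := isFl_add v _ _ (isFl_add v _ _ (h1 c.1 0) (h1 c.2.1 1)) (h1 c.2.2 2)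
  convert h2 using 2 with e
  exact ind_dot c (Ψ 0 e) (Ψ 1 e) (Ψ 2 e)

lemma dot_iff (P Z : Fin 3 → Finset E) (e : E) :
    dot (lab (fun i e => if e ∈ P i then (1 : F2) else 0) e)
      (lab (fun i e => if e ∈ Z i then (1 : F2) else 0) e) = true ↔
      Odd (univ.filter (fun i : Fin 3 => e ∈ P i ∧ e ∈ Z i)).card := by
  have h1 : ∀ (K : Finset E), toB (if e ∈ K then (1 : F2) else 0) = decide (e ∈ K) := by
    intro K
    by_cases h : e ∈ K
    · simp [h, toB]
    · simp [h, toB]
  rw [Finset.card_filter, Fin.sum_univ_three]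
  unfold lab dot
  simp only [h1]
  by_cases a1 : e ∈ P 0 <;> by_cases a2 : e ∈ P 1 <;> by_cases a3 : e ∈ P 2 <;>
    by_cases b1 : e ∈ Z 0 <;> by_cases b2 : e ∈ Z 1 <;> by_cases b3 : e ∈ Z 2 <;>
    simp [a1, a2, a3, b1, b2, b3, Nat.odd_iff]

lemma sum_ext (p : E → Prop) [DecidablePred p] (g : {e // p e} → F2) (f : E → F2) :
    ∑ e, (if h : p e then g ⟨e, h⟩ else 0) * f e = ∑ e' : {e // p e}, g e' * f e'.1 := by
  have h1 : ∑ e ∈ univ.filter p, (if h : p e then g ⟨e, h⟩ else 0) * f e =
      ∑ e' : {e // p e}, (if h : p e'.1 then g ⟨e'.1, h⟩ else 0) * f e'.1 :=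
    Finset.sum_subtype _ (by simp) _
  have h2 : ∑ e ∈ univ.filter p, (if h : p e then g ⟨e, h⟩ else 0) * f e =
      ∑ e, (if h : p e then g ⟨e, h⟩ else 0) * f e := by
    apply Finset.sum_filter_of_ne
    intro e _ h
    by_contra hp
    rw [dif_neg hp, zero_mul] at h
    exact h rfl
  rw [← h2, h1]
  apply Finset.sum_congr rfl
  rintro ⟨e, he⟩ _
  rw [dif_pos he]

/-- the lift for flows with zeros: the lifted flows vanish there -/
theorem lift0 (a b : E → V) (A : Fin 3 → E → F2) (hA : ∀ i, IsFlow a b (A i)) :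
    ∃ B : Fin 3 → E → F2, (∀ i, IsFlow a b (B i)) ∧
      (∀ e, (A 0 e ≠ 0 ∨ A 1 e ≠ 0 ∨ A 2 e ≠ 0) →
        A 0 e * B 0 e + A 1 e * B 1 e + A 2 e * B 2 e = 1) ∧
      ∀ e, ¬ (A 0 e ≠ 0 ∨ A 1 e ≠ 0 ∨ A 2 e ≠ 0) → ∀ i, B i e = 0 := by
  classical
  let p : E → Prop := fun e => A 0 e ≠ 0 ∨ A 1 e ≠ 0 ∨ A 2 e ≠ 0
  have hzero : ∀ e, ¬ p e → ∀ i, A i e = 0 := by
    intro e he i
    simp only [p, not_or, not_not] at he
    fin_cases i
    · exact he.1
    · exact he.2.1
    · exact he.2.2
  obtain ⟨B, hB, hAB⟩ := lift (E := {e // p e}) (fun e => a e.1) (fun e => b e.1)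
    (fun i e => A i e.1) (by
      intro i c
      have h1 := sum_ext p (fun e => A i e.1) (fun e => c (a e) + c (b e))
      refine h1.symm.trans (Eq.trans (Finset.sum_congr rfl ?_) (hA i c))
      intro e _
      by_cases he : p e
      · rw [dif_pos he]
      · rw [dif_neg he, hzero e he i])
    (fun e => e.2)
  refine ⟨fun i e => if h : p e then B i ⟨e, h⟩ else 0, ?_, ?_, ?_⟩
  · intro i c
    have h1 := sum_ext p (B i) (fun e => c (a e) + c (b e))
    exact h1.trans (hB i c)
  · intro e he
    have he' : p e := he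
    simp only [dif_pos he']
    exact hAB ⟨e, he'⟩
  · intro e he i
    exact dif_neg he

theorem structured0 (v : E × Bool → V) (hdeg : ∀ w, (univ.filter (fun h => v h = w)).card ≤ 3)
    (A : Fin 3 → E → F2) (hA : ∀ i, IsFl v (A i)) :
    ∃ B : Fin 3 → E → F2, (∀ e, okL (lab A e) (lab B e) = true) ∧
      (∀ c, IsFl v (fun e => if inL c (lab A e) (lab B e) = true then 1 else 0)) := by
  obtain ⟨B, hB, hAB, hB0⟩ := lift0 (fun e => v (e, false)) (fun e => v (e, true)) A
    (fun i => (isFl_iff v (A i)).1 (hA i))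
  have hB' : ∀ i, IsFl v (B i) := fun i => (isFl_iff v (B i)).2 (hB i)
  have hlab0 : ∀ e, lab A e = z3 ↔ ¬ (A 0 e ≠ 0 ∨ A 1 e ≠ 0 ∨ A 2 e ≠ 0) := by
    intro e
    have h1 : ∀ a1 a2 a3 : F2, (toB a1, toB a2, toB a3) = z3 ↔ ¬ (a1 ≠ 0 ∨ a2 ≠ 0 ∨ a3 ≠ 0) := by
      decide +kernel
    exact h1 _ _ _
  have hok : ∀ e, okL (lab A e) (lab B e) = true := by
    intro e
    unfold okL
    by_cases he : lab A e = z3
    · rw [if_pos he]
      have h1 := hB0 e ((hlab0 e).1 he)
      unfold lab
      rw [h1 0, h1 1, h1 2]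
      decide
    · rw [if_neg he]
      have h1 := not_not.1 (fun h => he ((hlab0 e).2 h))
      exact toB_dot _ _ _ _ _ _ (hAB e h1)
  have hgoal : ∀ (g : E → F2) (w : V), ∑ h : E × Bool, (if v h = w then g h.1 else 0) =
        ∑ h ∈ univ.filter (fun h => v h = w), g h.1 := by
      intro g w; rw [Finset.sum_filter]
  refine ⟨B, hok, ?_⟩
  intro c w
  have hA2 : ∀ i, ∑ h ∈ univ.filter (fun h => v h = w), A i h.1 = 0 := by
    intro i; rw [← hgoal]; exact hA i w
  have hB2 : ∀ i, ∑ h ∈ univ.filter (fun h => v h = w), B i h.1 = 0 := by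
    intro i; rw [← hgoal]; exact hB' i w
  rw [hgoal (fun e => if inL c (lab A e) (lab B e) = true then 1 else 0)]
  have hd := hdeg w
  generalize univ.filter (fun h => v h = w) = H at *
  have hcases : H.card = 0 ∨ H.card = 1 ∨ H.card = 2 ∨ H.card = 3 := by omega
  rcases hcases with h0 | h0 | h0 | h0
  · rw [Finset.card_eq_zero.1 h0, Finset.sum_empty]
  · obtain ⟨x, rfl⟩ := Finset.card_eq_one.1 h0
    simp only [Finset.sum_singleton] at hA2 ⊢
    have h1 : lab A x.1 = z3 := by
      rw [hlab0]
      rintro (h | h | h)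
      · exact h (hA2 0)
      · exact h (hA2 1)
      · exact h (hA2 2)
    rw [h1]
    simp [inL]
  · obtain ⟨x, y, hxy, rfl⟩ := Finset.card_eq_two.1 h0
    rw [Finset.sum_pair hxy]
    have h1 : lab A x.1 = lab A y.1 := lab_congr A _ _ (fun i => by
      have := hA2 i
      rw [Finset.sum_pair hxy] at this
      exact f2_eq_of_add this)
    have h2 : lab B x.1 = lab B y.1 := lab_congr B _ _ (fun i => by
      have := hB2 i
      rw [Finset.sum_pair hxy] at this
      exact f2_eq_of_add this)
    rw [h1, h2]
    exact f2_add_self _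
  · obtain ⟨x, y, z, hxy, hxz, hyz, rfl⟩ := Finset.card_eq_three.1 h0
    have hs : ∀ g : E × Bool → F2, ∑ h ∈ ({x, y, z} : Finset (E × Bool)), g h =
        g x + (g y + g z) := by
      intro g
      rw [Finset.sum_insert (by simp [hxy, hxz]), Finset.sum_pair hyz]
    rw [hs]
    have h1 : lab A z.1 = T3.add (lab A x.1) (lab A y.1) := lab_add A _ _ _ (fun i => by
      have := hA2 i
      rw [hs] at this
      exact f2_eq_of_add3 this)
    have h2 : lab B z.1 = T3.add (lab B x.1) (lab B y.1) := lab_add B _ _ _ (fun i => by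
      have := hB2 i
      rw [hs] at this
      exact f2_eq_of_add3 this)
    apply xor3
    rw [h1, h2]
    apply tri_inL
    rw [hok x.1, hok y.1, ← h1, ← h2, hok z.1]
    rfl

/-- Weights two and four, the edges of weight four forming a connected set. -/
theorem connected_fours (G : MGraph V E) (hdeg : ∀ w, G.deg univ w ≤ 3)
    (P Z : Fin 3 → Finset E) (hP : ∀ i, G.IsEven (P i)) (hZ : ∀ i, G.IsEven (Z i))
    (hcov : ∀ e, ∃ i, e ∈ P i ∨ e ∈ Z i) (J : Finset E)
    (hJ : ∀ e, e ∈ J ↔ (∀ i, e ∉ P i) ∨
      Odd (univ.filter (fun i : Fin 3 => e ∈ P i ∧ e ∈ Z i)).card)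
    (hconn : ∀ e ∈ J, ∀ f ∈ J,
      Relation.ReflTransGen (fun a b => b ∈ J ∧ ∃ v, v ∈ G.ends a ∧ v ∈ G.ends b) e f) :
    ∃ F : Multiset (Finset E), (∀ D ∈ F, G.IsCircuit D) ∧
      ∀ e, F.countP (fun D => e ∈ D) = if e ∈ J then 4 else 2 := by
  classical
  obtain ⟨v, hv⟩ := G.exists_halves
  let Φ : Fin 3 → E → F2 := fun i e => if e ∈ P i then 1 else 0
  let Ψ : Fin 3 → E → F2 := fun i e => if e ∈ Z i then 1 else 0
  have hΦ : ∀ i, IsFl v (Φ i) := fun i => (G.isEven_iff v hv _).1 (hP i)
  have hΨ : ∀ i, IsFl v (Ψ i) := fun i => (G.isEven_iff v hv _).1 (hZ i)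
  have hlab : ∀ (R : Fin 3 → Finset E) (e : E),
      lab (fun i e => if e ∈ R i then (1 : F2) else 0) e = z3 ↔ ∀ i, e ∉ R i := by
    intro R e
    have h1 : ∀ (K : Finset E), toB (if e ∈ K then (1 : F2) else 0) = decide (e ∈ K) := by
      intro K
      by_cases h : e ∈ K
      · simp [h, toB]
      · simp [h, toB]
    unfold lab z3
    simp only [h1]
    constructor
    · intro h i
      simp only [Prod.mk.injEq, decide_eq_false_iff_not] at h
      fin_cases i
      · exact h.1
      · exact h.2.1
      · exact h.2.2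
    · intro h
      simp [h 0, h 1, h 2]
  have hd : ∀ w, (univ.filter (fun h => v h = w)).card ≤ 3 := by
    intro w
    rw [← card_halves G v hv w]
    exact hdeg w
  obtain ⟨Q, hQ1, hQ2⟩ := structured0 v hd Φ hΦ
  have hJd : ∀ e, e ∈ J ↔ lab Φ e = z3 ∨ dot (lab Φ e) (lab Ψ e) = true := by
    intro e
    rw [hJ e, dot_iff P Z e, hlab P e]
  have hJd' : ∀ e, e ∈ J → (lab Φ e = z3 ∧ lab Ψ e ≠ z3) ∨ dot (lab Φ e) (lab Ψ e) = true := by
    intro e he
    rcases (hJd e).1 he with h | h
    · left
      refine ⟨h, fun h2 => ?_⟩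
      obtain ⟨i, hi⟩ := hcov e
      rcases hi with hi | hi
      · exact (hlab P e).1 h i hi
      · exact (hlab Z e).1 h2 i hi
    · exact Or.inr h
  have hJn : ∀ e, e ∉ J → lab Φ e ≠ z3 ∧ dot (lab Φ e) (lab Ψ e) = false := by
    intro e he
    rw [hJd e, not_or] at he
    exact ⟨he.1, by simpa using he.2⟩
  have hends : ∀ e b, v (e, b) ∈ G.ends e := by
    intro e b
    rw [hv e, Sym2.mem_iff]
    cases b
    · exact Or.inl rfl
    · exact Or.inr rfl
  -- the first sets
  let S : E → Finset T3 := fun e =>
    univ.filter (fun c : T3 => xor (inL c (lab Φ e) (lab Q e)) (dot c (lab Ψ e)) = true)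
  have hSmem : ∀ e c, c ∈ S e ↔ xor (inL c (lab Φ e) (lab Q e)) (dot c (lab Ψ e)) = true := by
    intro e c
    simp [S]
  have hSfl : ∀ c, IsFl v (fun e => if c ∈ S e then 1 else 0) := by
    intro c
    have h1 := isFl_add v _ _ (hQ2 c) (isFl_dot v Ψ hΨ c)
    convert h1 using 2 with e
    rw [← ind_xor]
    simp only [hSmem]
  let b : E → F2 := fun e => if (S e).card = 6 then 1 else 0
  have hb : ∀ e, e ∉ J → (S e).card = 2 ∨ (S e).card = 6 := by
    intro e he
    rcases card_two_six (lab Φ e) (lab Q e) (lab Ψ e) (hQ1 e) (decide_eq_false (hJn e he).1) (hJn e he).2 with h | h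
    · exact Or.inl h.1
    · exact Or.inr h.1
  -- vertices without edges of `J`
  have hT0 : ∀ w, (∀ h : E × Bool, v h = w → h.1 ∉ J) →
      ∑ h ∈ univ.filter (fun h => v h = w), b h.1 = 0 := by
    intro w hw
    have hfl : ∀ c, ∑ h ∈ univ.filter (fun h => v h = w), (if c ∈ S h.1 then (1 : F2) else 0) = 0 := by
      intro c
      rw [Finset.sum_filter]
      exact hSfl c w
    have hd' := hd w
    have hw' : ∀ h ∈ univ.filter (fun h => v h = w), h.1 ∉ J := by
      intro h hh
      exact hw h (Finset.mem_filter.1 hh).2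
    generalize univ.filter (fun h => v h = w) = H at *
    have hcases : H.card = 0 ∨ H.card = 1 ∨ H.card = 2 ∨ H.card = 3 := by omega
    rcases hcases with h0 | h0 | h0 | h0
    · rw [Finset.card_eq_zero.1 h0, Finset.sum_empty]
    · obtain ⟨x, rfl⟩ := Finset.card_eq_one.1 h0
      exfalso
      have h1 : S x.1 = ∅ := by
        apply Finset.eq_empty_of_forall_notMem
        intro c hc
        have h2 := hfl c
        rw [Finset.sum_singleton, if_pos hc] at h2
        exact absurd h2 (by decide)
      rcases hb x.1 (hw' x (Finset.mem_singleton_self x)) with h2 | h2 <;>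
        rw [h1, Finset.card_empty] at h2 <;> omega
    · obtain ⟨x, y, hxy, rfl⟩ := Finset.card_eq_two.1 h0
      have h1 : S x.1 = S y.1 := by
        ext c
        have h2 := hfl c
        rw [Finset.sum_pair hxy] at h2
        have h3 := f2_eq_of_add h2
        by_cases c1 : c ∈ S x.1 <;> by_cases c2 : c ∈ S y.1 <;> simp_all
      rw [Finset.sum_pair hxy]
      have h2 : b x.1 = b y.1 := by
        show (if (S x.1).card = 6 then (1 : F2) else 0) = if (S y.1).card = 6 then 1 else 0
        rw [h1]
      rw [h2]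
      exact f2_add_self _
    · obtain ⟨x, y, z, hxy, hxz, hyz, rfl⟩ := Finset.card_eq_three.1 h0
      have hs : ∀ g : E × Bool → F2, ∑ h ∈ ({x, y, z} : Finset (E × Bool)), g h =
          g x + (g y + g z) := by
        intro g
        rw [Finset.sum_insert (by simp [hxy, hxz]), Finset.sum_pair hyz]
      have h1 : S z.1 = symmDiff (S x.1) (S y.1) := by
        ext c
        have h2 := hfl c
        rw [hs] at h2
        rw [Finset.mem_symmDiff]
        by_cases c1 : c ∈ S x.1 <;> by_cases c2 : c ∈ S y.1 <;> by_cases c3 : c ∈ S z.1 <;>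
          simp_all
        all_goals (revert h2; decide)
      rw [hs]
      have h2 := six_parity (S x.1) (S y.1) (hb x.1 (hw' x (by simp))) (hb y.1 (hw' y (by simp)))
        (by rw [← h1]; exact hb z.1 (hw' z (by simp)))
      rw [← h1] at h2
      exact h2
  -- the total boundary
  have hTsum : ∑ w : V, ∑ h : E × Bool, (if v h = w then (if h.1 ∈ J then 0 else b h.1) else 0) = 0 := by
    rw [Finset.sum_comm]
    have h1 : ∀ h ∈ (univ : Finset (E × Bool)),
        ∑ w : V, (if v h = w then (if h.1 ∈ J then 0 else b h.1) else 0) =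
          if h.1 ∈ J then 0 else b h.1 := by
      intro h _
      simp
    rw [Finset.sum_congr rfl h1, Fintype.sum_prod_type]
    apply Finset.sum_eq_zero
    intro e _
    rw [Fintype.sum_bool]
    exact f2_add_self _
  obtain ⟨y, hy1, hy2⟩ := exists_boundary v J
    (fun w => ∑ h : E × Bool, (if v h = w then (if h.1 ∈ J then 0 else b h.1) else 0)) (by
    intro c hc
    by_cases hne : J.Nonempty
    · obtain ⟨e0, he0⟩ := hne
      -- `c` is constant on the ends of the edges of `J`
      have hconst : ∀ f, Relation.ReflTransGen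
          (fun a b => b ∈ J ∧ ∃ v, v ∈ G.ends a ∧ v ∈ G.ends b) e0 f →
          ∀ u ∈ G.ends f, c u = c (v (e0, false)) := by
        intro f hf
        induction hf with
        | refl =>
          intro u hu
          rw [hv e0, Sym2.mem_iff] at hu
          rcases hu with rfl | rfl
          · rfl
          · exact (hc e0 he0).symm
        | @tail a f _ hstep ih =>
          obtain ⟨hfJ, u0, hu0, hu0'⟩ := hstep
          intro u hu
          have h1 := ih u0 hu0
          have h2 := hc f hfJ
          rw [hv f, Sym2.mem_iff] at hu hu0'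
          rcases hu with rfl | rfl <;> rcases hu0' with rfl | rfl
          · exact h1
          · exact h2.trans h1
          · exact h2.symm.trans h1
          · exact h1
      have h1 : ∀ w ∈ (univ : Finset V),
          c w * ∑ h : E × Bool, (if v h = w then (if h.1 ∈ J then 0 else b h.1) else 0) =
          c (v (e0, false)) *
            ∑ h : E × Bool, (if v h = w then (if h.1 ∈ J then 0 else b h.1) else 0) := by
        intro w _
        by_cases hw : ∀ h : E × Bool, v h = w → h.1 ∉ J
        · have h2 : ∑ h : E × Bool, (if v h = w then (if h.1 ∈ J then 0 else b h.1) else 0) = 0 := by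
            have h5 := hT0 w hw
            rw [Finset.sum_filter] at h5
            refine Eq.trans (Finset.sum_congr rfl ?_) h5
            intro h _
            by_cases h3 : v h = w
            · rw [if_pos h3, if_pos h3, if_neg (hw h h3)]
            · rw [if_neg h3, if_neg h3]
          rw [h2, mul_zero, mul_zero]
        · push Not at hw
          obtain ⟨h, hh, hhJ⟩ := hw
          rw [hconst h.1 (hconn e0 he0 h.1 hhJ) w (hh ▸ hends h.1 h.2)]
      rw [Finset.sum_congr rfl h1, ← Finset.mul_sum, hTsum, mul_zero]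
    · rw [Finset.not_nonempty_iff_eq_empty] at hne
      apply Finset.sum_eq_zero
      intro w _
      have hw : ∀ h : E × Bool, v h = w → h.1 ∉ J := by
        intro h _
        rw [hne]
        exact Finset.notMem_empty _
      have h2 : ∑ h : E × Bool, (if v h = w then (if h.1 ∈ J then 0 else b h.1) else 0) = 0 := by
        have h5 := hT0 w hw
        rw [Finset.sum_filter] at h5
        refine Eq.trans (Finset.sum_congr rfl ?_) h5
        intro h _
        by_cases h3 : v h = w
        · rw [if_pos h3, if_pos h3, if_neg (hw h h3)]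
        · rw [if_neg h3, if_neg h3]
      rw [h2, mul_zero])
  let W : E → F2 := fun e => y e + (if e ∈ J then 0 else b e)
  have hW : IsFl v W := by
    intro w
    have h1 : ∑ h : E × Bool, (if v h = w then W h.1 else 0) =
        ∑ h : E × Bool, (if v h = w then y h.1 else 0) +
          ∑ h : E × Bool, (if v h = w then (if h.1 ∈ J then 0 else b h.1) else 0) := by
      rw [← Finset.sum_add_distrib]
      apply Finset.sum_congr rfl
      intro h _
      by_cases h3 : v h = w
      · rw [if_pos h3, if_pos h3, if_pos h3]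
      · rw [if_neg h3, if_neg h3, if_neg h3, add_zero]
    rw [h1, hy2 w]
    exact f2_add_self _
  obtain ⟨F, hF1, hF2⟩ := cover_of_sets G v hv
    (fun e => univ.filter (fun c : T3 =>
      xor (xor (inL c (lab Φ e) (lab Q e)) (dot c (lab Ψ e))) (decide (W e = 1)) = true)) (by
    intro c
    have h1 := isFl_add v _ _ (hSfl c) hW
    convert h1 using 2 with e
    rcases f2_cases (W e) with h | h
    · simp [h, hSmem]
    · by_cases h2 : xor (inL c (lab Φ e) (lab Q e)) (dot c (lab Ψ e)) = true
      · have h3 : c ∈ S e := (hSmem e c).2 h2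
        rw [if_pos h3, h]
        simp only [Finset.mem_filter, Finset.mem_univ, true_and, h2, decide_true, Bool.xor_self]
        decide
      · have h3 : c ∉ S e := fun h3 => h2 ((hSmem e c).1 h3)
        have h4 : xor (inL c (lab Φ e) (lab Q e)) (dot c (lab Ψ e)) = false := by
          simpa using h2
        rw [if_neg h3, h]
        simp only [Finset.mem_filter, Finset.mem_univ, true_and, h4, decide_true]
        decide)
  refine ⟨F, hF1, fun e => ?_⟩
  rw [hF2 e]
  by_cases he : e ∈ J
  · rw [if_pos he]
    exact card_four _ _ _ _ (hQ1 e) (hJd' e he)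
  · rw [if_neg he]
    have hWe : W e = b e := by
      show y e + (if e ∈ J then 0 else b e) = b e
      rw [hy1 e he, if_neg he, zero_add]
    rcases card_two_six (lab Φ e) (lab Q e) (lab Ψ e) (hQ1 e) (decide_eq_false (hJn e he).1) (hJn e he).2 with h | h
    · have h2 : b e = 0 := by
        show (if (S e).card = 6 then (1 : F2) else 0) = 0
        rw [if_neg]
        intro h3
        have h4 : (S e).card = 2 := h.1
        omega
      have h3 : decide (W e = 1) = false := by
        rw [hWe, h2]; decide
      rw [h3]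
      exact h.2
    · have h2 : b e = 1 := by
        show (if (S e).card = 6 then (1 : F2) else 0) = 1
        exact if_pos h.1
      have h3 : decide (W e = 1) = true := by
        rw [hWe, h2]; decide
      rw [h3]
      exact h.2

end Pool.Agent.X60.SDC
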